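import Mathlib

/-!
Approximately idempotent Markov kernels, part 1: every measurable set generates an absorbing set,
and disjoint sets generate disjoint absorbing sets.
-/

open MeasureTheory ProbabilityTheory Set

set_option linter.unusedSectionVars false
set_option linter.unusedVariables false

namespace Pool.Agent.Lib.MP_f99ede_an

variable {Ω : Type*} [MeasurableSpace Ω]

/-- One step average. -/
noncomputable def av (ν : Kernel Ω Ω) (f : Ω → ℝ) (s : Ω) : ℝ := ∫ u, f u ∂ν s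

/-- One step probability. -/
noncomputable def pr (ν : Kernel Ω Ω) (A : Set Ω) (s : Ω) : ℝ := (ν s).real A

/-- Bounded measurable functions. -/
def BM (f : Ω → ℝ) : Prop := Measurable f ∧ ∃ C, ∀ u, |f u| ≤ C

/-- Approximate idempotency. -/
def AI (ν : Kernel Ω Ω) : Prop :=
  ∀ f : Ω → ℝ, Measurable f → (∀ u, 0 ≤ f u) → (∀ u, f u ≤ 1) →
    ∀ s, |av ν (av ν f) s - av ν f s| ≤ 1 / 10 ^ 6

lemma BM.of_unit {f : Ω → ℝ} (hf : Measurable f) (h0 : ∀ u, 0 ≤ f u) (h1 : ∀ u, f u ≤ 1) :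
    BM f := ⟨hf, 1, fun u => by rw [abs_of_nonneg (h0 u)]; exact h1 u⟩

lemma BM.const (c : ℝ) : BM (fun _ : Ω => c) := ⟨measurable_const, |c|, fun _ => le_rfl⟩

lemma BM.add {f g : Ω → ℝ} (hf : BM f) (hg : BM g) : BM fun u => f u + g u := by
  obtain ⟨h1, C, hC⟩ := hf
  obtain ⟨h2, D, hD⟩ := hg
  exact ⟨h1.add h2, C + D, fun u => (abs_add_le _ _).trans (add_le_add (hC u) (hD u))⟩

lemma BM.sub {f g : Ω → ℝ} (hf : BM f) (hg : BM g) : BM fun u => f u - g u := by
  obtain ⟨h1, C, hC⟩ := hf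
  obtain ⟨h2, D, hD⟩ := hg
  exact ⟨h1.sub h2, C + D, fun u => (abs_sub _ _).trans (add_le_add (hC u) (hD u))⟩

lemma BM.mul {f g : Ω → ℝ} (hf : BM f) (hg : BM g) : BM fun u => f u * g u := by
  obtain ⟨h1, C, hC⟩ := hf
  obtain ⟨h2, D, hD⟩ := hg
  refine ⟨h1.mul h2, C * D, fun u => ?_⟩
  rw [abs_mul]
  exact mul_le_mul (hC u) (hD u) (abs_nonneg _) ((abs_nonneg _).trans (hC u))

lemma BM.ind {A : Set Ω} (hA : MeasurableSet A) : BM (A.indicator fun _ => (1:ℝ)) :=
  BM.of_unit (measurable_const.indicator hA) (fun u => indicator_nonneg (fun _ _ => zero_le_one) u)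
    (fun u => indicator_le_self' (fun _ _ => zero_le_one) u)

lemma BM.integrable {f : Ω → ℝ} (hf : BM f) (m : Measure Ω) [IsFiniteMeasure m] :
    Integrable f m := by
  obtain ⟨h1, C, hC⟩ := hf
  exact Integrable.of_bound h1.aestronglyMeasurable C (ae_of_all _ hC)

variable {ν : Kernel Ω Ω} [IsMarkovKernel ν]

lemma measurable_av {f : Ω → ℝ} (hf : Measurable f) : Measurable (av ν f) :=
  (hf.stronglyMeasurable.integral_kernel (κ := ν)).measurable

lemma measurable_pr {A : Set Ω} (hA : MeasurableSet A) : Measurable (pr ν A) :=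
  (ν.measurable_coe hA).ennreal_toReal

lemma pr_nonneg (A : Set Ω) (s : Ω) : 0 ≤ pr ν A s := measureReal_nonneg

lemma pr_le_one (A : Set Ω) (s : Ω) : pr ν A s ≤ 1 := measureReal_le_one

lemma pr_mono {A B : Set Ω} (h : A ⊆ B) (s : Ω) : pr ν A s ≤ pr ν B s := measureReal_mono h

lemma pr_union_le (A B : Set Ω) (s : Ω) : pr ν (A ∪ B) s ≤ pr ν A s + pr ν B s :=
  measureReal_union_le A B

lemma pr_compl {A : Set Ω} (hA : MeasurableSet A) (s : Ω) : pr ν Aᶜ s = 1 - pr ν A s := by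
  unfold pr
  rw [measureReal_compl hA, probReal_univ]

lemma pr_univ (s : Ω) : pr ν univ s = 1 := probReal_univ

lemma pr_add_le_one {A B : Set Ω} (hA : MeasurableSet A) (h : Disjoint A B) (s : Ω) :
    pr ν A s + pr ν B s ≤ 1 := by
  have := pr_mono (ν := ν) (h.symm.subset_compl_right) s
  rw [pr_compl hA] at this
  linarith

lemma BM.of_pr {A : Set Ω} (hA : MeasurableSet A) : BM (pr ν A) :=
  BM.of_unit (measurable_pr hA) (pr_nonneg A) (pr_le_one A)

lemma av_ind {A : Set Ω} (hA : MeasurableSet A) :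
    av ν (A.indicator fun _ => (1:ℝ)) = pr ν A := by
  funext s
  simp [av, pr, integral_indicator hA]

lemma av_mono {f g : Ω → ℝ} (hf : BM f) (hg : BM g) (h : ∀ u, f u ≤ g u) (s : Ω) :
    av ν f s ≤ av ν g s :=
  integral_mono (hf.integrable _) (hg.integrable _) h

lemma av_const (c : ℝ) (s : Ω) : av ν (fun _ => c) s = c := by simp [av]

lemma av_add {f g : Ω → ℝ} (hf : BM f) (hg : BM g) (s : Ω) :
    av ν (fun u => f u + g u) s = av ν f s + av ν g s :=
  integral_add (hf.integrable _) (hg.integrable _)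

lemma av_sub {f g : Ω → ℝ} (hf : BM f) (hg : BM g) (s : Ω) :
    av ν (fun u => f u - g u) s = av ν f s - av ν g s :=
  integral_sub (hf.integrable _) (hg.integrable _)

lemma av_mul (c : ℝ) (f : Ω → ℝ) (s : Ω) : av ν (fun u => c * f u) s = c * av ν f s :=
  integral_const_mul c f

lemma av_nonneg {f : Ω → ℝ} (h : ∀ u, 0 ≤ f u) (s : Ω) : 0 ≤ av ν f s := integral_nonneg h

lemma av_le {f : Ω → ℝ} (hf : BM f) {c : ℝ} (h : ∀ u, f u ≤ c) (s : Ω) : av ν f s ≤ c := by
  have := av_mono (ν := ν) hf (BM.const c) h s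
  rwa [av_const] at this

lemma BM.of_av {f : Ω → ℝ} (hf : BM f) : BM (av ν f) := by
  obtain ⟨C, hC⟩ := hf.2
  refine ⟨measurable_av hf.1, C, fun s => abs_le.2 ⟨?_, av_le hf (fun u => (abs_le.1 (hC u)).2) s⟩⟩
  have := av_mono (ν := ν) (BM.const (-C)) hf (fun u => (abs_le.1 (hC u)).1) s
  rwa [av_const] at this

/-- Markov's inequality. -/
lemma mul_pr_le {f : Ω → ℝ} (hf : BM f) (h0 : ∀ u, 0 ≤ f u) {A : Set Ω} (hA : MeasurableSet A)
    {c : ℝ} (h : ∀ u ∈ A, c ≤ f u) (s : Ω) : c * pr ν A s ≤ av ν f s := by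
  rw [← av_ind hA, ← av_mul]
  refine av_mono ((BM.const c).mul (BM.ind hA)) hf (fun u => ?_) s
  by_cases hu : u ∈ A
  · simpa [hu] using h u hu
  · simpa [hu] using h0 u

lemma AI.harm (H : AI ν) {A : Set Ω} (hA : MeasurableSet A) (s : Ω) :
    |av ν (pr ν A) s - pr ν A s| ≤ 1 / 10 ^ 6 := by
  have := H _ (BM.ind hA).1 (fun u => indicator_nonneg (fun _ _ => zero_le_one) u)
    (fun u => indicator_le_self' (fun _ _ => zero_le_one) u) s
  rwa [av_ind hA] at this

/-- The defect of an almost subharmonic function is small on average. -/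
lemma AI.sub (H : AI ν) {h w : Ω → ℝ} (hm : Measurable h) (h0 : ∀ u, 0 ≤ h u) (h1 : ∀ u, h u ≤ 1)
    (hw : BM w) (hle : ∀ u, w u ≤ av ν h u - h u + 1 / 10 ^ 6) (s : Ω) :
    av ν w s ≤ 2 / 10 ^ 6 := by
  have hb := BM.of_unit hm h0 h1
  have h2 := av_mono (ν := ν) hw ((hb.of_av.sub hb).add (BM.const _)) hle s
  rw [av_add (hb.of_av.sub hb) (BM.const _), av_sub hb.of_av hb, av_const] at h2
  have := (abs_le.1 (H h hm h0 h1 s)).2
  linarith

/-- If `ν s W` is large then `ν u W` is large for most successors `u`. -/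
lemma AI.low (H : AI ν) {W : Set Ω} (hW : MeasurableSet W) {x y : ℝ} {s : Ω}
    (hs : 1 - x ≤ pr ν W s) : y * pr ν {u | pr ν W u < 1 - y} s ≤ x + 1 / 10 ^ 6 := by
  have hb : BM (pr ν W) := BM.of_pr hW
  have h1 := mul_pr_le (ν := ν) ((BM.const 1).sub hb) (fun u => sub_nonneg.2 (pr_le_one W u))
    (measurableSet_lt hb.1 measurable_const) (c := y) (A := {u | pr ν W u < 1 - y})
    (fun u hu => by simp only [mem_ofPred_eq] at hu; linarith) s
  rw [av_sub (BM.const 1) hb, av_const] at h1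
  have := (abs_le.1 (H.harm hW s)).1
  linarith

/-- Crossing lemma: a harmonic function rarely drops from above `b` to below `a`. -/
lemma AI.cross (H : AI ν) {W : Set Ω} (hW : MeasurableSet W) {a b τ : ℝ} (hab : a ≤ b)
    (hb1 : b ≤ 1) (hτ : 0 ≤ τ) (s : Ω) :
    (b - a) * τ * pr ν {u | b ≤ pr ν W u ∧ τ < pr ν {v | pr ν W v ≤ a} u} s ≤ 2 / 10 ^ 6 := by
  have hb : BM (pr ν W) := BM.of_pr hW
  have hS : MeasurableSet {v | pr ν W v ≤ a} := measurableSet_le hb.1 measurable_const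
  have hA : MeasurableSet {u | b ≤ pr ν W u ∧ τ < pr ν {v | pr ν W v ≤ a} u} :=
    (measurableSet_le measurable_const hb.1).inter
      (measurableSet_lt measurable_const (measurable_pr hS))
  set h : Ω → ℝ := fun u => max (b - pr ν W u) 0 with hh
  have hm : Measurable h := (measurable_const.sub hb.1).max measurable_const
  have h0 : ∀ u, 0 ≤ h u := fun u => le_max_right _ _
  have h1 : ∀ u, h u ≤ 1 := fun u => max_le (by linarith [pr_nonneg (ν := ν) W u]) zero_le_one
  have hhb := BM.of_unit hm h0 h1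
  rw [← av_ind hA, ← av_mul]
  refine H.sub hm h0 h1 ((BM.const _).mul (BM.ind hA)) (fun u => ?_) s
  have e0 := av_nonneg (ν := ν) h0 u
  by_cases hu : u ∈ {u | b ≤ pr ν W u ∧ τ < pr ν {v | pr ν W v ≤ a} u}
  · have e1 := mul_pr_le (ν := ν) hhb h0 hS (c := b - a)
      (fun v hv => le_max_of_le_left (by simp only [mem_ofPred_eq] at hv; linarith)) u
    have e2 : h u = 0 := max_eq_right (by linarith [hu.1])
    have e3 : (b - a) * τ ≤ (b - a) * pr ν {v | pr ν W v ≤ a} u :=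
      mul_le_mul_of_nonneg_left hu.2.le (by linarith)
    rw [indicator_of_mem hu, e2]
    have : (0:ℝ) ≤ 1 / 10 ^ 6 := by norm_num
    linarith
  · rw [indicator_of_notMem hu, mul_zero]
    have e1 := av_mono (ν := ν) ((BM.const b).sub hb) hhb (fun v => le_max_left _ _) u
    rw [av_sub (BM.const b) hb, av_const] at e1
    have e2 := (abs_le.1 (H.harm hW u)).2
    have : h u ≤ av ν h u + 1 / 10 ^ 6 := max_le (by linarith) (by positivity)
    linarith

/-- Majority step. -/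
def maj (ν : Kernel Ω Ω) (W : Set Ω) : Set Ω := {s | 1 / 2 < pr ν W s}

lemma measurableSet_maj {W : Set Ω} (hW : MeasurableSet W) : MeasurableSet (maj ν W) :=
  measurableSet_lt measurable_const (measurable_pr hW)

lemma maj_mono {V W : Set Ω} (h : V ⊆ W) : maj ν V ⊆ maj ν W :=
  fun s hs => lt_of_lt_of_le hs (pr_mono h s)

lemma pr_maj {W : Set Ω} (hW : MeasurableSet W) (u : Ω) :
    pr ν (maj ν W) u = 1 - pr ν {v | pr ν W v ≤ 1 / 2} u := by
  rw [← pr_compl (measurableSet_le (measurable_pr hW) measurable_const)]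
  congr 1
  ext v
  simp [maj]

/-- Deep membership passes to most successors, one majority level higher. -/
lemma AI.persist (H : AI ν) {W : Set Ω} (hW : MeasurableSet W) {s : Ω}
    (hs : 99 / 100 ≤ pr ν W s) : pr ν {u | pr ν (maj ν W) u < 99 / 100} s ≤ 1 / 24 := by
  have h1 := H.low hW (x := 1 / 100) (y := 1 / 4) (s := s) (by linarith)
  have h2 := H.cross hW (a := 1 / 2) (b := 3 / 4) (τ := 1 / 100) (by norm_num) (by norm_num)
    (by norm_num) s
  have h3 : {u | pr ν (maj ν W) u < 99 / 100} ⊆ {u | pr ν W u < 1 - 1 / 4} ∪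
      {u | 3 / 4 ≤ pr ν W u ∧ 1 / 100 < pr ν {v | pr ν W v ≤ 1 / 2} u} := by
    intro u hu
    simp only [mem_ofPred_eq, pr_maj hW, mem_union] at hu ⊢
    by_cases h : pr ν W u < 1 - 1 / 4
    · exact Or.inl h
    · exact Or.inr ⟨by linarith, by linarith⟩
  have h4 := (pr_mono (ν := ν) h3 s).trans (pr_union_le _ _ s)
  norm_num at h1 h2 h4 ⊢
  linarith

/-- Iterated majority. -/
def itm (ν : Kernel Ω Ω) (B : Set Ω) : ℕ → Set Ω
  | 0 => B
  | j + 1 => maj ν (itm ν B j)

lemma measurableSet_itm {B : Set Ω} (hB : MeasurableSet B) : ∀ j, MeasurableSet (itm ν B j)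
  | 0 => hB
  | j + 1 => measurableSet_maj (measurableSet_itm hB j)

lemma disjoint_itm {A B : Set Ω} (hA : MeasurableSet A) (h : Disjoint A B) :
    ∀ j, Disjoint (itm ν A j) (itm ν B j)
  | 0 => h
  | j + 1 => by
    rw [Set.disjoint_left]
    intro s h1 h2
    have := pr_add_le_one (ν := ν) (measurableSet_itm hA j) (disjoint_itm hA h j) s
    have h1' : 1 / 2 < pr ν (itm ν A j) s := h1
    have h2' : 1 / 2 < pr ν (itm ν B j) s := h2
    linarith

/-- Erosion of a set by majority. -/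
def ero (ν : Kernel Ω Ω) (V : Set Ω) : ℕ → Set Ω
  | 0 => V
  | i + 1 => ero ν V i ∩ maj ν (ero ν V i)

lemma measurableSet_ero {V : Set Ω} (hV : MeasurableSet V) : ∀ i, MeasurableSet (ero ν V i)
  | 0 => hV
  | i + 1 => (measurableSet_ero hV i).inter (measurableSet_maj (measurableSet_ero hV i))

lemma ero_succ_subset_maj (V : Set Ω) : ∀ i, ero ν V (i + 1) ⊆ ero ν (maj ν V) i
  | 0 => inter_subset_right
  | i + 1 => inter_subset_inter (ero_succ_subset_maj V i) (maj_mono (ero_succ_subset_maj V i))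

lemma ero_subset_itm (B : Set Ω) (a : ℕ) : ∀ i, ero ν (itm ν B a) i ⊆ itm ν B (a + i)
  | 0 => subset_rfl
  | i + 1 => inter_subset_right.trans (maj_mono (ero_subset_itm B a i))

lemma inter_maj_subset_ero (V : Set Ω) : ∀ i, V ∩ maj ν (ero ν V i) ⊆ ero ν V (i + 1)
  | 0 => subset_rfl
  | i + 1 => fun _ hs =>
    ⟨inter_maj_subset_ero V i ⟨hs.1, maj_mono inter_subset_left hs.2⟩, hs.2⟩

lemma pr_ero_succ {V : Set Ω} (hV : MeasurableSet V) (i : ℕ) (u : Ω) :
    pr ν V u - pr ν {v | pr ν (ero ν V i) v ≤ 1 / 2} u ≤ pr ν (ero ν V (i + 1)) u := by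
  have h1 : V ⊆ ero ν V (i + 1) ∪ {v | pr ν (ero ν V i) v ≤ 1 / 2} := by
    intro v hv
    by_cases h : pr ν (ero ν V i) v ≤ 1 / 2
    · exact Or.inr h
    · exact Or.inl (inter_maj_subset_ero V i ⟨hv, not_le.1 h⟩)
  have := (pr_mono (ν := ν) h1 u).trans (pr_union_le _ _ u)
  linarith

/-- The erosion front moves by two steps for a third of the successors. -/
lemma AI.front (H : AI ν) {V : Set Ω} (hV : MeasurableSet V) {i : ℕ} {s : Ω}
    (h0 : 99 / 100 ≤ pr ν V s) (hi : 3 / 4 ≤ pr ν (ero ν V i) s) :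
    pr ν {u | pr ν (ero ν V (i + 2)) u < 3 / 4} s ≤ 3 / 4 := by
  have h1 := H.low (measurableSet_ero (ν := ν) hV i) (x := 1 / 4) (y := 3 / 8) (s := s) (by linarith)
  have h2 := H.low hV (x := 1 / 100) (y := 1 / 8) (s := s) (by linarith)
  have h3 := H.cross (measurableSet_ero (ν := ν) hV i) (a := 1 / 2) (b := 5 / 8) (τ := 1 / 8)
    (by norm_num) (by norm_num) (by norm_num) s
  have h4 := H.cross (measurableSet_ero (ν := ν) hV (i + 1)) (a := 1 / 2) (b := 5 / 8) (τ := 1 / 8)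
    (by norm_num) (by norm_num) (by norm_num) s
  have h5 : {u | pr ν (ero ν V (i + 2)) u < 3 / 4} ⊆
      (({u | pr ν (ero ν V i) u < 1 - 3 / 8} ∪ {u | pr ν V u < 1 - 1 / 8}) ∪
      {u | 5 / 8 ≤ pr ν (ero ν V i) u ∧ 1 / 8 < pr ν {v | pr ν (ero ν V i) v ≤ 1 / 2} u}) ∪
      {u | 5 / 8 ≤ pr ν (ero ν V (i + 1)) u ∧
        1 / 8 < pr ν {v | pr ν (ero ν V (i + 1)) v ≤ 1 / 2} u} := by
    intro u hu
    simp only [mem_ofPred_eq, mem_union] at hu ⊢
    by_contra hc
    push Not at hc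
    obtain ⟨⟨⟨c1, c2⟩, c3⟩, c4⟩ := hc
    have e1 := pr_ero_succ (ν := ν) hV i u
    have e2 := pr_ero_succ (ν := ν) hV (i + 1) u
    have e3 := c3 (by linarith)
    have e4 := c4 (by linarith)
    linarith
  have h6 := (pr_mono (ν := ν) h5 s).trans ((pr_union_le _ _ s).trans (add_le_add
    ((pr_union_le _ _ s).trans (add_le_add (pr_union_le _ _ s) le_rfl)) le_rfl))
  norm_num at h1 h2 h3 h4 h6 ⊢
  linarith

lemma AI.no_mixed (H : AI ν) {A B : Set Ω} (hA : MeasurableSet A) (hB : MeasurableSet B)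
    (h : Disjoint A B) (d : ℕ) : ∀ n i, d ≤ i + n → ∀ a s, 99 / 100 ≤ pr ν (itm ν A a) s →
      99 / 100 ≤ pr ν (itm ν B (a + d)) s → pr ν (ero ν (itm ν A a) i) s < 3 / 4 := by
  intro n
  induction n with
  | zero =>
    intro i hi a s _ h2
    obtain ⟨e, rfl⟩ := Nat.exists_eq_add_of_le (show d ≤ i by omega)
    have h3 : ∀ e, ero ν (itm ν A a) (d + e) ⊆ ero ν (itm ν A a) d := by
      intro e
      induction e with
      | zero => exact subset_rfl
      | succ e ih => exact inter_subset_left.trans ih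
    have h4 := pr_mono (ν := ν) ((h3 e).trans (ero_subset_itm A a d)) s
    have h5 := pr_add_le_one (ν := ν) (measurableSet_itm (ν := ν) hA (a + d))
      (disjoint_itm hA h (a + d)) s
    linarith
  | succ n ih =>
    intro i hi a s h1 h2
    by_contra hc
    have hA' := measurableSet_itm (ν := ν) hA a
    have e1 := H.front hA' h1 (not_lt.1 hc)
    have e2 := H.persist hA' h1
    have e3 := H.persist (measurableSet_itm (ν := ν) hB (a + d)) h2
    have e4 : (univ : Set Ω) ⊆ ({u | pr ν (ero ν (itm ν A a) (i + 2)) u < 3 / 4} ∪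
        {u | pr ν (maj ν (itm ν A a)) u < 99 / 100}) ∪
        {u | pr ν (maj ν (itm ν B (a + d))) u < 99 / 100} := by
      intro u _
      simp only [mem_ofPred_eq, mem_union]
      by_contra hu
      push Not at hu
      obtain ⟨⟨u1, u2⟩, u3⟩ := hu
      have e5 := ih (i + 1) (by omega) (a + 1) u u2 (by rw [Nat.add_right_comm]; exact u3)
      have e6 := pr_mono (ν := ν) (ero_succ_subset_maj (ν := ν) (itm ν A a) (i + 1)) u
      exact absurd (u1.trans e6) (not_le.2 e5)
    have e7 := (pr_mono (ν := ν) e4 s).trans ((pr_union_le _ _ s).trans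
      (add_le_add (pr_union_le _ _ s) le_rfl))
    rw [pr_univ] at e7
    linarith

/-- The absorbing hull of a set. -/
def hull (ν : Kernel Ω Ω) (B : Set Ω) : Set Ω := ⋃ j, {s | 99 / 100 ≤ pr ν (itm ν B j) s}

lemma measurableSet_hull {B : Set Ω} (hB : MeasurableSet B) : MeasurableSet (hull ν B) :=
  MeasurableSet.iUnion fun j =>
    measurableSet_le measurable_const (measurable_pr (measurableSet_itm hB j))

lemma mem_hull {B : Set Ω} {s : Ω} (h : 99 / 100 ≤ pr ν B s) : s ∈ hull ν B :=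
  mem_iUnion.2 ⟨0, h⟩

lemma AI.hull_absorb (H : AI ν) {B : Set Ω} (hB : MeasurableSet B) {s : Ω} (hs : s ∈ hull ν B) :
    23 / 24 ≤ pr ν (hull ν B) s := by
  obtain ⟨j, hj⟩ := mem_iUnion.1 hs
  have h1 := H.persist (measurableSet_itm (ν := ν) hB j) hj
  have h2 : (hull ν B)ᶜ ⊆ {u | pr ν (maj ν (itm ν B j)) u < 99 / 100} := by
    intro u hu
    by_contra hc
    exact hu (mem_iUnion.2 ⟨j + 1, show 99 / 100 ≤ pr ν (maj ν (itm ν B j)) u from not_lt.1 hc⟩)
  have h3 := pr_mono (ν := ν) h2 s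
  rw [pr_compl (measurableSet_hull hB)] at h3
  linarith

lemma AI.hull_disjoint (H : AI ν) {A B : Set Ω} (hA : MeasurableSet A) (hB : MeasurableSet B)
    (h : Disjoint A B) : Disjoint (hull ν A) (hull ν B) := by
  rw [Set.disjoint_left]
  intro s h1 h2
  obtain ⟨a, ha⟩ := mem_iUnion.1 h1
  obtain ⟨b, hb⟩ := mem_iUnion.1 h2
  rcases le_total a b with hab | hab
  · obtain ⟨d, rfl⟩ := Nat.exists_eq_add_of_le hab
    have := H.no_mixed hA hB h d d 0 (by omega) a s ha hb
    have ha' : 99 / 100 ≤ pr ν (itm ν A a) s := ha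
    change pr ν (itm ν A a) s < 3 / 4 at this
    linarith
  · obtain ⟨d, rfl⟩ := Nat.exists_eq_add_of_le hab
    have := H.no_mixed hB hA h.symm d d 0 (by omega) b s hb ha
    have hb' : 99 / 100 ≤ pr ν (itm ν B b) s := hb
    change pr ν (itm ν B b) s < 3 / 4 at this
    linarith

end Pool.Agent.Lib.MP_f99ede_an
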