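import Pool.Agent.Lib.MP_f99ede_an.Core1

/-!
Approximately idempotent Markov kernels, part 2: an almost invariant real label separating
the points that are separated by a countable family of sets.
-/

open MeasureTheory ProbabilityTheory Set Filter

set_option linter.unusedSectionVars false
set_option linter.unusedVariables false

namespace Pool.Agent.Lib.MP_f99ede_an

variable {Ω : Type*} [MeasurableSpace Ω] {ν : Kernel Ω Ω} [IsMarkovKernel ν]

/-- Probability of changing the label in one step. -/
noncomputable def out {Λ : Type*} (ν : Kernel Ω Ω) (l : Ω → Λ) (u : Ω) : ℝ :=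
  pr ν {v | l v ≠ l u} u

lemma BM.prk {S : Set (Ω × Ω)} (hS : MeasurableSet S) : BM fun u => pr ν {v | (u, v) ∈ S} u :=
  BM.of_unit (Kernel.measurable_kernel_prodMk_left hS).ennreal_toReal (fun u => pr_nonneg _ u)
    fun u => pr_le_one _ u

lemma BM.of_out {Λ : Type*} [MeasurableSpace Λ] [MeasurableEq Λ] {l : Ω → Λ} (hl : Measurable l) :
    BM (out ν l) :=
  BM.prk (S := {p : Ω × Ω | l p.2 = l p.1}ᶜ)
    (measurableSet_eq_fun (hl.comp measurable_snd) (hl.comp measurable_fst)).compl

/-- Error reduction for labels that can be read off from the one step distribution. -/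
lemma AI.reduce {Λ : Type*} [MeasurableSpace Λ] [MeasurableEq Λ] (H : AI ν) {l : Ω → Λ}
    (hl : Measurable l) (hid : ∀ u v, 3 / 5 < pr ν {x | l x = l u} v → l v = l u)
    (hraw : ∀ t, av ν (out ν l) t ≤ 26 / 100) (t : Ω) : av ν (out ν l) t ≤ 1 / 1000 := by
  classical
  have hc : ∀ u, MeasurableSet {x | l x = l u} := fun u => measurableSet_eq_fun hl measurable_const
  have ho : BM (out ν l) := BM.of_out hl
  have hown : ∀ u, pr ν {x | l x = l u} u = 1 - out ν l u := by
    intro u
    have := pr_compl (ν := ν) (hc u) u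
    have e : out ν l u = pr ν {x | l x = l u}ᶜ u := rfl
    linarith
  have ho0 : ∀ u, 0 ≤ out ν l u := fun u => pr_nonneg _ u
  set h : Ω → ℝ := fun u => max (2 / 5 - out ν l u) 0 with hh
  have hm : Measurable h := (measurable_const.sub ho.1).max measurable_const
  have h0 : ∀ u, 0 ≤ h u := fun u => le_max_right _ _
  have h1 : ∀ u, h u ≤ 1 := fun u => max_le (by linarith [ho0 u]) zero_le_one
  have hb := BM.of_unit hm h0 h1
  have hL : MeasurableSet {u | 2 / 5 ≤ out ν l u} := measurableSet_le measurable_const ho.1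
  have hS : MeasurableSet {p : Ω × Ω | l p.2 ≠ l p.1 ∧ out ν l p.2 < 2 / 5} :=
    (measurableSet_eq_fun (hl.comp measurable_snd) (hl.comp measurable_fst)).compl.inter
      (measurableSet_lt (ho.1.comp measurable_snd) measurable_const)
  have hS' : ∀ u, MeasurableSet {v | l v ≠ l u ∧ out ν l v < 2 / 5} := fun u =>
    (hc u).compl.inter (measurableSet_lt ho.1 measurable_const)
  have hbb : BM fun u => pr ν {v | l v ≠ l u ∧ out ν l v < 2 / 5} u := BM.prk hS
  set w : Ω → ℝ := fun u => if 2 / 5 ≤ out ν l u then 1 / 75 else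
    1 / 5 * pr ν {v | l v ≠ l u ∧ out ν l v < 2 / 5} u with hw
  have hw0 : ∀ u, 0 ≤ w u := by
    intro u
    simp only [hw]
    split_ifs
    · norm_num
    · exact mul_nonneg (by norm_num) (pr_nonneg _ _)
  have hwb : BM w := by
    refine BM.of_unit (Measurable.ite hL measurable_const (measurable_const.mul hbb.1)) hw0 ?_
    intro u
    simp only [hw]
    split_ifs
    · norm_num
    · linarith [pr_le_one (ν := ν) {v | l v ≠ l u ∧ out ν l v < 2 / 5} u]
  have key : ∀ s, av ν w s ≤ 2 / 10 ^ 6 := by
    refine H.sub hm h0 h1 hwb fun u => ?_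
    simp only [hw]
    split_ifs with hu
    · have hN : MeasurableSet {v | 3 / 10 ≤ out ν l v} := measurableSet_le measurable_const ho.1
      have e1 := mul_pr_le (ν := ν) ho ho0 hN (c := 3 / 10) (fun v hv => hv) u
      have e2 := mul_pr_le (ν := ν) hb h0 hN.compl (c := 1 / 10) (fun v hv => by
        have : out ν l v < 3 / 10 := not_le.1 hv
        exact le_max_of_le_left (by linarith)) u
      rw [pr_compl hN] at e2
      have e3 : h u = 0 := max_eq_right (by linarith)
      have e4 := hraw u
      rw [e3]
      norm_num at e1 e2 ⊢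
      linarith
    · have e1 := av_mono (ν := ν) (((BM.of_pr (ν := ν) (hc u)).sub (BM.const (3 / 5))).add
        ((BM.const (1 / 5)).mul (BM.ind (hS' u)))) hb (fun v => by
          by_cases hv : v ∈ {v | l v ≠ l u ∧ out ν l v < 2 / 5}
          · rw [indicator_of_mem hv]
            have d : Disjoint {x | l x = l u} {x | l x = l v} :=
              Set.disjoint_left.2 fun x a b => hv.1 (b.symm.trans a)
            have := pr_add_le_one (ν := ν) (hc u) d v
            rw [hown] at this
            linarith [hv.2, h0 v]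
          · rw [indicator_of_notMem hv]
            by_cases hv2 : 3 / 5 < pr ν {x | l x = l u} v
            · have e := hid u v hv2
              have := hown v
              rw [e] at this
              exact le_max_of_le_left (by linarith)
            · linarith [h0 v]) u
      rw [av_add ((BM.of_pr (ν := ν) (hc u)).sub (BM.const _)) ((BM.const _).mul (BM.ind (hS' u))),
        av_sub (BM.of_pr (ν := ν) (hc u)) (BM.const _), av_const, av_mul, av_ind (hS' u)] at e1
      have e2 := (abs_le.1 (H.harm (hc u) u)).1
      have e3 : h u = 2 / 5 - out ν l u := max_eq_left (by linarith)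
      rw [hown] at e2
      linarith
  have e1 : ∀ u, pr ν {u | 2 / 5 ≤ out ν l u} u ≤ 150 / 10 ^ 6 := by
    intro u
    have := mul_pr_le (ν := ν) hwb hw0 hL (c := 1 / 75) (fun v hv => by
      have hv' : 2 / 5 ≤ out ν l v := hv
      simp only [hw, if_pos hv', le_refl]) u
    linarith [key u]
  have e2 := av_mono (ν := ν) ho (((BM.const 75).mul hwb).add (BM.const (150 / 10 ^ 6)))
    (fun u => by
      have e3 : {v | l v ≠ l u} ⊆ {v | l v ≠ l u ∧ out ν l v < 2 / 5} ∪
          {v | 2 / 5 ≤ out ν l v} := fun v hv => by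
        by_cases h : out ν l v < 2 / 5
        · exact Or.inl ⟨hv, h⟩
        · exact Or.inr (not_lt.1 h)
      have e4 := (pr_mono (ν := ν) e3 u).trans (pr_union_le _ _ u)
      have e5 : out ν l u ≤ 1 := pr_le_one _ _
      have e6 := pr_nonneg (ν := ν) {v | l v ≠ l u ∧ out ν l v < 2 / 5} u
      have e7 : out ν l u = pr ν {v | l v ≠ l u} u := rfl
      simp only [hw]
      split_ifs
      · norm_num
        linarith
      · linarith [e1 u]) t
  rw [av_add ((BM.const 75).mul hwb) (BM.const _), av_mul, av_const] at e2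
  have := key t
  norm_num at this e2 ⊢
  linarith

lemma AI.off (H : AI ν) {W : Set Ω} (hW : MeasurableSet W) (ha : ∀ s ∈ W, 23 / 24 ≤ pr ν W s)
    (v : Ω) : av ν (fun u => pr ν W u * Wᶜ.indicator (fun _ => (1:ℝ)) u) v ≤ 1 / 24 + 1 / 10 ^ 6 := by
  have e1 := av_mono (ν := ν) ((BM.of_pr (ν := ν) hW).mul (BM.ind hW.compl))
    ((BM.of_pr (ν := ν) hW).sub ((BM.const (23 / 24)).mul (BM.ind hW))) (fun u => by
      by_cases hu : u ∈ W
      · rw [indicator_of_mem hu, indicator_of_notMem (not_not.2 hu)]
        linarith [ha u hu]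
      · rw [indicator_of_notMem hu, indicator_of_mem (mem_compl hu)]
        linarith) v
  rw [av_sub (BM.of_pr hW) ((BM.const _).mul (BM.ind hW)), av_mul, av_ind hW] at e1
  have e2 := (abs_le.1 (H.harm hW v)).2
  linarith [pr_le_one (ν := ν) W v]

lemma AI.maj_le (H : AI ν) {W : Set Ω} (hW : MeasurableSet W) (ha : ∀ s ∈ W, 23 / 24 ≤ pr ν W s)
    (v : Ω) : pr ν (maj ν W) v ≤ pr ν W v + 9 / 100 := by
  have e1 := mul_pr_le (ν := ν) ((BM.of_pr (ν := ν) hW).mul (BM.ind hW.compl))
    (fun u => mul_nonneg (pr_nonneg _ _) (indicator_nonneg (fun _ _ => zero_le_one) u))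
    ((measurableSet_maj (ν := ν) hW).diff hW) (c := 1 / 2) (fun u hu => by
      rw [indicator_of_mem (mem_compl hu.2), mul_one]
      exact le_of_lt hu.1) v
  have e2 := H.off hW ha v
  have e3 : maj ν W ⊆ W ∪ (maj ν W \ W) := by
    rw [union_sdiff_self]
    exact subset_union_right
  have e4 := (pr_mono (ν := ν) e3 v).trans (pr_union_le _ _ v)
  norm_num at e1 e2 ⊢
  linarith

lemma subset_maj {W : Set Ω} (ha : ∀ s ∈ W, 23 / 24 ≤ pr ν W s) : W ⊆ maj ν W :=
  fun s hs => lt_of_lt_of_le (by norm_num) (ha s hs)

lemma AI.bit (H : AI ν) {W : Set Ω} (hW : MeasurableSet W) (ha : ∀ s ∈ W, 23 / 24 ≤ pr ν W s)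
    (t : Ω) : av ν (out ν fun u => u ∈ maj ν W) t ≤ 1 / 4 := by
  have hC := measurableSet_maj (ν := ν) hW
  have e1 := av_mono (ν := ν) (BM.of_out (ν := ν) (measurable_mem.2 hC))
    (((BM.of_pr (ν := ν) hW).mul (BM.ind hW.compl)).add (BM.const (9 / 100))) (fun u => by
      have e2 := pr_mono (ν := ν) (subset_maj ha) u
      by_cases hu : u ∈ maj ν W
      · have e : out ν (fun u => u ∈ maj ν W) u = pr ν (maj ν W)ᶜ u := by
          unfold out
          congr 1
          ext v
          simp [hu]
        rw [e, pr_compl hC]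
        by_cases hu2 : u ∈ W
        · rw [indicator_of_notMem (not_not.2 hu2)]
          linarith [ha u hu2]
        · rw [indicator_of_mem (mem_compl hu2)]
          have : 1 / 2 < pr ν W u := hu
          linarith
      · have e : out ν (fun u => u ∈ maj ν W) u = pr ν (maj ν W) u := by
          unfold out
          congr 1
          ext v
          simp [hu]
        rw [e, indicator_of_mem (mem_compl fun h => hu (subset_maj ha h))]
        linarith [H.maj_le hW ha u]) t
  rw [av_add ((BM.of_pr (ν := ν) hW).mul (BM.ind hW.compl)) (BM.const _), av_const] at e1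
  have := H.off hW ha t
  norm_num at this ⊢
  linarith

lemma AI.bits (H : AI ν) {W : ℕ → Set Ω} (hW : ∀ k, MeasurableSet (W k))
    (ha : ∀ k, ∀ s ∈ W k, 23 / 24 ≤ pr ν (W k) s) (n : ℕ) :
    ∀ t, av ν (out ν fun u k => k < n ∧ u ∈ maj ν (W k)) t ≤ 1 / 1000 := by
  have hC := fun k => measurableSet_maj (ν := ν) (hW k)
  have hm : ∀ n, Measurable fun u k => k < n ∧ u ∈ maj ν (W k) := fun n =>
    measurable_pi_lambda _ fun k => measurable_const.and (measurable_mem.2 (hC k))
  induction n with
  | zero =>
    intro t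
    refine av_le (BM.of_out (hm 0)) (fun u => ?_) t
    simp [out, pr]
  | succ n ih =>
    refine H.reduce (hm (n + 1)) (fun u v h => ?_) fun t => ?_
    · funext k
      by_cases hk : k < n + 1
      · simp only [hk, true_and, eq_iff_iff]
        by_cases hu : u ∈ maj ν (W k)
        · have e1 : {x | (fun k => k < n + 1 ∧ x ∈ maj ν (W k)) =
              fun k => k < n + 1 ∧ u ∈ maj ν (W k)} ⊆ maj ν (W k) := fun x hx =>
            ((congrFun hx k).symm ▸ (⟨hk, hu⟩ : k < n + 1 ∧ u ∈ maj ν (W k))).2
          have e2 := pr_mono (ν := ν) e1 v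
          have e3 := H.maj_le (hW k) (ha k) v
          exact iff_of_true (show 1 / 2 < pr ν (W k) v by linarith) hu
        · have e1 : {x | (fun k => k < n + 1 ∧ x ∈ maj ν (W k)) =
              fun k => k < n + 1 ∧ u ∈ maj ν (W k)} ⊆ (W k)ᶜ := fun x hx h' =>
            hu ((congrFun hx k) ▸ (⟨hk, subset_maj (ha k) h'⟩ : k < n + 1 ∧ x ∈ maj ν (W k))).2
          have e2 := pr_mono (ν := ν) e1 v
          rw [pr_compl (hW k)] at e2
          exact iff_of_false (fun h' => by have : 1 / 2 < pr ν (W k) v := h'; linarith) hu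
      · simp [hk]
    · have e1 := av_mono (ν := ν) (BM.of_out (ν := ν) (hm (n + 1)))
        ((BM.of_out (ν := ν) (hm n)).add (BM.of_out (ν := ν) (measurable_mem.2 (hC n))))
        (fun u => by
          refine le_trans (pr_mono (fun v hv => ?_) u) (pr_union_le _ _ u)
          by_contra hc
          simp only [mem_union, mem_ofPred_eq, not_or, ne_eq, not_not] at hc
          apply hv
          funext k
          beta_reduce
          rcases lt_trichotomy k n with h | h | h
          · have := congrFun hc.1 k
            simp only [h, true_and] at this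
            rw [this]
          · rw [h, hc.2]
          · simp [show ¬ k < n + 1 by omega]) t
      rw [av_add (BM.of_out (hm n)) (BM.of_out (measurable_mem.2 (hC n)))] at e1
      linarith [ih t, H.bit (hW n) (ha n) t]

/-- An almost invariant label. -/
theorem AI.exists_label (H : AI ν) (B : ℕ → Set Ω) (hB : ∀ k, MeasurableSet (B k)) :
    ∃ φ : Ω → ℝ, Measurable φ ∧ (∀ t, av ν (out ν φ) t ≤ 1 / 1000) ∧
      ∀ k z z', 99 / 100 ≤ pr ν (B k) z → pr ν (B k) z' ≤ 1 / 100 → φ z ≠ φ z' := by
  have hW := fun k => measurableSet_hull (ν := ν) (hB k)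
  have ha : ∀ k, ∀ s ∈ hull ν (B k), 23 / 24 ≤ pr ν (hull ν (B k)) s :=
    fun k s hs => H.hull_absorb (hB k) hs
  have hC := fun k => measurableSet_maj (ν := ν) (hW k)
  have he := measurableEmbedding_embeddingReal (ℕ → Prop)
  have hm : ∀ n, Measurable fun u k => k < n ∧ u ∈ maj ν (hull ν (B k)) := fun n =>
    measurable_pi_lambda _ fun k => measurable_const.and (measurable_mem.2 (hC k))
  have hφ : Measurable fun u => embeddingReal (ℕ → Prop) fun k => u ∈ maj ν (hull ν (B k)) :=
    he.measurable.comp (measurable_pi_lambda _ fun k => measurable_mem.2 (hC k))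
  refine ⟨_, hφ, fun t => ?_, fun k z z' h1 h2 h => ?_⟩
  · refine le_of_tendsto' (tendsto_integral_of_dominated_convergence (μ := ν t)
      (F := fun n => out ν fun u k => k < n ∧ u ∈ maj ν (hull ν (B k))) (fun _ => 1)
      (fun n => (BM.of_out (hm n)).1.aestronglyMeasurable) (integrable_const _)
      (fun n => ae_of_all _ fun u => ?_) (ae_of_all _ fun u => ?_)) fun n => H.bits hW ha n t
    · unfold out
      rw [Real.norm_of_nonneg (pr_nonneg _ _)]
      exact pr_le_one _ _
    · have e1 : Monotone fun n => {v | (fun k => k < n ∧ v ∈ maj ν (hull ν (B k))) ≠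
          fun k => k < n ∧ u ∈ maj ν (hull ν (B k))} := by
        intro n m hnm v hv h
        apply hv
        funext k
        by_cases hk : k < n
        · have := congrFun h k
          simp only [lt_of_lt_of_le hk hnm, true_and] at this
          rw [this]
        · simp [hk]
      have e2 := (ENNReal.tendsto_toReal (measure_ne_top (ν u) _)).comp
        (tendsto_measure_iUnion_atTop (μ := ν u) e1)
      convert e2 using 2
      · rfl
      · unfold out pr Measure.real
        congr 2
        ext v
        simp only [mem_ofPred_eq, mem_iUnion, ne_eq, he.injective.eq_iff]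
        constructor
        · intro h
          obtain ⟨k, hk⟩ := Function.ne_iff.1 h
          exact ⟨k + 1, fun h' => hk (by simpa using congrFun h' k)⟩
        · rintro ⟨n, hn⟩ h
          apply hn
          funext k
          rw [congrFun h k]
  · have e1 := congrFun (he.injective h) k
    have e2 : z ∈ maj ν (hull ν (B k)) := subset_maj (ha k) (mem_hull h1)
    have e3 : z' ∈ hull ν (B k)ᶜ := mem_hull (by rw [pr_compl (hB k)]; linarith)
    have e4 := H.hull_absorb (hB k).compl e3
    have e5 := pr_add_le_one (ν := ν) (hW k)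
      (H.hull_disjoint (hB k) (hB k).compl disjoint_compl_right) z'
    have e6 : 1 / 2 < pr ν (hull ν (B k)) z' := show z' ∈ maj ν (hull ν (B k)) from e1 ▸ e2
    linarith

end Pool.Agent.Lib.MP_f99ede_an
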