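import Pool.Agent.Lib.MP_f99ede_an.Core2

/-!
Labels for finite kernels of mass at most `1 + 10⁻⁶` dominated by their square.
-/

open MeasureTheory ProbabilityTheory Set Filter

set_option linter.unusedSectionVars false
set_option linter.unusedVariables false

namespace Pool.Agent.Lib.MP_f99ede_an

variable {Ω : Type*} [MeasurableSpace Ω]

lemma exists_markov (K : Kernel Ω Ω) [IsFiniteKernel K] {Z : Set Ω} (hZ : MeasurableSet Z)
    {z0 : Ω} (h0 : z0 ∉ Z) (h0' : K z0 univ ≠ 0) :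
    ∃ ν : Kernel Ω Ω, IsMarkovKernel ν ∧ (∀ u ∉ Z, K u = K u univ • ν u) ∧
      ∀ z, ∃ y ∉ Z, K y univ ≠ 0 ∧ ν z = ν y := by
  classical
  have hR : MeasurableSet {z | z ∉ Z ∧ K z univ ≠ 0} :=
    hZ.compl.inter (K.measurable_coe MeasurableSet.univ (measurableSet_singleton 0)).compl
  set π : Ω → Ω := fun z => if z ∉ Z ∧ K z univ ≠ 0 then z else z0 with hπ
  have hπm : Measurable π := Measurable.ite hR measurable_id measurable_const
  have h1 : ∀ z, π z ∉ Z ∧ K (π z) univ ≠ 0 := by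
    intro z
    simp only [hπ]
    split_ifs with h
    · exact h
    · exact ⟨h0, h0'⟩
  have h2 : ∀ z, π (π z) = π z := fun z => if_pos (h1 z)
  refine ⟨⟨fun z => (K (π z) univ)⁻¹ • K (π z), Measure.measurable_of_measurable_coe _ fun A hA =>
    ((K.measurable_coe MeasurableSet.univ).comp hπm).inv.mul ((K.measurable_coe hA).comp hπm)⟩,
    ⟨fun z => ⟨?_⟩⟩, fun u hu => ?_, fun z => ⟨π z, (h1 z).1, (h1 z).2, ?_⟩⟩
  · exact ENNReal.inv_mul_cancel (h1 z).2 (measure_ne_top _ _)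
  · change K u = K u univ • ((K (π u) univ)⁻¹ • K (π u))
    by_cases h : K u univ = 0
    · rw [h, zero_smul, Measure.measure_univ_eq_zero.1 h]
    · have : π u = u := if_pos ⟨hu, h⟩
      rw [this, smul_smul, ENNReal.mul_inv_cancel h (measure_ne_top _ _), one_smul]
  · change (K (π z) univ)⁻¹ • K (π z) = (K (π (π z)) univ)⁻¹ • K (π (π z))
    rw [h2]

theorem exists_label_K (K : Kernel Ω Ω) [IsFiniteKernel K]
    (hM : ∀ z, (K z).real univ ≤ 1 + 1 / 10 ^ 6) {Z : Set Ω} (hZ : MeasurableSet Z)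
    (hZ0 : ∀ z ∉ Z, K z Z = 0) (hI : ∀ z ∉ Z, K z ≤ (K ∘ₖ K) z)
    {z0 : Ω} (h0 : z0 ∉ Z) (h0' : K z0 univ ≠ 0) (B : ℕ → Set Ω) (hB : ∀ k, MeasurableSet (B k)) :
    ∃ (φ : Ω → ℝ) (Bad : Set Ω), Measurable φ ∧ MeasurableSet Bad ∧
      (∀ z ∉ Z, (K z).real Bad ≤ (K z).real univ / 10) ∧
      (∀ u ∉ Bad, 99 / 100 ≤ (K u).real univ ∧ (K u).real {v | φ v ≠ φ u} ≤ 1 / 40) ∧
      ∀ k, ∀ z ∉ Bad, ∀ z' ∉ Bad, (K z).real (B k)ᶜ ≤ 1 / 200 → (K z').real (B k) ≤ 1 / 200 →
        φ z ≠ φ z' := by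
  obtain ⟨ν, hν, hK, hy⟩ := exists_markov K hZ h0 h0'
  set M : Ω → ℝ := fun u => (K u).real univ with hMdef
  have hM0 : ∀ u, 0 ≤ M u := fun u => measureReal_nonneg
  have hMb : BM M := ⟨(K.measurable_coe MeasurableSet.univ).ennreal_toReal, 1 + 1 / 10 ^ 6,
    fun u => by rw [abs_of_nonneg (hM0 u)]; exact hM u⟩
  have hav : ∀ u ∉ Z, ∀ f : Ω → ℝ, ∫ v, f v ∂K u = M u * av ν f u := by
    intro u hu f
    conv_lhs => rw [hK u hu]
    rw [integral_smul_measure]
    rfl
  have hpr : ∀ u ∉ Z, ∀ A, (K u).real A = M u * pr ν A u := by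
    intro u hu A
    conv_lhs => rw [hK u hu]
    rw [measureReal_ennreal_smul_apply]
    rfl
  have hpos : ∀ y, K y univ ≠ 0 → 0 < M y := fun y h => ENNReal.toReal_pos h (measure_ne_top _ _)
  have hsub : ∀ f, BM f → (∀ u, 0 ≤ f u) → ∀ z, av ν f z ≤ av ν (fun u => M u * av ν f u) z := by
    intro f hf f0 z
    obtain ⟨y, y1, y2, y3⟩ := hy z
    have e1 := integral_mono_measure (hI y y1) (ae_of_all _ f0) (hf.integrable _)
    rw [Kernel.integral_comp (hf.integrable _)] at e1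
    have e2 : ∫ x, ∫ v, f v ∂K x ∂K y = ∫ x, M x * av ν f x ∂K y :=
      integral_congr_ae (by
        filter_upwards [measure_eq_zero_iff_ae_notMem.1 (hZ0 y y1)] with x hx using hav x hx f)
    rw [e2, hav y y1, hav y y1] at e1
    have e3 := le_of_mul_le_mul_left e1 (hpos y y2)
    unfold av at e3 ⊢
    rw [y3]
    exact e3
  have hsub' : ∀ f, BM f → (∀ u, 0 ≤ f u) → ∀ z,
      av ν f z ≤ (1 + 1 / 10 ^ 6) * av ν (av ν f) z := by
    intro f hf f0 z
    rw [← av_mul]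
    exact (hsub f hf f0 z).trans (av_mono (hMb.mul hf.of_av) ((BM.const _).mul hf.of_av)
      (fun u => mul_le_mul_of_nonneg_right (hM u) (av_nonneg f0 u)) z)
  have H : AI ν := by
    intro f hf f0 f1 s
    have hb := BM.of_unit hf f0 f1
    have e1 := hsub' f hb f0 s
    have e2 := hsub' _ ((BM.const 1).sub hb) (fun u => sub_nonneg.2 (f1 u)) s
    have e3 : av ν (fun u => 1 - f u) = fun u => 1 - av ν f u := by
      funext u
      rw [av_sub (BM.const 1) hb, av_const]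
    rw [e3, av_sub (BM.const 1) hb.of_av, av_const] at e2
    have e4 := av_le (ν := ν) hb.of_av (av_le (ν := ν) hb f1) s
    have e5 := av_nonneg (ν := ν) (av_nonneg (ν := ν) f0) s
    rw [abs_le]
    constructor <;> linarith
  obtain ⟨φ, hφ, hst, hsep⟩ := H.exists_label B hB
  have ho : BM (out ν φ) := BM.of_out hφ
  have m1 : MeasurableSet {u | M u < 99 / 100} := measurableSet_lt hMb.1 measurable_const
  have m2 : MeasurableSet {u | 1 / 50 < out ν φ u} := measurableSet_lt measurable_const ho.1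
  refine ⟨φ, (Z ∪ {u | M u < 99 / 100}) ∪ {u | 1 / 50 < out ν φ u}, hφ, (hZ.union m1).union m2,
    fun z hz => ?_, fun u hu => ?_, fun k z hz z' hz' h1 h2 => ?_⟩
  · have e1 := mul_pr_le (ν := ν) ho (fun u => pr_nonneg _ _) m2 (c := 1 / 50)
      (fun u hu => le_of_lt hu) z
    have e2 := mul_pr_le (ν := ν) ((BM.const (1 + 1 / 10 ^ 6)).sub hMb)
      (fun u => sub_nonneg.2 (hM u)) m1 (c := 1 / 100) (fun u hu => by
        have : M u < 99 / 100 := hu
        linarith) z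
    rw [av_sub (BM.const _) hMb, av_const] at e2
    have e3 := hsub _ (BM.const 1) (fun _ => zero_le_one) z
    simp only [av_const, mul_one] at e3
    have e4 := (measureReal_union_le (μ := K z) (Z ∪ {u | M u < 99 / 100})
      {u | 1 / 50 < out ν φ u}).trans (add_le_add (measureReal_union_le _ _) le_rfl)
    have e5 : (K z).real Z = 0 := by rw [Measure.real, hZ0 z hz]; rfl
    rw [e5, hpr z hz {u | M u < 99 / 100}, hpr z hz {u | 1 / 50 < out ν φ u}] at e4
    have e6 := hst z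
    have e7 : M z * pr ν {u | M u < 99 / 100} z ≤ M z * (1 / 20) :=
      mul_le_mul_of_nonneg_left (by norm_num at e2 ⊢; linarith) (hM0 z)
    have e8 : M z * pr ν {u | 1 / 50 < out ν φ u} z ≤ M z * (1 / 20) :=
      mul_le_mul_of_nonneg_left (by linarith) (hM0 z)
    change _ ≤ M z / 10
    linarith
  · simp only [mem_union, mem_ofPred_eq, not_or, not_lt] at hu
    refine ⟨hu.1.2, ?_⟩
    rw [hpr u hu.1.1]
    have e1 : M u * out ν φ u ≤ (1 + 1 / 10 ^ 6) * (1 / 50) :=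
      mul_le_mul (hM u) hu.2 (pr_nonneg _ _) (by norm_num)
    change M u * out ν φ u ≤ _
    norm_num at e1 ⊢
    linarith
  · simp only [mem_union, mem_ofPred_eq, not_or, not_lt] at hz hz'
    rw [hpr z hz.1.1, pr_compl (hB k)] at h1
    rw [hpr z' hz'.1.1] at h2
    have e1 := mul_le_mul_of_nonneg_right hz.1.2 (sub_nonneg.2 (pr_le_one (ν := ν) (B k) z))
    have e2 := mul_le_mul_of_nonneg_right hz'.1.2 (pr_nonneg (ν := ν) (B k) z')
    exact hsep k z z' (by linarith) (by linarith)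

end Pool.Agent.Lib.MP_f99ede_an
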