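import Pool.Agent.Lib.MP_f99ede_an.Core3

/-!
Signs and labels for a pair of singular kernels whose difference is idempotent.
-/

open MeasureTheory ProbabilityTheory Set Filter MeasurableSpace

set_option linter.unusedSectionVars false
set_option linter.unusedVariables false

namespace Pool.Agent.Lib.MP_f99ede_an

variable {Ω : Type*} [MeasurableSpace Ω]

theorem exists_label_sing [CountablyGenerated Ω] (K : Kernel Ω Ω) [IsFiniteKernel K]
    (hM : ∀ z, (K z).real univ ≤ 1 + 1 / 10 ^ 6) {Z : Set Ω} (hZ : MeasurableSet Z)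
    (hZ0 : ∀ z ∉ Z, K z Z = 0) (hI : ∀ z ∉ Z, K z ≤ (K ∘ₖ K) z)
    {z0 : Ω} (h0 : z0 ∉ Z) (h0' : K z0 univ ≠ 0) :
    ∃ (φ : Ω → ℝ) (Bad : Set Ω), Measurable φ ∧ MeasurableSet Bad ∧
      (∀ z ∉ Z, (K z).real Bad ≤ (K z).real univ / 10) ∧
      (∀ u ∉ Bad, 99 / 100 ≤ (K u).real univ ∧ (K u).real {v | φ v ≠ φ u} ≤ 1 / 40) ∧
      ∀ z ∉ Bad, ∀ z' ∉ Bad, ∀ S, MeasurableSet S → K z Sᶜ = 0 → K z' S = 0 → φ z ≠ φ z' := by
  have hd : ∀ (m : Measure Ω) [IsFiniteMeasure m],
      m.MeasureDense (generateSetAlgebra (countableGeneratingSet Ω)) := fun m _ =>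
    Measure.MeasureDense.of_generateFrom_isSetAlgebra_finite m isSetAlgebra_generateSetAlgebra
      (by rw [generateFrom_generateSetAlgebra_eq, generateFrom_countableGeneratingSet])
  obtain ⟨B, hB⟩ := (countable_generateSetAlgebra
    (countable_countableGeneratingSet (α := Ω))).exists_eq_range (hd 0).nonempty
  obtain ⟨φ, Bad, h1, h2, h3, h4, h5⟩ := exists_label_K K hM hZ hZ0 hI h0 h0' B
    fun k => (hd 0).measurable _ (hB ▸ mem_range_self k)
  refine ⟨φ, Bad, h1, h2, h3, h4, fun z hz z' hz' S hS e1 e2 => ?_⟩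
  obtain ⟨t, ht, e3⟩ := (hd (K z + K z')).approx S hS (measure_ne_top _ _) (1 / 200) (by norm_num)
  rw [hB] at ht
  obtain ⟨k, rfl⟩ := ht
  have e4 : ∀ (m : Measure Ω) (A T : Set Ω), m ≤ K z + K z' → m T = 0 →
      A ⊆ T ∪ symmDiff S (B k) → m.real A ≤ 1 / 200 := by
    intro m A T a1 a2 a3
    refine ENNReal.toReal_le_of_le_ofReal (by norm_num) ?_
    refine (measure_mono a3).trans ((measure_union_le _ _).trans ?_)
    rw [a2, zero_add]
    exact (a1 _).trans e3.le
  refine h5 k z hz z' hz' (e4 _ _ _ (Measure.le_add_right le_rfl) e1 fun x hx => ?_)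
    (e4 _ _ _ (Measure.le_add_left le_rfl) e2 fun x hx => ?_)
  · by_cases h : x ∈ S
    · exact Or.inr (Or.inl ⟨h, hx⟩)
    · exact Or.inl h
  · by_cases h : x ∈ S
    · exact Or.inl h
    · exact Or.inr (Or.inr ⟨hx, h⟩)

lemma exists_absorbing (μ : Measure Ω) (a : Kernel Ω Ω)
    (hnull : ∀ N, μ N = 0 → ∀ᵐ s ∂μ, a s N = 0) {Z0 : Set Ω} (h0 : μ Z0 = 0) :
    ∃ Z, Z0 ⊆ Z ∧ MeasurableSet Z ∧ μ Z = 0 ∧ ∀ s ∉ Z, a s Z = 0 := by
  let Y : ℕ → Set Ω := fun n => Nat.rec (toMeasurable μ Z0)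
    (fun _ S => toMeasurable μ {s | ¬ a s S = 0}) n
  have h1 : ∀ n, μ (Y n) = 0 := by
    intro n
    induction n with
    | zero => exact (measure_toMeasurable _).trans h0
    | succ n ih => exact (measure_toMeasurable _).trans (ae_iff.1 (hnull _ ih))
  refine ⟨⋃ n, Y n, (subset_toMeasurable μ Z0).trans (subset_iUnion Y 0),
    MeasurableSet.iUnion fun n => ?_, measure_iUnion_null h1, fun s hs =>
    measure_iUnion_null fun n => ?_⟩
  · cases n <;> exact measurableSet_toMeasurable _ _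
  · by_contra h
    exact hs (mem_iUnion.2 ⟨n + 1, subset_toMeasurable μ _ h⟩)

/-- The two sheeted cover of a signed kernel. -/
noncomputable def dbl (a b : Kernel Ω Ω) : Kernel (Ω × Bool) (Ω × Bool) :=
  ⟨fun z => (a.map (fun u => (u, z.2)) + b.map fun u => (u, !z.2)) z.1,
    measurable_from_prod_countable_left fun c =>
      (a.map (fun u => (u, c)) + b.map fun u => (u, !c)).measurable⟩

lemma dbl_eq (a b : Kernel Ω Ω) (s : Ω) (c : Bool) :
    dbl a b (s, c) = (a s).map (fun u => (u, c)) + (b s).map fun u => (u, !c) := by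
  change (a.map (fun u => (u, c)) + b.map fun u => (u, !c)) s = _
  rw [add_apply, Kernel.map_apply _ measurable_prodMk_right,
    Kernel.map_apply _ measurable_prodMk_right]

lemma dbl_apply (a b : Kernel Ω Ω) (s : Ω) (c : Bool) {A : Set (Ω × Bool)} (hA : MeasurableSet A) :
    dbl a b (s, c) A = a s {u | (u, c) ∈ A} + b s {u | (u, !c) ∈ A} := by
  rw [dbl_eq, Measure.add_apply, Measure.map_apply measurable_prodMk_right hA,
    Measure.map_apply measurable_prodMk_right hA]
  rfl

instance dbl_finite (a b : Kernel Ω Ω) [IsFiniteKernel a] [IsFiniteKernel b] :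
    IsFiniteKernel (dbl a b) :=
  ⟨(a + b).bound, (a + b).bound_lt_top, fun z => by
    rw [dbl_apply a b z.1 z.2 MeasurableSet.univ]
    exact (a + b).measure_le_bound z.1 univ⟩

lemma dbl_real (a b : Kernel Ω Ω) [IsFiniteKernel a] [IsFiniteKernel b] (s : Ω) (c : Bool)
    {A : Set (Ω × Bool)} (hA : MeasurableSet A) :
    (dbl a b (s, c)).real A = (a s).real {u | (u, c) ∈ A} + (b s).real {u | (u, !c) ∈ A} := by
  rw [Measure.real, dbl_apply a b s c hA, ENNReal.toReal_add (measure_ne_top _ _)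
    (measure_ne_top _ _)]
  rfl

lemma dbl_le (a b : Kernel Ω Ω) {s : Ω} (h1 : a s ≤ (a ∘ₖ a + b ∘ₖ b) s)
    (h2 : b s ≤ (b ∘ₖ a + a ∘ₖ b) s) (c : Bool) :
    dbl a b (s, c) ≤ (dbl a b ∘ₖ dbl a b) (s, c) := by
  refine Measure.le_iff.2 fun A hA => ?_
  have m : ∀ c : Bool, MeasurableSet {u | (u, c) ∈ A} := fun c => measurable_prodMk_right hA
  have e1 := h1 {u | (u, c) ∈ A}
  have e2 := h2 {u | (u, !c) ∈ A}
  simp only [add_apply, Measure.add_apply, Kernel.comp_apply' _ _ _ (m _)] at e1 e2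
  rw [Kernel.comp_apply' _ _ _ hA, dbl_apply a b s c hA, dbl_eq, lintegral_add_measure,
    lintegral_map ((dbl a b).measurable_coe hA) measurable_prodMk_right,
    lintegral_map ((dbl a b).measurable_coe hA) measurable_prodMk_right]
  simp only [dbl_apply a b _ _ hA, Bool.not_not, lintegral_add_left (a.measurable_coe (m _))]
  refine (add_le_add e1 e2).trans (le_of_eq ?_)
  ring

lemma integral_near (m : Measure Ω) [IsFiniteMeasure m] {f : Ω → ℝ} (hf : Measurable f)
    (h1 : ∀ u, |f u| ≤ 1) {c : ℝ} (hc : |c| ≤ 1) {U V : Set Ω} (hU : MeasurableSet U)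
    (hV : MeasurableSet V) (h : ∀ u, u ∉ U → u ∉ V → f u = c) :
    |∫ u, f u ∂m - c * m.real univ| ≤ 2 * (m.real U + m.real V) := by
  have e1 : ∫ u, f u ∂m - c * m.real univ = ∫ u, (f u - c) ∂m := by
    rw [integral_sub (BM.integrable ⟨hf, 1, h1⟩ m) (integrable_const c), integral_const, mul_comm]
    rfl
  have e2 := norm_integral_le_of_norm_le (μ := m) (f := fun u => f u - c)
    ((integrable_const (2:ℝ)).indicator (hU.union hV)) (ae_of_all _ fun u => by
      by_cases hu : u ∈ U ∪ V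
      · rw [indicator_of_mem hu]
        exact (abs_sub _ _).trans (by linarith [h1 u])
      · rw [indicator_of_notMem hu, h u (fun h => hu (Or.inl h)) fun h => hu (Or.inr h)]
        simp)
  rw [integral_indicator_const _ (hU.union hV), smul_eq_mul] at e2
  rw [e1]
  exact e2.trans (by linarith [measureReal_union_le (μ := m) U V])

theorem exists_signed_label [CountablyGenerated Ω] (μ : Measure Ω) (a b : Kernel Ω Ω)
    [IsFiniteKernel a] [IsFiniteKernel b]
    (hs : ∀ s, ∃ A B, MeasurableSet A ∧ MeasurableSet B ∧ Disjoint A B ∧ μ A = 0 ∧ μ B = 0 ∧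
      a s Aᶜ = 0 ∧ b s Bᶜ = 0)
    (hM : ∀ s, (a s).real univ + (b s).real univ ≤ 1 + 1 / 10 ^ 6)
    (hnull : ∀ N, μ N = 0 → ∀ᵐ s ∂μ, a s N = 0 ∧ b s N = 0)
    (hI : ∀ᵐ s ∂μ, a s ≤ (a ∘ₖ a + b ∘ₖ b) s ∧ b s ≤ (b ∘ₖ a + a ∘ₖ b) s)
    (hne : ¬ ∀ᵐ s ∂μ, a s = 0 ∧ b s = 0) :
    ∃ (G : Set Ω) (ψ σ : Ω → ℝ), MeasurableSet G ∧ μ G ≠ 0 ∧ Measurable ψ ∧ Measurable σ ∧
      (∀ s, |σ s| ≤ 1) ∧ (∀ y, μ (G ∩ ψ ⁻¹' {y}) = 0) ∧
      ∀ s ∈ G, ∀ h : ℝ → ℝ, Measurable h → (∀ y, |h y| ≤ 1) →
        |σ s * (∫ u, h (ψ u) * σ u ∂a s - ∫ u, h (ψ u) * σ u ∂b s) - h (ψ s)| ≤ 1 / 4 := by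
  classical
  obtain ⟨Z, z1, z2, z3, z4⟩ := exists_absorbing μ (a + b) (fun N hN => by
    filter_upwards [hnull N hN] with s h
    simp [h.1, h.2]) (ae_iff.1 hI)
  have hf : ∀ s c S, MeasurableSet S → dbl a b (s, c) (Prod.fst ⁻¹' S) = a s S + b s S :=
    fun s c S hS => dbl_apply a b s c (measurable_fst hS)
  have hex : ∀ N, μ N = 0 → ∃ s ∉ Z, a s univ + b s univ ≠ 0 ∧ a s N = 0 ∧ b s N = 0 := by
    intro N hN
    by_contra hc
    push Not at hc
    apply hne
    filter_upwards [hnull N hN, measure_eq_zero_iff_ae_notMem.1 z3] with s h1 h2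
    by_contra h3
    refine hc s h2 (fun h => h3 ?_) h1.1 h1.2
    simpa using h
  obtain ⟨s0, s1, s2, -⟩ := hex ∅ measure_empty
  obtain ⟨φ, Bad, hφ, hBad, h3, h4, h5⟩ := exists_label_sing (dbl a b)
    (fun z => by rw [dbl_real a b z.1 z.2 MeasurableSet.univ]; exact hM z.1)
    (measurable_fst z2) (fun z hz => (hf z.1 z.2 Z z2).trans (z4 z.1 hz))
    (fun z hz => by
      have := not_not.1 fun h => hz (z1 h)
      exact dbl_le a b this.1 this.2 z.2)
    (z0 := (s0, true)) s1 (by rw [dbl_apply a b _ _ MeasurableSet.univ]; exact s2)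
  have mφ : ∀ c : Bool, Measurable fun u => φ (u, c) := fun c => hφ.comp measurable_prodMk_right
  have mB : ∀ c : Bool, MeasurableSet {u | (u, c) ∈ Bad} := fun c => measurable_prodMk_right hBad
  have mG : MeasurableSet ({u | (u, true) ∈ Bad} ∪ {u | (u, false) ∈ Bad})ᶜ :=
    ((mB _).union (mB _)).compl
  have hG : ∀ s ∈ ({u | (u, true) ∈ Bad} ∪ {u | (u, false) ∈ Bad})ᶜ, ∀ c, (s, c) ∉ Bad := by
    intro s h c hc
    cases c
    · exact h (Or.inr hc)
    · exact h (Or.inl hc)
  set σ : Ω → ℝ := fun u => if φ (u, true) < φ (u, false) then 1 else -1 with hσ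
  have σ1 : ∀ u, |σ u| = 1 := by
    intro u
    simp only [hσ]
    split_ifs <;> simp
  have σm : Measurable σ :=
    Measurable.ite (measurableSet_lt (mφ _) (mφ _)) measurable_const measurable_const
  refine ⟨_, fun u => min (φ (u, true)) (φ (u, false)), σ, mG, fun h => ?_, (mφ _).min (mφ _), σm,
    fun s => (σ1 s).le, fun y => ?_, fun s hs' h hm h1 => ?_⟩
  · obtain ⟨s, t1, t2, t3, t4⟩ := hex _ h
    have e1 := h3 (s, true) t1
    have e2 := h3 (s, false) t1
    rw [dbl_real a b _ _ hBad, dbl_real a b _ _ MeasurableSet.univ] at e1 e2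
    have e3 : ∀ (m : Measure Ω) [IsFiniteMeasure m],
        m ({u | (u, true) ∈ Bad} ∪ {u | (u, false) ∈ Bad})ᶜ = 0 →
        m.real univ ≤ m.real {u | (u, true) ∈ Bad} + m.real {u | (u, false) ∈ Bad} := by
      intro m _ hm
      rw [← measureReal_add_measureReal_compl (μ := m) ((mB true).union (mB false)),
        (measureReal_eq_zero_iff (measure_ne_top _ _)).2 hm]
      simpa using measureReal_union_le _ _
    have e4 := e3 _ t3
    have e5 := e3 _ t4
    have e6 := ENNReal.toReal_pos t2 (by finiteness)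
    rw [ENNReal.toReal_add (measure_ne_top _ _) (measure_ne_top _ _)] at e6
    simp only [Bool.not_true, Bool.not_false, mem_univ, ofPred_true] at e1 e2
    change 0 < (a s).real univ + (b s).real univ at e6
    linarith
  · by_contra hc
    obtain ⟨s, t1, t2⟩ := nonempty_of_measure_ne_zero hc
    obtain ⟨A, B, a1, a2, -, a3, a4, a5, a6⟩ := hs s
    obtain ⟨s', ⟨t3, t4⟩, t5, t6⟩ := Measure.exists_mem_of_measure_ne_zero_of_ae hc
      (ae_restrict_of_ae (hnull _ (measure_union_null a3 a4)))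
    have e : ∀ c c', φ (s, c) ≠ φ (s', c') := fun c c' =>
      h5 _ (hG s t1 c) _ (hG s' t3 c') (Prod.fst ⁻¹' (A ∪ B)) (measurable_fst (a1.union a2))
        (by
          rw [← preimage_compl, hf _ _ _ (a1.union a2).compl,
            measure_mono_null (compl_subset_compl.2 subset_union_left) a5,
            measure_mono_null (compl_subset_compl.2 subset_union_right) a6, add_zero])
        (by rw [hf _ _ _ (a1.union a2), t5, t6, add_zero])
    have e1 : min (φ (s, true)) (φ (s, false)) = min (φ (s', true)) (φ (s', false)) :=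
      (mem_singleton_iff.1 t2).trans (mem_singleton_iff.1 t4).symm
    rcases min_choice (φ (s, true)) (φ (s, false)) with h | h <;>
      rcases min_choice (φ (s', true)) (φ (s', false)) with h' | h' <;>
      exact e _ _ (h.symm.trans (e1.trans h'))
  · obtain ⟨A, B, a1, a2, a3, -, -, a5, a6⟩ := hs s
    have mS : MeasurableSet {z : Ω × Bool | z.1 ∈ A ↔ z.2 = true} :=
      MeasurableSet.iff (measurable_fst a1) (measurable_snd (measurableSet_singleton true))
    have hne' : φ (s, true) ≠ φ (s, false) := by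
      refine h5 _ (hG s hs' _) _ (hG s hs' _) _ mS ?_ ?_
      · rw [dbl_apply a b _ _ mS.compl, measure_mono_null (fun u hu => by simpa using hu) a5,
          measure_mono_null (fun u hu => a3.subset_compl_right (by simpa using hu)) a6, add_zero]
      · rw [dbl_apply a b _ _ mS, measure_mono_null (fun u hu => by simpa using hu) a5,
          measure_mono_null (fun u hu => a3.subset_compl_right (by simpa using hu)) a6, add_zero]
    have mN : ∀ r, MeasurableSet {v | φ v ≠ r} := fun r => (hφ (measurableSet_singleton r)).compl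
    have mN' : ∀ (c : Bool) r, MeasurableSet {u | φ (u, c) ≠ r} := fun c r =>
      (mφ c (measurableSet_singleton r)).compl
    obtain ⟨e1, e2⟩ := h4 _ (hG s hs' true)
    have e3 := (h4 _ (hG s hs' false)).2
    rw [dbl_real a b _ _ (mN _)] at e2 e3
    rw [dbl_real a b _ _ MeasurableSet.univ] at e1
    simp only [Bool.not_true, Bool.not_false, mem_univ, ofPred_true, mem_ofPred_eq] at e1 e2 e3
    have fm : Measurable fun u => σ s * (h (min (φ (u, true)) (φ (u, false))) * σ u) :=
      ((hm.comp ((mφ _).min (mφ _))).mul σm).const_mul _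
    have f1 : ∀ u, |σ s * (h (min (φ (u, true)) (φ (u, false))) * σ u)| ≤ 1 := fun u => by
      rw [abs_mul, abs_mul, σ1, σ1, one_mul, mul_one]
      exact h1 _
    have e4 := integral_near (a s) fm f1 (h1 (min (φ (s, true)) (φ (s, false))))
      (mN' true (φ (s, true))) (mN' false (φ (s, false))) (fun u u1 u2 => by
        simp only [mem_ofPred_eq, not_not] at u1 u2
        simp only [hσ, u1, u2]
        split_ifs <;> ring)
    have e5 := integral_near (b s) fm f1 (c := -h (min (φ (s, true)) (φ (s, false))))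
      (by rw [abs_neg]; exact h1 _)
      (mN' false (φ (s, true))) (mN' true (φ (s, false))) (fun u u1 u2 => by
        simp only [mem_ofPred_eq, not_not] at u1 u2
        simp only [hσ, u1, u2, min_comm (φ (s, false))]
        rcases lt_or_gt_of_ne hne' with h | h
        · rw [if_pos h, if_neg (not_lt.2 h.le)]
          ring
        · rw [if_pos h, if_neg (not_lt.2 h.le)]
          ring)
    rw [integral_const_mul] at e4 e5
    have e6 := hM s
    have e7 : |h (min (φ (s, true)) (φ (s, false))) * ((a s).real univ + (b s).real univ - 1)| ≤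
        1 / 100 := by
      rw [abs_mul]
      refine (mul_le_of_le_one_left (abs_nonneg _) (h1 _)).trans (abs_le.2 ⟨by linarith, ?_⟩)
      norm_num at e6 ⊢
      linarith
    rw [abs_le] at e4 e5 e7 ⊢
    constructor <;> linarith [e4.1, e4.2, e5.1, e5.2, e7.1, e7.2]

end Pool.Agent.Lib.MP_f99ede_an
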