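import Pool.Agent.Lib.MP_f99ede_an.KernelRepA

/-!
Kernel representation of bounded operators on `L₁(μ)`.
-/

open MeasureTheory ProbabilityTheory Set Filter Topology
open scoped ENNReal

namespace Pool.Agent.Lib.MP_f99ede_an

theorem kr_dense (m : Measure ℝ) [IsFiniteMeasure m] (Φ : (ℝ → ℝ) → ℝ) {C : ℝ} {h : ℝ → ℝ}
    (hh : Integrable h m) (h0 : ∀ g, Continuous g → HasCompactSupport g → Φ g = 0)
    (h1 : ∀ g, Continuous g → HasCompactSupport g → |Φ h - Φ g| ≤ C * ∫ u, ‖h u - g u‖ ∂m) :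
    Φ h = 0 := by
  refine abs_nonpos_iff.1 (le_of_forall_pos_le_add fun ε hε => ?_)
  obtain ⟨g, gc, hg, gk, -⟩ := hh.exists_hasCompactSupport_integral_sub_le
    (ε := ε / (|C| + 1)) (by positivity)
  have h2 := h1 g gk gc
  rw [h0 g gk gc, sub_zero] at h2
  have h3 : 0 ≤ ∫ u, ‖h u - g u‖ ∂m := integral_nonneg fun _ => norm_nonneg _
  rw [le_div_iff₀ (by positivity)] at hg
  nlinarith [le_abs_self C]

theorem kr_int_fst {μ : Measure ℝ} {Λ : Measure (ℝ × ℝ)} {c : ℝ≥0∞} (hc : c ≠ ∞)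
    (hΛ : Λ.fst ≤ c • μ) {x : ℝ → ℝ} (hx : Integrable x μ) : Integrable (fun p => x p.1) Λ :=
  (hx.of_measure_le_smul hc hΛ).comp_measurable measurable_fst

theorem kr_int_mul {μ : Measure ℝ} {Λ : Measure (ℝ × ℝ)} {c : ℝ≥0∞} (hc : c ≠ ∞)
    (hΛ : Λ.fst ≤ c • μ) {x : ℝ → ℝ} (hx : Integrable x μ) {h : ℝ → ℝ} (hm : Measurable h) {C : ℝ}
    (hC : ∀ u, |h u| ≤ C) : Integrable (fun p : ℝ × ℝ => x p.1 * h p.2) Λ :=
  (kr_int_fst hc hΛ hx).mul_bdd (c := C) (hm.comp measurable_snd).aestronglyMeasurable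
    (ae_of_all _ fun _ => hC _)

theorem kr_lipA {μ : Measure ℝ} {Λ : Measure (ℝ × ℝ)} {c : ℝ} (hc : 0 ≤ c)
    (hΛ : Λ.fst ≤ ENNReal.ofReal c • μ) {x y : ℝ → ℝ} (hx : Integrable x μ) (hy : Integrable y μ)
    {h : ℝ → ℝ} (hm : Measurable h) {C : ℝ} (hC : ∀ u, |h u| ≤ C) :
    |∫ p, x p.1 * h p.2 ∂Λ - ∫ p, y p.1 * h p.2 ∂Λ| ≤ C * c * ∫ s, ‖x s - y s‖ ∂μ := by
  have h0 := (abs_nonneg _).trans (hC 0)
  have hi : Integrable (fun s => ‖x s - y s‖) μ := (hx.sub hy).norm
  rw [← integral_sub (kr_int_mul ENNReal.ofReal_ne_top hΛ hx hm hC)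
    (kr_int_mul ENNReal.ofReal_ne_top hΛ hy hm hC), ← Real.norm_eq_abs]
  refine (norm_integral_le_of_norm_le (g := fun p : ℝ × ℝ => C * ‖x p.1 - y p.1‖)
    ((kr_int_fst ENNReal.ofReal_ne_top hΛ hi).const_mul C) (ae_of_all _ fun p => ?_)).trans ?_
  · rw [← sub_mul, norm_mul, mul_comm]
    exact mul_le_mul_of_nonneg_right (hC _) (norm_nonneg _)
  · rw [integral_const_mul, mul_assoc]
    refine mul_le_mul_of_nonneg_left ?_ h0
    have h1 := integral_mono_measure (f := fun s => ‖x s - y s‖) hΛ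
      (ae_of_all _ fun _ => norm_nonneg _) (hi.smul_measure ENNReal.ofReal_ne_top)
    rw [integral_smul_measure, ENNReal.toReal_ofReal hc, Measure.fst, integral_map
      measurable_fst.aemeasurable (hi.of_measure_le_smul ENNReal.ofReal_ne_top hΛ).1] at h1
    exact h1

theorem kr_lipB {α : Type*} [MeasurableSpace α] {ρ : Measure α} {a π : α → ℝ} (ha : Integrable a ρ)
    (hπ : Measurable π) {m : Measure ℝ} [IsFiniteMeasure m]
    (hm : (ρ.withDensity fun p => ‖a p‖ₑ).map π ≤ m) {h g : ℝ → ℝ} (hh : Measurable h)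
    (hg : Measurable g) {C C' : ℝ} (hC : ∀ u, |h u| ≤ C) (hC' : ∀ u, |g u| ≤ C') :
    |∫ p, a p * h (π p) ∂ρ - ∫ p, a p * g (π p) ∂ρ| ≤ ∫ u, ‖h u - g u‖ ∂m := by
  have h1 := integral_mono_measure (f := fun u => ‖h u - g u‖) hm
    (ae_of_all _ fun _ => norm_nonneg _) (Integrable.of_bound (by fun_prop) (C + C')
      (ae_of_all _ fun u => by
        rw [norm_norm]
        exact (norm_sub_le _ _).trans (add_le_add (hC u) (hC' u))))
  rw [integral_map hπ.aemeasurable (by fun_prop), integral_withDensity_eq_integral_toReal_smul₀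
    ha.1.enorm (by simp)] at h1
  rw [← integral_sub (ha.mul_bdd (g := fun p => h (π p)) (c := C) (hh.comp hπ).aestronglyMeasurable
    (ae_of_all _ fun _ => hC _)) (ha.mul_bdd (g := fun p => g (π p)) (c := C')
    (hg.comp hπ).aestronglyMeasurable (ae_of_all _ fun _ => hC' _)), ← Real.norm_eq_abs]
  refine (norm_integral_le_integral_norm _).trans (le_of_eq_of_le ?_ h1)
  congr 1
  funext p
  simp only [← mul_sub, norm_mul, toReal_enorm, smul_eq_mul]

theorem kr_measures (μ : Measure ℝ) [IsFiniteMeasure μ] (D : Lp ℝ 1 μ →L[ℝ] Lp ℝ 1 μ) :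
    ∃ Λ₁ Λ₂ : Measure (ℝ × ℝ), (Λ₁ + Λ₂).fst ≤ ENNReal.ofReal ‖D‖ • μ ∧
    ∀ (x : Lp ℝ 1 μ) (h : ℝ → ℝ) (C : ℝ), Measurable h → (∀ u, |h u| ≤ C) →
      ∫ p, x p.1 * h p.2 ∂Λ₁ - ∫ p, x p.1 * h p.2 ∂Λ₂ = ∫ u, h u * D x u ∂μ := by
  obtain ⟨Λ₁, Λ₂, hΛ, h⟩ := kr_limit D
  have b1 : Λ₁.fst ≤ ENNReal.ofReal ‖D‖ • μ :=
    (Measure.fst_mono (Measure.le_add_right le_rfl)).trans hΛ
  have b2 : Λ₂.fst ≤ ENNReal.ofReal ‖D‖ • μ :=
    (Measure.fst_mono (Measure.le_add_left le_rfl)).trans hΛ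
  have hA : ∀ (x : Lp ℝ 1 μ) (g : ℝ → ℝ), Continuous g → HasCompactSupport g →
      ∫ p, x p.1 * g p.2 ∂Λ₁ - ∫ p, x p.1 * g p.2 ∂Λ₂ - ∫ u, g u * D x u ∂μ = 0 := by
    intro x g hg hg'
    obtain ⟨C, hC⟩ := hg.bounded_above_of_compact_support hg'
    obtain ⟨T, hT⟩ := kr_fun (μ := μ) hg.measurable hC
    have xi := L1.integrable_coeFn x
    classical
    have := kr_dense μ (fun f => ∫ p, f p.1 * g p.2 ∂Λ₁ - ∫ p, f p.1 * g p.2 ∂Λ₂ -
      if hi : Integrable f μ then T (D (hi.toL1 f)) else 0)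
      (C := C * ‖D‖ + C * ‖D‖ + ‖T.comp D‖) xi (fun f hf hf' => ?_) fun f hf hf' => ?_
    · rwa [dif_pos xi, Integrable.toL1_coeFn, hT] at this
    · have fi : Integrable f μ := hf.integrable_of_hasCompactSupport hf'
      simp only [dif_pos fi, hT, h f g hf hg hf' hg' fi, sub_self]
    · have fi : Integrable f μ := hf.integrable_of_hasCompactSupport hf'
      have a1 := abs_le.1 (kr_lipA (norm_nonneg D) b1 xi fi hg.measurable hC)
      have a2 := abs_le.1 (kr_lipA (norm_nonneg D) b2 xi fi hg.measurable hC)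
      have a3 := (T.comp D).le_opNorm (xi.toL1 x - fi.toL1 f)
      rw [map_sub, ← Integrable.toL1_sub, L1.norm_of_fun_eq_integral_norm] at a3
      have a4 := abs_le.1 a3
      simp only [dif_pos fi, dif_pos xi, ContinuousLinearMap.comp_apply, Pi.sub_apply] at a4 ⊢
      rw [abs_le]
      constructor <;> linarith [a1.1, a1.2, a2.1, a2.2, a4.1, a4.2]
  refine ⟨Λ₁, Λ₂, hΛ, fun x h C hm hC => sub_eq_zero.1 ?_⟩
  have i1 := kr_int_fst ENNReal.ofReal_ne_top b1 (L1.integrable_coeFn x)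
  have i2 := kr_int_fst ENNReal.ofReal_ne_top b2 (L1.integrable_coeFn x)
  have i3 := L1.integrable_coeFn (D x)
  have := isFiniteMeasure_withDensity i1.2.ne
  have := isFiniteMeasure_withDensity i2.2.ne
  have := isFiniteMeasure_withDensity i3.2.ne
  refine kr_dense ((Λ₁.withDensity fun p => ‖x p.1‖ₑ).map Prod.snd +
    (Λ₂.withDensity fun p => ‖x p.1‖ₑ).map Prod.snd + (μ.withDensity fun p => ‖D x p‖ₑ).map id)
    (fun g => ∫ p, x p.1 * g p.2 ∂Λ₁ - ∫ p, x p.1 * g p.2 ∂Λ₂ - ∫ u, g u * D x u ∂μ) (C := 3)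
    (Integrable.of_bound hm.aestronglyMeasurable C (ae_of_all _ hC)) (hA x) fun g hg hg' => ?_
  obtain ⟨C', hC'⟩ := hg.bounded_above_of_compact_support hg'
  set m := (Λ₁.withDensity fun p => ‖x p.1‖ₑ).map Prod.snd +
    (Λ₂.withDensity fun p => ‖x p.1‖ₑ).map Prod.snd + (μ.withDensity fun p => ‖D x p‖ₑ).map id
  have a1 := abs_le.1 (kr_lipB i1 measurable_snd (m := m)
    (Measure.le_add_right (Measure.le_add_right le_rfl)) hm hg.measurable hC hC')
  have a2 := abs_le.1 (kr_lipB i2 measurable_snd (m := m)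
    (Measure.le_add_right (Measure.le_add_left le_rfl)) hm hg.measurable hC hC')
  have a3 := abs_le.1 (kr_lipB i3 measurable_id (m := m) (Measure.le_add_left le_rfl) hm
    hg.measurable hC hC')
  simp only [id, mul_comm (D x _)] at a3
  rw [abs_le]
  constructor <;> linarith [a1.1, a1.2, a2.1, a2.2, a3.1, a3.2]

theorem kr_jordan {α : Type*} [MeasurableSpace α] (Λ₁ Λ₂ : Measure α) [IsFiniteMeasure Λ₁]
    [IsFiniteMeasure Λ₂] : ∃ (Γ : Set α) (Λ : Measure α), MeasurableSet Γ ∧ Λ ≤ Λ₁ + Λ₂ ∧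
      Λ₁ + Λ.restrict Γᶜ = Λ₂ + Λ.restrict Γ := by
  obtain ⟨Γ, hΓ, h1, h2⟩ := hahn_decomposition Λ₁ Λ₂
  have l1 : Λ₂.restrict Γ ≤ Λ₁.restrict Γ := Measure.le_iff.2 fun t ht => by
    rw [Measure.restrict_apply ht, Measure.restrict_apply ht]
    exact h1 _ (ht.inter hΓ) inter_subset_right
  have l2 : Λ₁.restrict Γᶜ ≤ Λ₂.restrict Γᶜ := Measure.le_iff.2 fun t ht => by
    rw [Measure.restrict_apply ht, Measure.restrict_apply ht]
    exact h2 _ (ht.inter hΓ.compl) inter_subset_right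
  have z1 : (Λ₁.restrict Γ - Λ₂.restrict Γ) Γᶜ = 0 := le_zero_iff.1 ((Measure.sub_le _).trans_eq (by
    rw [Measure.restrict_apply hΓ.compl, compl_inter_self, measure_empty]))
  have z2 : (Λ₂.restrict Γᶜ - Λ₁.restrict Γᶜ) Γ = 0 := le_zero_iff.1 ((Measure.sub_le _).trans_eq (by
    rw [Measure.restrict_apply hΓ, inter_compl_self, measure_empty]))
  refine ⟨Γ, (Λ₁.restrict Γ - Λ₂.restrict Γ) + (Λ₂.restrict Γᶜ - Λ₁.restrict Γᶜ), hΓ,
    add_le_add (Measure.sub_le.trans Measure.restrict_le_self)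
      (Measure.sub_le.trans Measure.restrict_le_self), ?_⟩
  rw [Measure.restrict_add, Measure.restrict_add, Measure.restrict_eq_zero.2 z1,
    Measure.restrict_eq_zero.2 z2, Measure.restrict_eq_self_of_ae_mem (s := Γ) z1,
    Measure.restrict_eq_self_of_ae_mem (s := Γᶜ) (measure_eq_zero_iff_ae_notMem.1 z2), zero_add,
    add_zero]
  have e1 := Measure.sub_add_cancel_of_le l1
  have e2 := Measure.sub_add_cancel_of_le l2
  have e3 := Λ₁.restrict_add_restrict_compl hΓ
  have e4 := Λ₂.restrict_add_restrict_compl hΓ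
  generalize Λ₁.restrict Γ - Λ₂.restrict Γ = P at *
  generalize Λ₂.restrict Γᶜ - Λ₁.restrict Γᶜ = Q at *
  calc Λ₁ + Q = P + Λ₂.restrict Γ + Λ₁.restrict Γᶜ + Q := by rw [e1, e3]
    _ = Λ₂.restrict Γ + (Q + Λ₁.restrict Γᶜ) + P := by abel
    _ = _ := by rw [e2, e4]

/-- TASK KR -/
theorem exists_kernel (μ : Measure ℝ) [IsFiniteMeasure μ] (D : Lp ℝ 1 μ →L[ℝ] Lp ℝ 1 μ) :
    ∃ (κp κm : Kernel ℝ ℝ) (Γ : Set (ℝ × ℝ)), IsFiniteKernel κp ∧ IsFiniteKernel κm ∧
      MeasurableSet Γ ∧ (∀ s, κp s {u | (s, u) ∉ Γ} = 0) ∧ (∀ s, κm s {u | (s, u) ∈ Γ} = 0) ∧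
      (∀ s, (κp s).real univ + (κm s).real univ ≤ ‖D‖) ∧
      (∀ N, μ N = 0 → ∀ᵐ s ∂μ, κp s N = 0 ∧ κm s N = 0) ∧
      ∀ (x : Lp ℝ 1 μ) (h : ℝ → ℝ) (C : ℝ), Measurable h → (∀ u, |h u| ≤ C) →
        ∫ u, h u * D x u ∂μ = ∫ s, x s * (∫ u, h u ∂κp s - ∫ u, h u ∂κm s) ∂μ := by
  obtain ⟨Λ₁, Λ₂, hΛ, hI⟩ := kr_measures μ D
  set c := ENNReal.ofReal ‖D‖ with hc
  have hct : c ≠ ∞ := ENNReal.ofReal_ne_top
  have : IsFiniteMeasure (c • μ) := μ.smul_finite hct
  have : IsFiniteMeasure (Λ₁ + Λ₂) := ⟨by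
    rw [← Measure.fst_univ]
    exact (hΛ _).trans_lt (measure_lt_top _ _)⟩
  have : IsFiniteMeasure Λ₁ := isFiniteMeasure_of_le (Λ₁ + Λ₂) (Measure.le_add_right le_rfl)
  have : IsFiniteMeasure Λ₂ := isFiniteMeasure_of_le (Λ₁ + Λ₂) (Measure.le_add_left le_rfl)
  obtain ⟨Γ, Λ, hΓ, hle, hJ⟩ := kr_jordan Λ₁ Λ₂
  have : IsFiniteMeasure Λ := isFiniteMeasure_of_le _ hle
  have b0 : Λ.fst ≤ c • μ := (Measure.fst_mono hle).trans hΛ
  have hac : Λ.fst ≪ μ := (Measure.absolutelyContinuous_of_le b0).trans Measure.smul_absolutelyContinuous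
  let w : ℝ → ℝ≥0∞ := fun s => min (Λ.fst.rnDeriv μ s) c
  have wm : Measurable w := (Measure.measurable_rnDeriv _ _).min measurable_const
  have hw : μ.withDensity w = Λ.fst := by
    conv_rhs => rw [← Measure.withDensity_rnDeriv_eq _ _ hac]
    refine withDensity_congr_ae ?_
    have : ∀ᵐ s ∂μ, Λ.fst.rnDeriv μ s ≤ c :=
      ae_le_of_forall_setLIntegral_le_of_sigmaFinite (Measure.measurable_rnDeriv _ _)
        fun s hs _ => by
          rw [Measure.setLIntegral_rnDeriv hac, setLIntegral_const]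
          exact b0 s
    filter_upwards [this] with s hs
    exact min_eq_left hs
  let κ : Set (ℝ × ℝ) → Kernel ℝ ℝ := fun S =>
    Λ.condKernel.withDensity fun s u => S.indicator (fun p => w p.1) (s, u)
  have m0 : ∀ S, MeasurableSet S → Measurable (Function.uncurry fun s u : ℝ =>
      S.indicator (fun p : ℝ × ℝ => w p.1) (s, u)) := fun S hS =>
    (wm.comp measurable_fst).indicator hS
  have f0 : ∀ S, IsFiniteKernel (κ S) := fun S =>
    Kernel.isFiniteKernel_withDensity_of_bounded _ hct fun s u =>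
      (indicator_le_self _ _ _).trans (min_le_right _ _)
  have ap : ∀ S, MeasurableSet S → ∀ s t, MeasurableSet t →
      κ S s t = w s * Λ.condKernel s (Prod.mk s ⁻¹' S ∩ t) := fun S hS s t ht => by
    rw [Kernel.withDensity_apply' _ (m0 S hS), ← setLIntegral_const,
      ← Measure.restrict_restrict (measurable_prodMk_left hS),
      ← lintegral_indicator (measurable_prodMk_left hS)]
    rfl
  have cp : ∀ S, MeasurableSet S → μ ⊗ₘ κ S = Λ.restrict S := fun S hS => by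
    have := f0 S
    ext t ht
    conv_rhs => rw [← Λ.disintegrate Λ.condKernel, ← hw]
    rw [Measure.restrict_apply ht, Measure.compProd_apply ht, Measure.compProd_apply (ht.inter hS),
      lintegral_withDensity_eq_lintegral_mul _ wm
        (Kernel.measurable_kernel_prodMk_left (ht.inter hS))]
    congr 1
    funext s
    rw [ap S hS s _ (measurable_prodMk_left ht), Pi.mul_apply, preimage_inter, inter_comm]
  have iS : ∀ S, MeasurableSet S → ∀ (x : Lp ℝ 1 μ) (h : ℝ → ℝ) (C : ℝ), Measurable h →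
      (∀ u, |h u| ≤ C) → Integrable (fun s => x s * ∫ u, h u ∂κ S s) μ ∧
        ∫ p, x p.1 * h p.2 ∂Λ.restrict S = ∫ s, x s * ∫ u, h u ∂κ S s ∂μ := by
    intro S hS x h C hm hC
    have := f0 S
    refine ⟨(L1.integrable_coeFn x).mul_bdd (c := C * ((κ S).bound).toReal)
      (hm.stronglyMeasurable.integral_kernel).aestronglyMeasurable (ae_of_all _ fun s => ?_), ?_⟩
    · refine (norm_integral_le_of_norm_le_const (ae_of_all _ hC)).trans ?_
      exact mul_le_mul_of_nonneg_left (ENNReal.toReal_mono (κ S).bound_ne_top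
        ((κ S).measure_le_bound s univ)) ((abs_nonneg _).trans (hC 0))
    · have := (kr_int_mul hct b0 (L1.integrable_coeFn x) hm hC).restrict (s := S)
      rw [← cp S hS] at this ⊢
      rw [Measure.integral_compProd this]
      simp only [integral_const_mul]
  refine ⟨κ Γ, κ Γᶜ, Γ, f0 _, f0 _, hΓ, fun s => ?_, fun s => ?_, fun s => ?_, fun N hN => ?_,
    fun x h C hm hC => ?_⟩
  · refine (ap Γ hΓ s _ (measurable_prodMk_left hΓ.compl)).trans ?_
    rw [← preimage_inter, inter_compl_self, preimage_empty, measure_empty, mul_zero]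
  · refine (ap Γᶜ hΓ.compl s _ (measurable_prodMk_left hΓ)).trans ?_
    rw [← preimage_inter, compl_inter_self, preimage_empty, measure_empty, mul_zero]
  · have := f0 Γ
    have := f0 Γᶜ
    rw [Measure.real, Measure.real, ← ENNReal.toReal_add (measure_ne_top _ _) (measure_ne_top _ _),
      ap Γ hΓ s _ MeasurableSet.univ, ap Γᶜ hΓ.compl s _ MeasurableSet.univ, ← mul_add, inter_univ,
      inter_univ, preimage_compl, measure_add_measure_compl (measurable_prodMk_left hΓ),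
      measure_univ, mul_one]
    exact ENNReal.toReal_le_of_le_ofReal (norm_nonneg _) (min_le_right _ _)
  · obtain ⟨N', hNN, hN', hN0⟩ := exists_measurable_superset_of_null hN
    have hT : MeasurableSet ((univ : Set ℝ) ×ˢ N') := MeasurableSet.univ.prod hN'
    have e1 : Λ₁.restrict (univ ×ˢ N') = Λ₂.restrict (univ ×ˢ N') := by
      refine Measure.ext_prod fun {A B} hA hB => ?_
      have h1 := hI (indicatorConstLp 1 hA (measure_ne_top μ _) 1) ((B ∩ N').indicator 1) 1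
        (measurable_one.indicator (hB.inter hN')) fun u => by
          rw [indicator]
          split_ifs <;> simp
      have h2 : ∀ ρ : Measure (ℝ × ℝ), ρ.fst ≤ c • μ → ∫ p, (indicatorConstLp 1 hA
          (measure_ne_top μ _) (1 : ℝ)) p.1 * (B ∩ N').indicator 1 p.2 ∂ρ =
          ρ.real (A ×ˢ (B ∩ N')) := fun ρ hρ => by
        rw [← integral_indicator_one (hA.prod (hB.inter hN'))]
        refine integral_congr_ae ?_
        filter_upwards [ae_of_ae_map measurable_fst.aemeasurable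
          (((Measure.absolutelyContinuous_of_le hρ).trans Measure.smul_absolutelyContinuous).ae_le
            (indicatorConstLp_coeFn (p := 1) (hs := hA) (hμs := measure_ne_top μ _) (c := (1 : ℝ))))]
          with p hp
        rw [hp, indicator_prod_one]
        rfl
      have h3 : ∫ u, (B ∩ N').indicator 1 u * D (indicatorConstLp 1 hA (measure_ne_top μ _) 1) u ∂μ
          = 0 := by
        refine integral_eq_zero_of_ae ?_
        filter_upwards [measure_eq_zero_iff_ae_notMem.1 hN0] with u hu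
        simp [hu]
      rw [h2 _ ((Measure.fst_mono (Measure.le_add_right le_rfl)).trans hΛ),
        h2 _ ((Measure.fst_mono (Measure.le_add_left le_rfl)).trans hΛ), h3, sub_eq_zero] at h1
      rw [Measure.restrict_apply (hA.prod hB), Measure.restrict_apply (hA.prod hB), prod_inter_prod,
        inter_univ]
      exact (measureReal_eq_measureReal_iff (measure_ne_top _ _) (measure_ne_top _ _)).1 h1
    have e2 : ∀ S, MeasurableSet S → Λ₁ (S ∩ univ ×ˢ N') = Λ₂ (S ∩ univ ×ˢ N') := fun S hS => by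
      rw [← Measure.restrict_apply hS, ← Measure.restrict_apply hS, e1]
    have e3 : ∀ S, MeasurableSet S → Λ (S ∩ univ ×ˢ N') = 0 → ∀ᵐ s ∂μ, κ S s N = 0 := by
      intro S hS h0
      have := f0 S
      rw [inter_comm, ← Measure.restrict_apply hT, ← cp S hS,
        Measure.compProd_apply_prod MeasurableSet.univ hN', Measure.restrict_univ,
        lintegral_eq_zero_iff ((κ S).measurable_coe hN')] at h0
      filter_upwards [h0] with s hs
      exact measure_mono_null hNN hs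
    have e4 := congrArg (fun ρ : Measure (ℝ × ℝ) => ρ (Γ ∩ univ ×ˢ N')) hJ
    have e5 := congrArg (fun ρ : Measure (ℝ × ℝ) => ρ (Γᶜ ∩ univ ×ˢ N')) hJ
    simp only [Measure.add_apply, Measure.restrict_apply (hΓ.inter hT),
      Measure.restrict_apply (hΓ.compl.inter hT), e2 _ hΓ, e2 _ hΓ.compl,
      ENNReal.add_right_inj (measure_ne_top _ _), inter_right_comm _ (univ ×ˢ N'), inter_self,
      inter_compl_self, compl_inter_self, empty_inter, measure_empty] at e4 e5
    exact (e3 Γ hΓ e4.symm).and (e3 Γᶜ hΓ.compl e5)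
  · obtain ⟨i1, e1⟩ := iS Γ hΓ x h C hm hC
    obtain ⟨i2, e2⟩ := iS Γᶜ hΓ.compl x h C hm hC
    simp only [mul_sub]
    rw [integral_sub i1 i2, ← e1, ← e2, ← hI x h C hm hC, sub_eq_sub_iff_add_eq_add]
    have j := fun ρ hρ => kr_int_mul (Λ := ρ) hct hρ (L1.integrable_coeFn x) hm hC
    rw [← integral_add_measure (j _ ((Measure.fst_mono (Measure.le_add_right le_rfl)).trans hΛ))
      (j _ b0).restrict, hJ, add_comm, integral_add_measure (j _ b0).restrict
      (j _ ((Measure.fst_mono (Measure.le_add_left le_rfl)).trans hΛ))]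

end Pool.Agent.Lib.MP_f99ede_an
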