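import Pool.Agent.Lib.MP_f99ede_an.Defs
import Pool.Agent.Lib.MP_86b0a6_an.Iso

/-!
Composition and push-forward operators between spaces of integrable functions.
-/

open MeasureTheory ProbabilityTheory Set
open scoped NNReal

namespace Pool.Agent.Lib.MP_f99ede_an

section

variable {Ω Y : Type*} [MeasurableSpace Ω] [MeasurableSpace Y]

lemma pull_gen (μ : Measure Ω) {ν : Measure Y} {c : ℝ≥0} {G : Set Ω} (hG : MeasurableSet G)
    {ψ : Ω → Y} (hψ : Measurable ψ) (h : (μ.restrict G).map ψ = c • ν)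
    {σ : Ω → ℝ} (hσ : Measurable σ) (hσ1 : ∀ s, |σ s| ≤ 1) :
    ∃ J : Lp ℝ 1 ν →L[ℝ] Lp ℝ 1 μ, ∀ g, J g =ᵐ[μ] G.indicator fun s => σ s * g (ψ s) := by
  have h0 : ∀ g : Lp ℝ 1 ν, Integrable g ((μ.restrict G).map ψ) := fun g =>
    h ▸ (L1.integrable_coeFn g).smul_measure_nnreal
  have h1 : ∀ g : Lp ℝ 1 ν, Integrable (G.indicator fun s => σ s * g (ψ s)) μ := fun g =>
    (integrable_indicator_iff hG).2 (((h0 g).comp_measurable hψ).bdd_mul hσ.aestronglyMeasurable
      (ae_of_all _ hσ1))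
  have h2 : ∀ {P : Y → Prop}, (∀ᵐ y ∂ν, P y) → ∀ᵐ s ∂μ, s ∈ G → P (ψ s) := fun hP =>
    (ae_restrict_iff' hG).1 (ae_of_ae_map hψ.aemeasurable (h ▸ Measure.ae_smul_measure hP c))
  let J : Lp ℝ 1 ν →ₗ[ℝ] Lp ℝ 1 μ :=
    { toFun := fun g => (h1 g).toL1 _
      map_add' := fun f g => by
        rw [← Integrable.toL1_add, Integrable.toL1_eq_toL1_iff]
        filter_upwards [h2 (Lp.coeFn_add f g)] with s hs
        by_cases k : s ∈ G
        · simp only [Pi.add_apply, indicator_of_mem k, hs k, mul_add]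
        · simp [k]
      map_smul' := fun t g => by
        rw [RingHom.id_apply, ← Integrable.toL1_smul', Integrable.toL1_eq_toL1_iff]
        filter_upwards [h2 (Lp.coeFn_smul t g)] with s hs
        by_cases k : s ∈ G
        · simp only [Pi.smul_apply, indicator_of_mem k, hs k, smul_eq_mul, mul_left_comm]
        · simp [k] }
  refine ⟨J.mkContinuous c fun g => ?_, fun g => (h1 g).coeFn_toL1⟩
  change ‖(h1 g).toL1 _‖ ≤ _
  rw [L1.norm_of_fun_eq_integral_norm, L1.norm_eq_integral_norm, ← smul_eq_mul,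
    ← NNReal.smul_def, ← integral_smul_nnreal_measure, ← h,
    integral_map hψ.aemeasurable (h0 g).norm.aestronglyMeasurable, ← integral_indicator hG]
  refine integral_mono (h1 g).norm
    ((integrable_indicator_iff hG).2 ((h0 g).norm.comp_measurable hψ)) fun s => ?_
  by_cases k : s ∈ G
  · simp only [indicator_of_mem k, norm_mul]
    exact mul_le_of_le_one_left (norm_nonneg _) (hσ1 s)
  · simp [k]

lemma push_nonneg {ν : Measure Ω} {κ : Measure Y} [IsFiniteMeasure κ] {ψ : Ω → Y}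
    (hψ : Measurable ψ) (hac : ν.map ψ ≪ κ) {f : Ω → ℝ} (hf : Integrable f ν)
    (h0 : ∀ s, 0 ≤ f s) : ∃ r : Y → ℝ, Integrable r κ ∧ ∀ h : Y → ℝ, Measurable h →
      ∫ y, h y * r y ∂κ = ∫ s, h (ψ s) * f s ∂ν := by
  have := isFiniteMeasure_withDensity_ofReal hf.2
  set m := (ν.withDensity fun s => ENNReal.ofReal (f s)).map ψ
  have h1 : m ≪ κ := ((withDensity_absolutelyContinuous _ _).map hψ).trans hac
  refine ⟨fun y => (m.rnDeriv κ y).toReal, Measure.integrable_toReal_rnDeriv, fun h hh => ?_⟩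
  have h2 := integral_rnDeriv_smul (f := h) h1
  rw [integral_map hψ.aemeasurable hh.aestronglyMeasurable,
    integral_withDensity_eq_integral_toReal_smul₀ hf.1.aemeasurable.ennreal_ofReal
      (ae_of_all _ fun _ => ENNReal.ofReal_lt_top)] at h2
  simpa only [smul_eq_mul, ENNReal.toReal_ofReal (h0 _), mul_comm] using h2

lemma test_int {κ : Measure Y} {r h : Y → ℝ} {C : ℝ} (hr : Integrable r κ) (hh : Measurable h)
    (hC : ∀ y, |h y| ≤ C) : Integrable (fun y => h y * r y) κ :=
  hr.bdd_mul hh.aestronglyMeasurable (ae_of_all _ hC)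

lemma push_one {ν : Measure Ω} {κ : Measure Y} [IsFiniteMeasure κ] {ψ : Ω → Y}
    (hψ : Measurable ψ) (hac : ν.map ψ ≪ κ) {f : Ω → ℝ} (hf : Integrable f ν) :
    ∃ r : Lp ℝ 1 κ, ∀ (h : Y → ℝ) (C : ℝ), Measurable h → (∀ y, |h y| ≤ C) →
      ∫ y, h y * r y ∂κ = ∫ s, h (ψ s) * f s ∂ν := by
  obtain ⟨a, a1, a2⟩ := push_nonneg hψ hac hf.pos_part fun s => le_max_right _ _
  obtain ⟨b, b1, b2⟩ := push_nonneg hψ hac hf.neg_part fun s => le_max_right _ _
  refine ⟨(a1.sub b1).toL1 _, fun h C hh hC => ?_⟩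
  rw [integral_congr_ae (g := fun y => h y * a y - h y * b y)
    ((a1.sub b1).coeFn_toL1.mono fun y hy => by simp only [hy, Pi.sub_apply, mul_sub]),
    integral_sub (test_int a1 hh hC) (test_int b1 hh hC), a2 h hh, b2 h hh,
    ← integral_sub (test_int (h := fun s => h (ψ s)) hf.pos_part (hh.comp hψ) fun s => hC _)
      (test_int (h := fun s => h (ψ s)) hf.neg_part (hh.comp hψ) fun s => hC _)]
  refine integral_congr_ae (ae_of_all _ fun s => ?_)
  simp only [← mul_sub, max_zero_sub_max_neg_zero_eq_self]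

lemma eq_of_test {κ : Measure Y} {a b : Lp ℝ 1 κ} (h : ∀ h : Y → ℝ, Measurable h →
    (∀ y, |h y| ≤ 1) → ∫ y, h y * a y ∂κ = ∫ y, h y * b y ∂κ) : a = b := by
  refine Lp.ext (Integrable.ae_eq_of_forall_setIntegral_eq _ _ (L1.integrable_coeFn a)
    (L1.integrable_coeFn b) fun s hs _ => ?_)
  have := h (s.indicator 1) (measurable_one.indicator hs) fun y => by
    by_cases k : y ∈ s <;> simp [k]
  simpa only [← indicator_mul_left, Pi.one_apply, one_mul, integral_indicator hs] using this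

end

/-- TASK PP (1) -/
theorem exists_pull {Ω Y : Type*} [MeasurableSpace Ω] [MeasurableSpace Y] (μ : Measure Ω)
    [IsFiniteMeasure μ] {G : Set Ω} (hG : MeasurableSet G) {ψ : Ω → Y} (hψ : Measurable ψ)
    {σ : Ω → ℝ} (hσ : Measurable σ) (hσ1 : ∀ s, |σ s| ≤ 1) :
    ∃ J : Lp ℝ 1 ((μ.restrict G).map ψ) →L[ℝ] Lp ℝ 1 μ,
      ∀ g, J g =ᵐ[μ] G.indicator fun s => σ s * g (ψ s) :=
  pull_gen μ hG hψ (one_smul ℝ≥0 _).symm hσ hσ1

/-- TASK PP (2) -/
theorem exists_push {Ω Y : Type*} [MeasurableSpace Ω] [MeasurableSpace Y] (μ : Measure Ω)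
    [IsFiniteMeasure μ] (κ : Measure Y) [IsFiniteMeasure κ] {F : Set Ω} (hF : MeasurableSet F)
    {ψ : Ω → Y} (hψ : Measurable ψ) (hac : (μ.restrict F).map ψ ≪ κ)
    {σ : Ω → ℝ} (hσ : Measurable σ) (hσ1 : ∀ s, |σ s| ≤ 1) :
    ∃ S : Lp ℝ 1 μ →L[ℝ] Lp ℝ 1 κ, ∀ (x : Lp ℝ 1 μ) (h : Y → ℝ) (C : ℝ), Measurable h →
      (∀ y, |h y| ≤ C) → ∫ y, h y * S x y ∂κ = ∫ s in F, h (ψ s) * (σ s * x s) ∂μ := by
  have h0 : ∀ x : Lp ℝ 1 μ, Integrable (fun s => σ s * x s) (μ.restrict F) := fun x =>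
    test_int (L1.integrable_coeFn x).restrict hσ hσ1
  choose S hS using fun x : Lp ℝ 1 μ => push_one hψ hac (h0 x)
  let S' : Lp ℝ 1 μ →ₗ[ℝ] Lp ℝ 1 κ :=
    { toFun := S
      map_add' := fun x z => eq_of_test fun h hh hC => by
        rw [hS _ h 1 hh hC, integral_congr_ae (f := fun y => h y * (S x + S z) y)
          (g := fun y => h y * S x y + h y * S z y)
          ((Lp.coeFn_add (S x) (S z)).mono fun y hy => by simp only [hy, Pi.add_apply, mul_add]),
          integral_add (test_int (L1.integrable_coeFn _) hh hC)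
            (test_int (L1.integrable_coeFn _) hh hC), hS _ h 1 hh hC, hS _ h 1 hh hC,
          ← integral_add (test_int (h := fun s => h (ψ s)) (h0 x) (hh.comp hψ) fun s => hC _)
            (test_int (h := fun s => h (ψ s)) (h0 z) (hh.comp hψ) fun s => hC _)]
        exact integral_congr_ae ((ae_restrict_of_ae (Lp.coeFn_add x z)).mono fun s hs => by
          simp only [hs, Pi.add_apply, mul_add])
      map_smul' := fun t x => eq_of_test fun h hh hC => by
        rw [RingHom.id_apply, hS _ h 1 hh hC, integral_congr_ae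
          (f := fun y => h y * (t • S x) y) (g := fun y => t * (h y * S x y))
          ((Lp.coeFn_smul t (S x)).mono fun y hy => by
            simp only [hy, Pi.smul_apply, smul_eq_mul, mul_left_comm]),
          integral_const_mul, hS _ h 1 hh hC, ← integral_const_mul]
        exact integral_congr_ae ((ae_restrict_of_ae (Lp.coeFn_smul t x)).mono fun s hs => by
          simp only [hs, Pi.smul_apply, smul_eq_mul, mul_left_comm]) }
  refine ⟨S'.mkContinuous 1 fun x => ?_, hS⟩
  have hm : Measurable fun y => if 0 ≤ S x y then (1 : ℝ) else -1 := Measurable.ite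
    (measurableSet_le measurable_const (Lp.stronglyMeasurable _).measurable) measurable_const
    measurable_const
  have hb : ∀ y, |if 0 ≤ S x y then (1 : ℝ) else -1| ≤ 1 := fun y => by split_ifs <;> simp
  have h1 := hS x _ 1 hm hb
  change ‖S x‖ ≤ _
  rw [one_mul, L1.norm_eq_integral_norm, L1.norm_eq_integral_norm,
    integral_congr_ae (g := fun y => (if 0 ≤ S x y then (1 : ℝ) else -1) * S x y)
      (ae_of_all _ fun y => by
        by_cases k : 0 ≤ S x y
        · simp [k, abs_of_nonneg k]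
        · simp [k, abs_of_neg (not_le.1 k)]), h1]
  refine (integral_mono (test_int (h0 x) (hm.comp hψ :) fun s => hb _)
    (L1.integrable_coeFn x).norm.restrict fun s => (le_abs_self _).trans ?_).trans
    (setIntegral_le_integral (L1.integrable_coeFn x).norm (ae_of_all _ fun _ => norm_nonneg _))
  rw [abs_mul, abs_mul]
  exact (mul_le_of_le_one_left (by positivity) (hb _)).trans
    (mul_le_of_le_one_left (abs_nonneg _) (hσ1 s))

/-- TASK PP (3) -/
theorem exists_compl_L01 {Y : Type*} [MeasurableSpace Y] [StandardBorelSpace Y] (κ : Measure Y)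
    [IsFiniteMeasure κ] (hκ : κ ≠ 0) (hat : ∀ y, κ {y} = 0) :
    ∃ (j : L01 →L[ℝ] Lp ℝ 1 κ) (q : Lp ℝ 1 κ →L[ℝ] L01), ∀ g, q (j g) = g := by
  have : NeZero κ := ⟨hκ⟩
  obtain ⟨e, he⟩ := exists_measurableEmbedding_real Y
  set c := measureUnivNNReal κ with hc
  have hc0 : c ≠ 0 := (measureUnivNNReal_pos hκ).ne'
  have : NullSingletonClass κ := ⟨hat⟩
  have : IsProbabilityMeasure (c⁻¹ • κ) := ⟨by
    rw [Measure.smul_apply, ← coe_measureUnivNNReal, ← hc, ENNReal.smul_def, smul_eq_mul,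
      ← ENNReal.coe_mul, inv_mul_cancel₀ hc0, ENNReal.coe_one]⟩
  let ν := (c⁻¹ • κ).map e
  have : IsProbabilityMeasure ν := Measure.isProbabilityMeasure_map he.measurable.aemeasurable
  have : NullSingletonClass ν := ⟨fun x => by
    rw [Measure.map_apply he.measurable (measurableSet_singleton x), Measure.smul_apply,
      (subsingleton_singleton.preimage he.injective).measure_zero κ, smul_zero]⟩
  have h1 := (unitInterval.measurePreserving_coe.comp
    (MP_86b0a6_an.measurePreserving_cdfI ν)).comp ⟨he.measurable, rfl⟩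
  set ψ := (Subtype.val ∘ MP_86b0a6_an.cdfI ν) ∘ e
  have h2 : (κ.restrict univ).map ψ = c • mu01 := by
    have := h1.map_eq
    rw [Measure.map_smul] at this
    rw [Measure.restrict_univ, ← smul_inv_smul₀ hc0 (κ.map ψ), this]
  obtain ⟨j, hj⟩ := pull_gen κ MeasurableSet.univ h1.measurable h2 (σ := fun _ => 1)
    measurable_const (by simp)
  obtain ⟨q, hq⟩ := exists_push κ mu01 MeasurableSet.univ h1.measurable
    (h2 ▸ Measure.smul_absolutelyContinuous) (σ := fun _ => 1) measurable_const (by simp)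
  refine ⟨j, (c : ℝ)⁻¹ • q, fun g => ?_⟩
  rw [ContinuousLinearMap.smul_apply, inv_smul_eq_iff₀ (by exact_mod_cast hc0)]
  refine eq_of_test fun h hh hC => ?_
  rw [hq _ h 1 hh hC, integral_congr_ae (g := fun s => h (ψ s) * g (ψ s))
    ((ae_restrict_of_ae (hj g)).mono fun s hs => by simp [hs]),
    ← integral_map (f := fun y => h y * g y) h1.measurable.aemeasurable
      (hh.mul (Lp.stronglyMeasurable g).measurable).aestronglyMeasurable, h2,
    integral_smul_nnreal_measure, NNReal.smul_def, ← integral_smul]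
  exact integral_congr_ae ((Lp.coeFn_smul (c : ℝ) g).mono fun y hy => by
    simp only [hy, Pi.smul_apply, smul_eq_mul, mul_left_comm])

end Pool.Agent.Lib.MP_f99ede_an
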