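import Pool.Agent.Lib.MP_f99ede_an.Core4
import Pool.Agent.Lib.MP_f99ede_an.KernelRep
import Pool.Agent.Lib.MP_f99ede_an.PushPull

/-!
Kernel representation of a projection: idempotency of the singular part.
-/

open MeasureTheory ProbabilityTheory Set Filter

set_option linter.unusedSectionVars false
set_option linter.unusedVariables false

namespace Pool.Agent.Lib.MP_f99ede_an

/-- The operator `P` is given by the signed kernel `p - q`. -/
def Rep (μ : Measure ℝ) (P : Lp ℝ 1 μ →L[ℝ] Lp ℝ 1 μ) (p q : Kernel ℝ ℝ) : Prop :=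
  ∀ (x : Lp ℝ 1 μ) (h : ℝ → ℝ) (C : ℝ), Measurable h → (∀ u, |h u| ≤ C) →
    ∫ u, h u * P x u ∂μ = ∫ s, x s * (∫ u, h u ∂p s - ∫ u, h u ∂q s) ∂μ

lemma BM.kint (p : Kernel ℝ ℝ) [IsFiniteKernel p] {h : ℝ → ℝ} (hh : BM h) :
    BM fun s => ∫ u, h u ∂p s := by
  obtain ⟨C, hC⟩ := hh.2
  refine ⟨(hh.1.stronglyMeasurable.integral_kernel (κ := p)).measurable, C * p.bound.toReal,
    fun s => le_trans (norm_integral_le_of_norm_le_const (μ := p s) (f := h) (ae_of_all _ hC)) ?_⟩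
  exact mul_le_mul_of_nonneg_left
    (ENNReal.toReal_mono p.bound_lt_top.ne (p.measure_le_bound s univ))
    ((abs_nonneg _).trans (hC 0))

lemma ae_eq_of_test {μ : Measure ℝ} [IsFiniteMeasure μ] {f g : ℝ → ℝ} (hf : BM f) (hg : BM g)
    (h : ∀ x : Lp ℝ 1 μ, ∫ s, x s * f s ∂μ = ∫ s, x s * g s ∂μ) : f =ᵐ[μ] g := by
  refine Integrable.ae_eq_of_forall_setIntegral_eq _ _ (hf.integrable _) (hg.integrable _)
    fun A hA _ => ?_
  have e : ∀ f : ℝ → ℝ, ∫ s, indicatorConstLp 1 hA (measure_ne_top μ A) (1:ℝ) s * f s ∂μ =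
      ∫ s in A, f s ∂μ := by
    intro f
    rw [← integral_indicator hA]
    refine integral_congr_ae ?_
    filter_upwards [indicatorConstLp_coeFn (p := 1) (hs := hA) (hμs := measure_ne_top μ A)
      (c := (1:ℝ))] with s hs
    rw [hs]
    by_cases h : s ∈ A <;> simp [h]
  rw [← e, ← e, h]

lemma Rep.idem {μ : Measure ℝ} [IsFiniteMeasure μ] {P : Lp ℝ 1 μ →L[ℝ] Lp ℝ 1 μ}
    {p q : Kernel ℝ ℝ} [IsFiniteKernel p] [IsFiniteKernel q] (H : Rep μ P p q)
    (hP : ∀ x, P (P x) = P x) :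
    ∀ᵐ s ∂μ, (p + q ∘ₖ p + p ∘ₖ q) s = (q + p ∘ₖ p + q ∘ₖ q) s := by
  have key : ∀ B, MeasurableSet B → ∀ᵐ s ∂μ,
      (p + q ∘ₖ p + p ∘ₖ q) s B = (q + p ∘ₖ p + q ∘ₖ q) s B := by
    intro B hB
    have hb := BM.ind hB
    have ht := (hb.kint p).sub (hb.kint q)
    obtain ⟨C, hC⟩ := hb.2
    obtain ⟨D, hD⟩ := ht.2
    have e := ae_eq_of_test (μ := μ) ht ((ht.kint p).sub (ht.kint q)) fun x => by
      rw [← H x _ C hb.1 hC, ← H x _ D ht.1 hD, ← hP x, H (P x) _ C hb.1 hC, hP x]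
      simp only [mul_comm]
    filter_upwards [e] with s hs
    rw [integral_sub ((hb.kint p).integrable _) ((hb.kint q).integrable _),
      integral_sub ((hb.kint p).integrable _) ((hb.kint q).integrable _),
      ← Kernel.integral_comp (hb.integrable _), ← Kernel.integral_comp (hb.integrable _),
      ← Kernel.integral_comp (hb.integrable _), ← Kernel.integral_comp (hb.integrable _)] at hs
    simp only [integral_indicator_const _ hB, smul_eq_mul, mul_one] at hs
    rw [← measureReal_eq_measureReal_iff]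
    simp only [add_apply]
    rw [measureReal_add_apply, measureReal_add_apply, measureReal_add_apply, measureReal_add_apply]
    linarith
  have e : ∀ᵐ s ∂μ, ∀ r t : ℚ, (p + q ∘ₖ p + p ∘ₖ q) s (Ioo r t) =
      (q + p ∘ₖ p + q ∘ₖ q) s (Ioo r t) :=
    ae_all_iff.2 fun r => ae_all_iff.2 fun t => key _ measurableSet_Ioo
  filter_upwards [e] with s hs using Real.measure_ext_Ioo_rat hs

lemma comp_null {μ : Measure ℝ} (k r e t : Kernel ℝ ℝ) (hr : ∀ s, r s ≪ μ) (ht : ∀ s, t s ≪ μ)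
    {N : Set ℝ} (hN : MeasurableSet N) (h0 : μ N = 0) (hk : ∀ᵐ s ∂μ, k s N = 0) (s : ℝ) :
    ((k + r) ∘ₖ (e + t)) s N = (k ∘ₖ e) s N := by
  rw [Kernel.comp_apply' _ _ _ hN, Kernel.comp_apply' _ _ _ hN]
  simp only [add_apply, Measure.add_apply, fun u => hr u h0, add_zero, lintegral_add_measure]
  rw [lintegral_congr_ae (g := fun _ => 0) (ht s hk), lintegral_zero, add_zero]

lemma sing_le {μ x : Measure ℝ} (y k e k' e' : Kernel ℝ ℝ) {t r u r' u' : Kernel ℝ ℝ}
    (ht : ∀ s, t s ≪ μ) (hr : ∀ s, r s ≪ μ) (hu : ∀ s, u s ≪ μ) (hr' : ∀ s, r' s ≪ μ)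
    (hu' : ∀ s, u' s ≪ μ) (hk : ∀ N, μ N = 0 → ∀ᵐ s ∂μ, k s N = 0)
    (hk' : ∀ N, μ N = 0 → ∀ᵐ s ∂μ, k' s N = 0) {s : ℝ} {A : Set ℝ}
    (hA : MeasurableSet A) (h0 : μ A = 0) (ha : x Aᶜ = 0) (hb : y s A = 0)
    (h : x ≤ ((y + t) + (k + r) ∘ₖ (e + u) + (k' + r') ∘ₖ (e' + u')) s) :
    x ≤ (k ∘ₖ e + k' ∘ₖ e') s := by
  refine Measure.le_iff.2 fun T hT => ?_
  have h1 : μ (T ∩ A) = 0 := measure_mono_null inter_subset_right h0
  have e := h (T ∩ A)
  rw [add_apply (y + t + _), add_apply (y + t), Measure.add_apply, Measure.add_apply,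
    comp_null _ _ _ _ hr hu (hT.inter hA) h1 (hk _ h1),
    comp_null _ _ _ _ hr' hu' (hT.inter hA) h1 (hk' _ h1),
    add_apply y, Measure.add_apply, ht s h1, measure_mono_null inter_subset_right hb,
    add_zero, zero_add, ← Measure.add_apply, ← add_apply] at e
  rw [← measure_inter_conull ha]
  exact e.trans (measure_mono inter_subset_left)

lemma exists_density {μ : Measure ℝ} [IsFiniteMeasure μ] (r : Kernel ℝ ℝ) [IsFiniteKernel r]
    (hr : ∀ s, r s ≪ μ) : ∃ (d : ℝ → ℝ → ℝ) (C : ℝ), Measurable (Function.uncurry d) ∧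
      (∀ s, Integrable (d s) μ) ∧ (∀ s, ∫ u, |d s u| ∂μ ≤ C) ∧
      ∀ s (h : ℝ → ℝ), ∫ u, h u * d s u ∂μ = ∫ u, h u ∂r s := by
  have e : ∀ s, (fun u => (r.rnDeriv (Kernel.const ℝ μ) s u).toReal) =ᵐ[μ]
      fun u => ((r s).rnDeriv μ u).toReal := fun s =>
    (Kernel.rnDeriv_eq_rnDeriv_measure (κ := r) (η := Kernel.const ℝ μ) (a := s)).mono
      fun u hu => congrArg ENNReal.toReal hu
  have e2 : ∀ s (h : ℝ → ℝ), ∫ u, h u * (r.rnDeriv (Kernel.const ℝ μ) s u).toReal ∂μ =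
      ∫ u, h u ∂r s := by
    intro s h
    rw [← integral_toReal_rnDeriv_mul (hr s)]
    refine integral_congr_ae ?_
    filter_upwards [e s] with u hu
    rw [hu, mul_comm]
  refine ⟨fun s u => (r.rnDeriv (Kernel.const ℝ μ) s u).toReal, r.bound.toReal,
    (Kernel.measurable_rnDeriv _ _).ennreal_toReal,
    fun s => Measure.integrable_toReal_rnDeriv.congr (e s).symm, fun s => ?_, e2⟩
  have := e2 s fun _ => 1
  simp only [one_mul, integral_const, smul_eq_mul, mul_one] at this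
  simp only [ENNReal.abs_toReal, this]
  exact ENNReal.toReal_mono r.bound_lt_top.ne (r.measure_le_bound s univ)

lemma exists_kern {μ : Measure ℝ} (f : ℝ → Lp ℝ 1 μ) (hf : StronglyMeasurable f)
    (h0 : ∀ s, 0 ≤ᵐ[μ] f s) {C : ℝ} (hC : ∀ s, ‖f s‖ ≤ C) :
    ∃ κ : Kernel ℝ ℝ, IsFiniteKernel κ ∧ (∀ s, κ s ≪ μ) ∧
      ∀ s (h : ℝ → ℝ), ∫ u, h u ∂κ s = ∫ u, h u * f s u ∂μ := by
  have e : ∀ s A, MeasurableSet A → μ.withDensity (fun u => ENNReal.ofReal (f s u)) A =
      ENNReal.ofReal (∫ u in A, f s u ∂μ) := fun s A hA => by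
    rw [withDensity_apply _ hA, ofReal_integral_eq_lintegral_ofReal
      (L1.integrable_coeFn _).integrableOn (ae_restrict_of_ae (h0 s))]
  refine ⟨⟨fun s => μ.withDensity fun u => ENNReal.ofReal (f s u),
    Measure.measurable_of_measurable_coe _ fun A hA => ?_⟩,
    ⟨ENNReal.ofReal C, ENNReal.ofReal_lt_top, fun s => ?_⟩,
    fun s => withDensity_absolutelyContinuous _ _, fun s h => ?_⟩
  · simp only [fun s => e s A hA]
    exact ((continuous_setIntegral A).comp_stronglyMeasurable hf).measurable.ennreal_ofReal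
  · refine (e s _ MeasurableSet.univ).le.trans (ENNReal.ofReal_le_ofReal (le_trans ?_ (hC s)))
    rw [Measure.restrict_univ, L1.norm_eq_integral_norm]
    exact le_trans (le_abs_self _) (norm_integral_le_integral_norm (μ := μ) (f s))
  · refine (integral_withDensity_eq_integral_toReal_smul₀
      (Lp.aestronglyMeasurable (f s)).aemeasurable.ennreal_ofReal
      (ae_of_all _ fun _ => ENNReal.ofReal_lt_top) h).trans (integral_congr_ae ?_)
    filter_upwards [h0 s] with u hu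
    rw [ENNReal.toReal_ofReal hu, smul_eq_mul, mul_comm]

lemma test_clm (μ : Measure ℝ) {h : ℝ → ℝ} {C : ℝ} (hm : Measurable h) (hC : ∀ u, |h u| ≤ C) :
    ∃ φ : Lp ℝ 1 μ →L[ℝ] ℝ, ∀ g, φ g = ∫ u, h u * g u ∂μ := by
  refine ⟨LinearMap.mkContinuous ⟨⟨fun g => ∫ u, h u * g u ∂μ, fun f g => ?_⟩, fun c g => ?_⟩ C
    fun g => ?_, fun _ => rfl⟩
  · rw [← integral_add (test_int (L1.integrable_coeFn f) hm hC)
      (test_int (L1.integrable_coeFn g) hm hC)]
    refine integral_congr_ae ?_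
    filter_upwards [Lp.coeFn_add f g] with u hu
    rw [hu, Pi.add_apply, mul_add]
  · rw [RingHom.id_apply, smul_eq_mul, ← integral_const_mul]
    refine integral_congr_ae ?_
    filter_upwards [Lp.coeFn_smul c g] with u hu
    rw [hu, Pi.smul_apply, smul_eq_mul]
    ring
  · rw [L1.norm_eq_integral_norm, ← integral_const_mul]
    refine norm_integral_le_of_norm_le ((L1.integrable_coeFn g).norm.const_mul C)
      (ae_of_all _ fun u => ?_)
    rw [norm_mul]
    exact mul_le_mul_of_nonneg_right (hC u) (norm_nonneg _)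

lemma exists_rep_of_bochner {μ : Measure ℝ} (R : Lp ℝ 1 μ →L[ℝ] Lp ℝ 1 μ) (g : ℝ → Lp ℝ 1 μ)
    (hg : MemLp g ⊤ μ) (hR : ∀ x, R x = ∫ s, x s • g s ∂μ) :
    ∃ p q : Kernel ℝ ℝ, IsFiniteKernel p ∧ IsFiniteKernel q ∧ (∀ s, p s ≪ μ) ∧ (∀ s, q s ≪ μ) ∧
      Rep μ R p q := by
  set D := (eLpNorm g ⊤ μ).toReal
  have h1 : ∀ᵐ s ∂μ, ‖g s‖ ≤ D := by
    filter_upwards [ae_le_eLpNormEssSup (f := g) (μ := μ)] with s hs
    rw [← toReal_enorm]
    exact ENNReal.toReal_mono hg.2.ne (by simpa using hs)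
  have m0 := hg.1.stronglyMeasurable_mk
  set f : ℝ → Lp ℝ 1 μ := {s | ‖hg.1.mk g s‖ ≤ D}.indicator (hg.1.mk g) with hf
  have fm : StronglyMeasurable f :=
    m0.indicator (measurableSet_le m0.norm.measurable measurable_const)
  have fC : ∀ s, ‖f s‖ ≤ D := by
    intro s
    by_cases h : s ∈ {s | ‖hg.1.mk g s‖ ≤ D}
    · rw [hf, indicator_of_mem h]
      exact h
    · rw [hf, indicator_of_notMem h, norm_zero]
      exact ENNReal.toReal_nonneg
  have fg : ∀ᵐ s ∂μ, f s = g s := by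
    filter_upwards [h1, hg.1.ae_eq_mk] with s a b
    rw [hf, indicator_of_mem (show s ∈ {s | ‖hg.1.mk g s‖ ≤ D} from (congrArg norm b).symm.trans_le a),
      ← b]
  obtain ⟨p, p1, p2, p3⟩ := exists_kern (fun s => Lp.posPart (f s))
    (Lp.continuous_posPart.comp_stronglyMeasurable fm)
    (fun s => (Lp.coeFn_posPart (f s)).mono fun u hu => hu ▸ le_max_right _ _) (C := D)
    (fun s => le_trans (Lp.norm_le_norm_of_ae_le ((Lp.coeFn_posPart (f s)).mono fun u hu => by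
      rw [hu, Real.norm_of_nonneg (le_max_right _ _)]
      exact max_le (le_abs_self _) (abs_nonneg _))) (fC s))
  obtain ⟨q, q1, q2, q3⟩ := exists_kern (fun s => Lp.negPart (f s))
    (Lp.continuous_negPart.comp_stronglyMeasurable fm)
    (fun s => (Lp.coeFn_negPart_eq_max (f s)).mono fun u hu => hu ▸ le_max_right _ _) (C := D)
    (fun s => le_trans (Lp.norm_le_norm_of_ae_le ((Lp.coeFn_negPart_eq_max (f s)).mono
      fun u hu => by
        rw [hu, Real.norm_of_nonneg (le_max_right _ _)]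
        exact max_le (neg_le_abs _) (abs_nonneg _))) (fC s))
  refine ⟨p, q, p1, q1, p2, q2, fun x h C hm hC => ?_⟩
  obtain ⟨φ, hφ⟩ := test_clm μ hm hC
  rw [← hφ, hR, ← φ.integral_comp_comm (φ := fun s => x s • g s)
    ((L1.integrable_coeFn x).smul_of_top_left hg)]
  refine integral_congr_ae ?_
  filter_upwards [fg] with s hs
  rw [map_smul, smul_eq_mul, hφ, p3, q3, ← hs, ← integral_sub
    (test_int (L1.integrable_coeFn _) hm hC) (test_int (L1.integrable_coeFn _) hm hC)]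
  congr 1
  refine integral_congr_ae ?_
  filter_upwards [Lp.coeFn_posPart (f s), Lp.coeFn_negPart_eq_max (f s)] with u a b
  rw [a, b, ← mul_sub, max_zero_sub_max_neg_zero_eq_self]

theorem exists_split (μ : Measure ℝ) [IsFiniteMeasure μ] (P R : Lp ℝ 1 μ →L[ℝ] Lp ℝ 1 μ)
    (hP : ∀ x, P (P x) = P x) (g : ℝ → Lp ℝ 1 μ) (hg : MemLp g ⊤ μ)
    (hR : ∀ x, R x = ∫ s, x s • g s ∂μ) :
    ∃ (a b : Kernel ℝ ℝ) (d : ℝ → ℝ → ℝ) (C : ℝ), IsFiniteKernel a ∧ IsFiniteKernel b ∧
      (∀ s, ∃ A B, MeasurableSet A ∧ MeasurableSet B ∧ Disjoint A B ∧ μ A = 0 ∧ μ B = 0 ∧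
        a s Aᶜ = 0 ∧ b s Bᶜ = 0) ∧
      (∀ s, (a s).real univ + (b s).real univ ≤ ‖P - R‖) ∧
      (∀ N, μ N = 0 → ∀ᵐ s ∂μ, a s N = 0 ∧ b s N = 0) ∧
      (∀ᵐ s ∂μ, a s ≤ (a ∘ₖ a + b ∘ₖ b) s ∧ b s ≤ (b ∘ₖ a + a ∘ₖ b) s) ∧
      Measurable (Function.uncurry d) ∧ (∀ s, Integrable (d s) μ) ∧ (∀ s, ∫ u, |d s u| ∂μ ≤ C) ∧
      ∀ (x : Lp ℝ 1 μ) (h : ℝ → ℝ) (C : ℝ), Measurable h → (∀ u, |h u| ≤ C) →
        ∫ u, h u * P x u ∂μ =
          ∫ s, x s * (∫ u, h u ∂a s - ∫ u, h u ∂b s + ∫ u, h u * d s u ∂μ) ∂μ := by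
  obtain ⟨p, q, p1, q1, p2, q2, hpq⟩ := exists_rep_of_bochner R g hg hR
  obtain ⟨κ, η, Γ, κ1, η1, hΓ, κ2, η2, hM, hN, hD⟩ := exists_kernel μ (P - R)
  set c := Kernel.const ℝ μ
  set a := κ.singularPart c
  set b := η.singularPart c
  set r := c.withDensity (κ.rnDeriv c) + p
  set t := c.withDensity (η.rnDeriv c) + q
  have e1 : a + r = κ + p := by
    rw [← add_assoc, add_comm a, Kernel.rnDeriv_add_singularPart κ c]
  have e2 : b + t = η + q := by
    rw [← add_assoc, add_comm b, Kernel.rnDeriv_add_singularPart η c]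
  have aκ : ∀ s, a s ≤ κ s := fun s => by
    conv_rhs => rw [← Kernel.rnDeriv_add_singularPart κ c]
    exact Measure.le_add_left le_rfl
  have bη : ∀ s, b s ≤ η s := fun s => by
    conv_rhs => rw [← Kernel.rnDeriv_add_singularPart η c]
    exact Measure.le_add_left le_rfl
  have hr : ∀ s, r s ≪ μ := fun s => Measure.AbsolutelyContinuous.add_left
    (Kernel.withDensity_absolutelyContinuous _ s) (p2 s)
  have ht : ∀ s, t s ≪ μ := fun s => Measure.AbsolutelyContinuous.add_left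
    (Kernel.withDensity_absolutelyContinuous _ s) (q2 s)
  have H : Rep μ P (a + r) (b + t) := by
    intro x h C hm hC
    have hb : BM h := ⟨hm, C, hC⟩
    obtain ⟨φ, hφ⟩ := test_clm μ hm hC
    obtain ⟨C1, c1⟩ := ((hb.kint κ).sub (hb.kint η)).2
    obtain ⟨C2, c2⟩ := ((hb.kint p).sub (hb.kint q)).2
    have i1 := test_int (L1.integrable_coeFn x) ((hb.kint κ).sub (hb.kint η)).1 c1
    have i2 := test_int (L1.integrable_coeFn x) ((hb.kint p).sub (hb.kint q)).1 c2
    simp only [mul_comm _ (x _)] at i1 i2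
    rw [← hφ, show P x = (P - R) x + R x by simp, map_add, hφ, hφ, hD x h C hm hC,
      hpq x h C hm hC, ← integral_add i1 i2, e1, e2]
    congr 1
    funext s
    rw [add_apply, add_apply, integral_add_measure (hb.integrable _) (hb.integrable _),
      integral_add_measure (hb.integrable _) (hb.integrable _)]
    ring
  have hs : ∀ s, ∃ A B, MeasurableSet A ∧ MeasurableSet B ∧ Disjoint A B ∧ μ A = 0 ∧ μ B = 0 ∧
      a s Aᶜ = 0 ∧ b s Bᶜ = 0 := by
    intro s
    obtain ⟨A, a1, a2, a3⟩ := Kernel.mutuallySingular_singularPart κ c s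
    obtain ⟨B, b1, b2, b3⟩ := Kernel.mutuallySingular_singularPart η c s
    have m : MeasurableSet {u | (s, u) ∈ Γ} := measurable_prodMk_left hΓ
    refine ⟨Aᶜ ∩ {u | (s, u) ∈ Γ}, Bᶜ ∩ {u | (s, u) ∈ Γ}ᶜ, a1.compl.inter m, b1.compl.inter m.compl,
      disjoint_compl_right.mono inter_subset_right inter_subset_right,
      measure_mono_null inter_subset_left a3, measure_mono_null inter_subset_left b3, ?_, ?_⟩
    · rw [compl_inter, compl_compl]
      exact measure_union_null a2 (Measure.absolutelyContinuous_of_le (aκ s) (κ2 s))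
    · rw [compl_inter, compl_compl, compl_compl]
      exact measure_union_null b2 (Measure.absolutelyContinuous_of_le (bη s) (η2 s))
  have na : ∀ N, μ N = 0 → ∀ᵐ s ∂μ, a s N = 0 := fun N h =>
    (hN N h).mono fun s hs => Measure.absolutelyContinuous_of_le (aκ s) hs.1
  have nb : ∀ N, μ N = 0 → ∀ᵐ s ∂μ, b s N = 0 := fun N h =>
    (hN N h).mono fun s hs => Measure.absolutelyContinuous_of_le (bη s) hs.2
  obtain ⟨d, C, d1, d2, d3, d4⟩ := exists_density r hr
  obtain ⟨d', C', d1', d2', d3', d4'⟩ := exists_density t ht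
  refine ⟨a, b, fun s u => d s u - d' s u, C + C', inferInstance, inferInstance, hs,
    fun s => le_trans (add_le_add (ENNReal.toReal_mono (measure_ne_top _ _) (aκ s _))
      (ENNReal.toReal_mono (measure_ne_top _ _) (bη s _))) (hM s),
    fun N h => (na N h).and (nb N h), ?_, d1.sub d1', fun s => (d2 s).sub (d2' s), fun s => ?_,
    fun x h C hm hC => ?_⟩
  · filter_upwards [H.idem hP] with s h
    obtain ⟨A, B, a1, a2, a3, a4, a5, a6, a7⟩ := hs s
    refine ⟨sing_le b a a b b ht hr hr ht ht na nb a1 a4 a6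
        (measure_mono_null a3.subset_compl_right a7) (h ▸ ?_),
      sing_le a b a a b hr ht hr hr ht nb na a2 a5 a7
        (measure_mono_null a3.symm.subset_compl_right a6) (h ▸ ?_)⟩ <;>
    exact Measure.le_add_right (Measure.le_add_right (Measure.le_add_right le_rfl))
  · refine le_trans ?_ (add_le_add (d3 s) (d3' s))
    rw [← integral_add (d2 s).abs (d2' s).abs]
    exact integral_mono ((d2 s).sub (d2' s)).abs ((d2 s).abs.add (d2' s).abs) fun u => abs_sub _ _
  · have hb : BM h := ⟨hm, C, hC⟩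
    rw [H x h C hm hC]
    congr 1
    funext s
    simp only [mul_sub (h _)]
    rw [add_apply a, add_apply b, integral_add_measure (hb.integrable _) (hb.integrable _),
      integral_add_measure (hb.integrable _) (hb.integrable _),
      integral_sub (test_int (d2 s) hm hC) (test_int (d2' s) hm hC), d4, d4']
    ring

end Pool.Agent.Lib.MP_f99ede_an
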