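import Pool.Agent.Lib.MP_f99ede_an.PrimeH78Basic

/-! An infinite-dimensional complemented subspace of `ℓ₁` is isomorphic to `ℓ₁`. -/

namespace Pool.Agent.Lib.MP_f99ede_an

open Finset

theorem e1_exists_tail {X : Type*} [NormedAddCommGroup X] [NormedSpace ℝ X]
    (i : X →L[ℝ] ell1) (hi : Function.Injective i) (hX : ¬ FiniteDimensional ℝ X) (N : ℕ) :
    ∃ (x : X) (M : ℕ), ‖i x‖ = 1 ∧ N ≤ M ∧ 9 / 10 ≤ ∑ k ∈ Ico N M, |i x k| := by
  let L : X →ₗ[ℝ] (Fin N → ℝ) := LinearMap.pi fun k => (e1c k).comp (i : X →ₗ[ℝ] ell1)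
  have hL : ¬ Function.Injective L := fun h => hX (FiniteDimensional.of_injective L h)
  rw [← LinearMap.ker_eq_bot] at hL
  obtain ⟨y, hy, hy0⟩ := Submodule.exists_mem_ne_zero_of_ne_bot hL
  have hiy : i y ≠ 0 := fun h => hy0 (hi (by rw [h, map_zero]))
  have hpos : 0 < ‖i y‖ := norm_pos_iff.mpr hiy
  set x := ‖i y‖⁻¹ • y with hx
  have hn : ‖i x‖ = 1 := by
    rw [hx, map_smul, norm_smul, norm_inv, norm_norm, inv_mul_cancel₀ hpos.ne']
  have hz : ∀ k < N, i x k = 0 := fun k hk => by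
    have h1 : L y ⟨k, hk⟩ = 0 := by rw [LinearMap.mem_ker.mp hy]; rfl
    have h2 : i y k = 0 := h1
    rw [hx, map_smul, lp.coeFn_smul, Pi.smul_apply, h2, smul_zero]
  have ht := (e1_hasSum (i x)).tendsto_sum_nat
  rw [hn] at ht
  have hev := (ht.eventually (lt_mem_nhds (show (9 / 10 : ℝ) < 1 by norm_num))).and
    (Filter.eventually_ge_atTop N)
  obtain ⟨M, hM1, hM2⟩ := hev.exists
  refine ⟨x, M, hn, hM2, ?_⟩
  have h0 : ∑ k ∈ range N, |i x k| = 0 :=
    sum_eq_zero fun k hk => by rw [hz k (mem_range.mp hk), abs_zero]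
  have := sum_range_add_sum_Ico (fun k => |i x k|) hM2
  linarith

theorem e1_exists_compl {X : Type*} [NormedAddCommGroup X] [NormedSpace ℝ X] [CompleteSpace X]
    (i : X →L[ℝ] ell1) (p : ell1 →L[ℝ] X) (hp : ∀ x, p (i x) = x)
    (hX : ¬ FiniteDimensional ℝ X) :
    ∃ (j : ell1 →L[ℝ] X) (q : X →L[ℝ] ell1), ∀ g, q (j g) = g := by
  have hi : Function.Injective i := Function.LeftInverse.injective hp
  choose x M hx1 hM hx2 using e1_exists_tail i hi hX
  let N : ℕ → ℕ := fun n => Nat.rec 0 (fun _ m => M m) n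
  have hN0 : N 0 = 0 := rfl
  have hNs : ∀ n, N (n + 1) = M (N n) := fun n => rfl
  have hNle : ∀ n, N n ≤ N (n + 1) := fun n => hM _
  let φ : ℕ → ell1 →ₗ[ℝ] ℝ := fun n =>
    ∑ k ∈ Ico (N n) (N (n + 1)), (SignType.sign (i (x (N n)) k) : ℝ) • e1c k
  have hφ : ∀ n y, φ n y =
      ∑ k ∈ Ico (N n) (N (n + 1)), (SignType.sign (i (x (N n)) k) : ℝ) * y k := fun n y => by
    simp only [φ, LinearMap.sum_apply, LinearMap.smul_apply, e1c_apply, smul_eq_mul]
  have hφb : ∀ n y, |φ n y| ≤ ∑ k ∈ Ico (N n) (N (n + 1)), |y k| := fun n y => by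
    rw [hφ]
    refine (abs_sum_le_sum_abs _ _).trans (sum_le_sum fun k _ => ?_)
    rw [abs_mul]
    have : |(SignType.sign (i (x (N n)) k) : ℝ)| ≤ 1 := by
      rcases SignType.sign (i (x (N n)) k) with _ | _ | _ <;> simp
    exact mul_le_of_le_one_left (abs_nonneg _) this
  have hsum : ∀ (L : ℕ) (y : ell1), ∑ n ∈ range L, |φ n y| ≤ ∑ k ∈ range (N L), |y k| := by
    intro L y
    induction L with
    | zero => simp [hN0]
    | succ L ih =>
      rw [sum_range_succ, ← sum_range_add_sum_Ico (fun k => |y k|) (hNle L)]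
      exact add_le_add ih (hφb L y)
  obtain ⟨Q, hQ, hQb⟩ := e1_ofCoord φ 1 fun L y => by
    rw [one_mul]; exact (hsum L y).trans (e1_sum_le y _)
  obtain ⟨j, hj⟩ := e1_lift (fun n => x (N n)) (C := ‖p‖) fun n => by
    have := p.le_opNorm (i (x (N n)))
    rwa [hp, hx1, mul_one] at this
  let D : ell1 →L[ℝ] ell1 := Q.comp (i.comp j)
  have hD : ‖1 - D‖ < 1 := by
    refine lt_of_le_of_lt (ContinuousLinearMap.opNorm_le_bound _ (by norm_num : (0:ℝ) ≤ 1 / 5)
      (e1_norm_le _ fun n => ?_)) (by norm_num)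
    have e : (1 - D) (e1u n) = -(Q (i (x (N n))) - e1u n) := by
      change e1u n - Q (i (j (e1u n))) = _
      rw [hj, neg_sub]
    rw [e, norm_neg]
    have h1 : ‖Q (i (x (N n)))‖ ≤ 1 := by
      have := hQb (i (x (N n)))
      rwa [hx1, mul_one] at this
    have h2 : 9 / 10 ≤ Q (i (x (N n))) n := by
      rw [hQ, hφ]
      refine (hx2 (N n)).trans (le_of_eq (sum_congr rfl fun k _ => ?_))
      rw [sign_mul_self]
    have h3 : Q (i (x (N n))) n ≤ 1 := by
      have := e1_sum_le (Q (i (x (N n)))) {n}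
      rw [sum_singleton] at this
      exact (le_abs_self _).trans (this.trans h1)
    have := e1_dist_u (Q (i (x (N n)))) n (by linarith) h3
    linarith
  let U := Units.oneSub (1 - D) hD
  have hU : (U : ell1 →L[ℝ] ell1) = D := by simp [U]
  refine ⟨j, ((U⁻¹ : (ell1 →L[ℝ] ell1)ˣ) : ell1 →L[ℝ] ell1).comp (Q.comp i), fun g => ?_⟩
  have h : (((U⁻¹ : (ell1 →L[ℝ] ell1)ˣ) : ell1 →L[ℝ] ell1) * (U : ell1 →L[ℝ] ell1)) g = g := by
    rw [Units.inv_mul]; rfl
  rw [hU] at h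
  exact h

/-- TASK PRIME -/
theorem ell1_prime {X : Type*} [NormedAddCommGroup X] [NormedSpace ℝ X] [CompleteSpace X]
    (i : X →L[ℝ] ell1) (p : ell1 →L[ℝ] X) (hp : ∀ x, p (i x) = x)
    (hX : ¬ FiniteDimensional ℝ X) : Nonempty (X ≃L[ℝ] ell1) := by
  obtain ⟨j, q, hq⟩ := e1_exists_compl i p hp hX
  obtain ⟨S⟩ := nonempty_selfSum_ell1
  exact S.decomposition i p hp j q hq

end Pool.Agent.Lib.MP_f99ede_an
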