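import Pool.Agent.Lib.MP_f99ede_an.Defs

/-!
Integral operators on `L₁` approximately factor through `ℓ₁`.
-/

open MeasureTheory ProbabilityTheory Set

namespace Pool.Agent.Lib.MP_f99ede_an

theorem exists_pieces (μ : Measure ℝ) [IsFiniteMeasure μ] (r : ℝ → ℝ → ℝ)
    (hr : Measurable (Function.uncurry r)) (hi : ∀ s, Integrable (r s) μ) {ε : ℝ} (hε : 0 < ε) :
    ∃ (A : ℕ → Set ℝ) (k : ℕ → ℝ → ℝ), (∀ i, MeasurableSet (A i)) ∧
      Pairwise (Function.onFun Disjoint A) ∧ (⋃ i, A i) = univ ∧ (∀ i, Integrable (k i) μ) ∧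
      ∀ i, ∀ s ∈ A i, ∫ u, |r s u - k i u| ∂μ ≤ ε := by
  have : Fact ((1 : ENNReal) ≠ ⊤) := ⟨ENNReal.one_ne_top⟩
  set k := TopologicalSpace.denseSeq (Lp ℝ 1 μ) with hk
  set A : ℕ → Set ℝ := fun i => {s | ∫ u, |r s u - k i u| ∂μ ≤ ε} with hA
  have h1 : ∀ i, MeasurableSet (A i) := fun i => measurableSet_le
    (StronglyMeasurable.integral_prod_right (f := fun s u => |r s u - k i u|)
      (hr.sub ((Lp.stronglyMeasurable (k i)).measurable.comp measurable_snd)).abs.stronglyMeasurable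
      ).measurable measurable_const
  refine ⟨disjointed A, fun i => k i, MeasurableSet.disjointed h1, disjoint_disjointed A, ?_,
    fun i => L1.integrable_coeFn _, fun i s hs => disjointed_subset A i hs⟩
  rw [iUnion_disjointed, eq_univ_iff_forall]
  intro s
  obtain ⟨i, h2⟩ := (TopologicalSpace.denseRange_denseSeq (Lp ℝ 1 μ)).exists_dist_lt
    ((hi s).toL1 _) hε
  refine mem_iUnion.2 ⟨i, le_trans (le_of_eq ?_) h2.le⟩
  rw [dist_eq_norm, L1.norm_eq_integral_norm]
  refine integral_congr_ae ?_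
  filter_upwards [Lp.coeFn_sub ((hi s).toL1 _) (k i), (hi s).coeFn_toL1] with u a b
  rw [a, Pi.sub_apply, b, Real.norm_eq_abs]

lemma LS_int {μ : Measure ℝ} {h g : ℝ → ℝ} {C : ℝ} (hm : Measurable h) (hC : ∀ u, |h u| ≤ C)
    (hg : Integrable g μ) : Integrable (fun u => h u * g u) μ :=
  hg.bdd_mul hm.aestronglyMeasurable (Filter.Eventually.of_forall hC)

lemma LS_le {μ : Measure ℝ} {h g : ℝ → ℝ} (hC : ∀ u, |h u| ≤ 1) (hg : Integrable g μ) :
    |∫ u, h u * g u ∂μ| ≤ ∫ u, |g u| ∂μ :=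
  norm_integral_le_of_norm_le hg.abs (Filter.Eventually.of_forall fun u => by
    rw [Real.norm_eq_abs, abs_mul]
    exact mul_le_of_le_one_left (abs_nonneg _) (hC u))

lemma LS_test (μ : Measure ℝ) {h : ℝ → ℝ} (hm : Measurable h) (hC : ∀ u, |h u| ≤ 1) :
    ∃ φ : Lp ℝ 1 μ →L[ℝ] ℝ, ∀ g, φ g = ∫ u, h u * g u ∂μ := by
  refine ⟨LinearMap.mkContinuous ⟨⟨fun g => ∫ u, h u * g u ∂μ, fun f g => ?_⟩, fun c g => ?_⟩ 1
    fun g => ?_, fun _ => rfl⟩
  · rw [← integral_add (LS_int hm hC (L1.integrable_coeFn f)) (LS_int hm hC (L1.integrable_coeFn g))]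
    refine integral_congr_ae ?_
    filter_upwards [Lp.coeFn_add f g] with u a
    rw [a, Pi.add_apply, mul_add]
  · rw [RingHom.id_apply, smul_eq_mul, ← integral_const_mul]
    refine integral_congr_ae ?_
    filter_upwards [Lp.coeFn_smul c g] with u a
    rw [a, Pi.smul_apply, smul_eq_mul, mul_left_comm]
  · rw [one_mul, L1.norm_eq_integral_norm]
    exact LS_le hC (L1.integrable_coeFn g)

theorem exists_factor_ell1 (μ : Measure ℝ) [IsFiniteMeasure μ] (r : ℝ → ℝ → ℝ)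
    (hr : Measurable (Function.uncurry r)) (hi : ∀ s, Integrable (r s) μ) {C : ℝ}
    (hC : ∀ s, ∫ u, |r s u| ∂μ ≤ C) (W : Lp ℝ 1 μ →L[ℝ] Lp ℝ 1 μ)
    (hW : ∀ (x : Lp ℝ 1 μ) (h : ℝ → ℝ) (C : ℝ), Measurable h → (∀ u, |h u| ≤ C) →
      ∫ u, h u * W x u ∂μ = ∫ s, x s * ∫ u, h u * r s u ∂μ ∂μ) {ε : ℝ} (hε : 0 < ε) :
    ∃ (S : Lp ℝ 1 μ →L[ℝ] ell1) (T : ell1 →L[ℝ] Lp ℝ 1 μ), ∀ x, ‖W x - T (S x)‖ ≤ ε * ‖x‖ := by
  obtain ⟨A, k, a1, a2, a3, hk, a4⟩ := exists_pieces μ r hr hi hε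
  have hs : ∀ {f : ℝ → ℝ}, Integrable f μ → HasSum (fun i => ∫ s in A i, f s ∂μ) (∫ s, f s ∂μ) :=
    fun hf => by simpa only [a3, Measure.restrict_univ] using
      hasSum_integral_iUnion a1 a2 hf.integrableOn
  have hC0 : 0 ≤ C + ε := by
    linarith [(integral_nonneg fun u => abs_nonneg (r 0 u)).trans (hC 0)]
  have : ∀ i, ∃ K : Lp ℝ 1 μ, ‖K‖ ≤ C + ε ∧ ((A i).Nonempty → K =ᵐ[μ] k i) := fun i => by
    by_cases h : (A i).Nonempty
    · obtain ⟨s, hs⟩ := h
      refine ⟨(hk i).toL1 _, ?_, fun _ => (hk i).coeFn_toL1⟩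
      rw [Integrable.norm_toL1_eq_lintegral_enorm, ← integral_norm_eq_lintegral_enorm (hk i).1]
      refine le_trans (integral_mono (hk i).norm ((hi s).abs.add ((hi s).sub (hk i)).abs)
        fun u => ?_) ?_
      · simpa using abs_sub (r s u) (r s u - k i u)
      · rw [integral_add' (hi s).abs ((hi s).sub (hk i)).abs]
        exact add_le_add (hC s) (a4 i s hs)
    · exact ⟨0, by simpa using hC0, fun h' => (h h').elim⟩
  choose K K1 K2 using this
  have b1 : ∀ (x : Lp ℝ 1 μ) (F : Finset ℕ),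
      ∑ i ∈ F, ‖∫ s in A i, x s ∂μ‖ ^ (1 : ENNReal).toReal ≤ ‖x‖ := fun x F => by
    simp only [ENNReal.toReal_one, Real.rpow_one]
    rw [L1.norm_eq_integral_norm]
    exact (Finset.sum_le_sum fun i _ => norm_integral_le_integral_norm _).trans
      (sum_le_hasSum F (fun i _ => integral_nonneg fun u => norm_nonneg _)
        (hs (L1.integrable_coeFn x).norm))
  let S : Lp ℝ 1 μ →L[ℝ] ell1 := LinearMap.mkContinuous
    ⟨⟨fun x => ⟨fun i => ∫ s in A i, x s ∂μ, memℓp_gen' (b1 x)⟩, fun x y => lp.ext (funext fun i => by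
      change ∫ s in A i, (x + y) s ∂μ = ∫ s in A i, x s ∂μ + ∫ s in A i, y s ∂μ
      rw [integral_congr_ae (ae_restrict_of_ae (Lp.coeFn_add x y))]
      exact integral_add (L1.integrable_coeFn x).integrableOn
        (L1.integrable_coeFn y).integrableOn)⟩, fun c x => lp.ext (funext fun i => by
      change ∫ s in A i, (c • x) s ∂μ = c • ∫ s in A i, x s ∂μ
      rw [integral_congr_ae (ae_restrict_of_ae (Lp.coeFn_smul c x))]
      exact integral_smul c _)⟩ 1 fun x => by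
    rw [one_mul]
    exact lp.norm_le_of_forall_sum_le (by simp) (norm_nonneg x) fun F => by simpa using b1 x F
  let T0 : ell1 →L[ℝ] lp (fun _ : ℕ => Lp ℝ 1 μ) 1 := lp.mapCLM 1
    (fun i => ContinuousLinearMap.toSpanSingleton ℝ (K i)) hC0 fun i => by simpa using K1 i
  refine ⟨S, lp.tsumCLM ℝ ℕ _ ∘L T0, fun x => ?_⟩
  set y := W x - (lp.tsumCLM ℝ ℕ _ ∘L T0) (S x) with hy
  set h : ℝ → ℝ := fun u => if 0 ≤ y u then 1 else -1 with hh
  have h1 : Measurable h := Measurable.ite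
    (measurableSet_le measurable_const (Lp.stronglyMeasurable y).measurable) measurable_const
    measurable_const
  have h2 : ∀ u, |h u| ≤ 1 := fun u => by
    simp only [hh]
    split_ifs <;> simp
  obtain ⟨φ, hφ⟩ := LS_test μ h1 h2
  have h3 : ‖y‖ = φ y := by
    rw [hφ, L1.norm_eq_integral_norm]
    refine integral_congr_ae (Filter.Eventually.of_forall fun u => ?_)
    simp only [hh, Real.norm_eq_abs]
    split_ifs with h
    · rw [one_mul, abs_of_nonneg h]
    · rw [neg_one_mul, abs_of_neg (not_le.1 h)]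
  have h4 : HasSum (fun i => (∫ s in A i, x s ∂μ) * φ (K i))
      (φ ((lp.tsumCLM ℝ ℕ _ ∘L T0) (S x))) := by
    have := ((T0 (S x)).2.summable_of_one.hasSum).mapL φ
    have e : (fun i => φ (T0 (S x) i)) = fun i => (∫ s in A i, x s ∂μ) * φ (K i) :=
      funext fun i => φ.map_smul (∫ s in A i, x s ∂μ) (K i)
    rw [← e]
    exact this
  have h5 : Measurable fun s => ∫ u, h u * r s u ∂μ :=
    (StronglyMeasurable.integral_prod_right (f := fun s u => h u * r s u)
      ((h1.comp measurable_snd).mul hr).stronglyMeasurable).measurable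
  have h6 : Integrable (fun s => x s * ∫ u, h u * r s u ∂μ) μ := by
    simpa only [mul_comm] using LS_int h5 (fun s => (LS_le h2 (hi s)).trans (hC s))
      (L1.integrable_coeFn x)
  have h7 := (hs h6).sub h4
  rw [← hW x h 1 h1 h2, ← hφ, ← map_sub, ← hy, ← h3] at h7
  rw [L1.norm_eq_integral_norm x]
  refine hasSum_le (fun i => ?_) h7 ((hs (L1.integrable_coeFn x).norm).mul_left ε)
  rw [← integral_mul_const, ← integral_const_mul, ← integral_sub h6.integrableOn
    ((L1.integrable_coeFn x).mul_const _).integrableOn]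
  refine setIntegral_mono_on (h6.sub ((L1.integrable_coeFn x).mul_const _)).integrableOn
    ((L1.integrable_coeFn x).norm.const_mul ε).integrableOn (a1 i) fun s hs => ?_
  rw [← mul_sub, mul_comm ε]
  refine (le_abs_self _).trans ((abs_mul _ _).trans_le (mul_le_mul_of_nonneg_left ?_ (abs_nonneg _)))
  have h8 : φ (K i) = ∫ u, h u * k i u ∂μ := by
    rw [hφ]
    refine integral_congr_ae ?_
    filter_upwards [K2 i ⟨s, hs⟩] with u a
    rw [a]
  rw [h8, ← integral_sub (LS_int h1 h2 (hi s)) (LS_int h1 h2 (hk i))]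
  simp only [← mul_sub]
  exact (LS_le h2 ((hi s).sub (hk i))).trans (a4 i s hs)

end Pool.Agent.Lib.MP_f99ede_an
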