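import Mathlib

/-! The decomposition method for a Banach space `Z` that is its own `ℓ₁`-sum. -/

namespace Pool.Agent.Lib.MP_f99ede_an

open Finset

/-- Operators `J n`, `K n` exhibiting `Z` as its own `ℓ₁`-sum. -/
structure SelfSum (Z : Type*) [NormedAddCommGroup Z] [NormedSpace ℝ Z] where
  J : ℕ → Z →L[ℝ] Z
  K : ℕ → Z →L[ℝ] Z
  KJ_same : ∀ n z, K n (J n z) = z
  KJ_ne : ∀ m n z, m ≠ n → K m (J n z) = 0
  norm_J : ∀ n z, ‖J n z‖ ≤ ‖z‖
  sum_K : ∀ (N : ℕ) z, ∑ n ∈ range N, ‖K n z‖ ≤ ‖z‖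
  inj : ∀ z, (∀ n, K n z = 0) → z = 0

namespace SelfSum

variable {Z : Type*} [NormedAddCommGroup Z] [NormedSpace ℝ Z]

theorem ext_K (S : SelfSum Z) {z w : Z} (h : ∀ n, S.K n z = S.K n w) : z = w := by
  have : z - w = 0 := S.inj _ fun n => by rw [map_sub, h n, sub_self]
  exact sub_eq_zero.mp this

theorem synth [CompleteSpace Z] (S : SelfSum Z) {W : Type*} [NormedAddCommGroup W]
    [NormedSpace ℝ W] (A : ℕ → W →L[ℝ] Z) (C : ℝ)
    (hA : ∀ (N : ℕ) w, ∑ n ∈ range N, ‖A n w‖ ≤ C * ‖w‖) :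
    ∃ T : W →L[ℝ] Z, ∀ m w, S.K m (T w) = A m w := by
  have hs0 : ∀ w, Summable fun n => ‖A n w‖ := fun w =>
    summable_of_sum_range_le (fun _ => norm_nonneg _) (hA · w)
  have hs1 : ∀ w, Summable fun n => ‖S.J n (A n w)‖ := fun w =>
    Summable.of_nonneg_of_le (fun _ => norm_nonneg _) (fun n => S.norm_J n _) (hs0 w)
  have hs : ∀ w, Summable fun n => S.J n (A n w) := fun w => (hs1 w).of_norm
  let L : W →ₗ[ℝ] Z :=
    { toFun := fun w => ∑' n, S.J n (A n w)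
      map_add' := fun v w => by
        rw [← (hs v).tsum_add (hs w)]
        simp only [map_add]
      map_smul' := fun c w => by
        simp only [map_smul, RingHom.id_apply]
        exact (hs w).tsum_const_smul c }
  have hb : ∀ w, ‖L w‖ ≤ C * ‖w‖ := fun w => by
    refine (norm_tsum_le_tsum_norm (hs1 w)).trans ?_
    refine ((hs1 w).tsum_le_tsum (fun n => S.norm_J n _) (hs0 w)).trans ?_
    exact Real.tsum_le_of_sum_range_le (fun _ => norm_nonneg _) (hA · w)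
  refine ⟨L.mkContinuous C hb, fun m w => ?_⟩
  change S.K m (∑' n, S.J n (A n w)) = A m w
  rw [(S.K m).map_tsum (hs w), tsum_eq_single m]
  · exact S.KJ_same _ _
  · intro n hn
    exact S.KJ_ne _ _ _ (Ne.symm hn)

theorem sum_K_succ (S : SelfSum Z) (N : ℕ) (z : Z) :
    ∑ n ∈ range N, ‖S.K (n + 1) z‖ ≤ ‖z‖ := by
  have h := S.sum_K (N + 1) z
  rw [sum_range_succ'] at h
  linarith [norm_nonneg (S.K 0 z)]

/-- The swindle: a complemented subspace is absorbed. -/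
theorem absorb [CompleteSpace Z] (S : SelfSum Z) {X : Type*} [NormedAddCommGroup X]
    [NormedSpace ℝ X] (i : X →L[ℝ] Z) (p : Z →L[ℝ] X) (hp : ∀ x, p (i x) = x) :
    Nonempty ((X × Z) ≃L[ℝ] Z) := by
  set P : Z →L[ℝ] Z := i.comp p with hP
  set R : Z →L[ℝ] Z := ContinuousLinearMap.id ℝ Z - P with hR
  have hPa : ∀ z, P z = i (p z) := fun z => rfl
  have hRa : ∀ z, R z = z - i (p z) := fun z => rfl
  let A : ℕ → (X × Z) →L[ℝ] Z := fun n =>
    Nat.casesOn n (i.comp (ContinuousLinearMap.fst ℝ X Z))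
        (fun k => (P.comp (S.K k)).comp (ContinuousLinearMap.snd ℝ X Z)) +
      (R.comp (S.K n)).comp (ContinuousLinearMap.snd ℝ X Z)
  have hA0 : ∀ w : X × Z, A 0 w = i w.1 + R (S.K 0 w.2) := fun w => rfl
  have hAs : ∀ n (w : X × Z), A (n + 1) w = P (S.K n w.2) + R (S.K (n + 1) w.2) := fun n w => rfl
  let B : ℕ → Z →L[ℝ] Z := fun n => P.comp (S.K (n + 1)) + R.comp (S.K n)
  have hB : ∀ n z, B n z = P (S.K (n + 1) z) + R (S.K n z) := fun n z => rfl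
  have hAb : ∀ (N : ℕ) w, ∑ n ∈ range N, ‖A n w‖ ≤ (‖i‖ + ‖P‖ + ‖R‖) * ‖w‖ := by
    intro N w
    have h1 : ‖w.1‖ ≤ ‖w‖ := norm_fst_le w
    have h2 : ‖w.2‖ ≤ ‖w‖ := norm_snd_le w
    have hle : ∑ n ∈ range N, ‖A n w‖ ≤ ∑ n ∈ range (N + 1), ‖A n w‖ := by
      rw [sum_range_succ]; linarith [norm_nonneg (A N w)]
    refine hle.trans ?_
    rw [sum_range_succ']
    have e1 : ∑ n ∈ range N, ‖A (n + 1) w‖ ≤
        ‖P‖ * ∑ n ∈ range N, ‖S.K n w.2‖ + ‖R‖ * ∑ n ∈ range N, ‖S.K (n + 1) w.2‖ := by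
      rw [mul_sum, mul_sum, ← sum_add_distrib]
      refine sum_le_sum fun n _ => ?_
      rw [hAs]
      exact (norm_add_le _ _).trans (add_le_add (P.le_opNorm _) (R.le_opNorm _))
    have e0 : ‖A 0 w‖ ≤ ‖i‖ * ‖w.1‖ + ‖R‖ * ‖S.K 0 w.2‖ := by
      rw [hA0]
      exact (norm_add_le _ _).trans (add_le_add (i.le_opNorm _) (R.le_opNorm _))
    have k1 := S.sum_K N w.2
    have k2 := S.sum_K (N + 1) w.2
    rw [sum_range_succ'] at k2
    have m1 := mul_le_mul_of_nonneg_left (k1.trans h2) (norm_nonneg P)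
    have m2 := mul_le_mul_of_nonneg_left (k2.trans h2) (norm_nonneg R)
    have m3 := mul_le_mul_of_nonneg_left h1 (norm_nonneg i)
    rw [mul_add] at m2
    rw [add_mul, add_mul]
    linarith
  have hBb : ∀ (N : ℕ) z, ∑ n ∈ range N, ‖B n z‖ ≤ (‖P‖ + ‖R‖) * ‖z‖ := by
    intro N z
    have e1 : ∑ n ∈ range N, ‖B n z‖ ≤
        ‖P‖ * ∑ n ∈ range N, ‖S.K (n + 1) z‖ + ‖R‖ * ∑ n ∈ range N, ‖S.K n z‖ := by
      rw [mul_sum, mul_sum, ← sum_add_distrib]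
      refine sum_le_sum fun n _ => ?_
      rw [hB]
      exact (norm_add_le _ _).trans (add_le_add (P.le_opNorm _) (R.le_opNorm _))
    have m1 := mul_le_mul_of_nonneg_left (S.sum_K_succ N z) (norm_nonneg P)
    have m2 := mul_le_mul_of_nonneg_left (S.sum_K N z) (norm_nonneg R)
    rw [add_mul]
    linarith
  obtain ⟨Φ, hΦ⟩ := S.synth A _ hAb
  obtain ⟨Ψ, hΨ⟩ := S.synth B _ hBb
  refine ⟨ContinuousLinearEquiv.equivOfInverse Φ ((p.comp (S.K 0)).prod Ψ) ?_ ?_⟩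
  · rintro ⟨x, z⟩
    refine Prod.ext ?_ ?_
    · change p (S.K 0 (Φ (x, z))) = x
      rw [hΦ, hA0, hRa]
      simp [hp]
    · change Ψ (Φ (x, z)) = z
      refine S.ext_K fun n => ?_
      rw [hΨ, hB, hΦ, hΦ, hAs]
      cases n with
      | zero => rw [hA0]; simp [hPa, hRa, hp]
      | succ k => rw [hAs]; simp [hPa, hRa, hp]
  · intro z
    refine S.ext_K fun n => ?_
    rw [hΦ]
    cases n with
    | zero =>
      rw [hA0]
      change i (p (S.K 0 z)) + R (S.K 0 (Ψ z)) = _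
      rw [hΨ, hB]; simp [hPa, hRa, hp]
    | succ k =>
      rw [hAs]
      change P (S.K k (Ψ z)) + R (S.K (k + 1) (Ψ z)) = _
      rw [hΨ, hΨ, hB, hB]; simp [hPa, hRa, hp]

/-- The decomposition method. -/
theorem decomposition [CompleteSpace Z] (S : SelfSum Z) {X : Type*} [NormedAddCommGroup X]
    [NormedSpace ℝ X] (i : X →L[ℝ] Z) (p : Z →L[ℝ] X) (hp : ∀ x, p (i x) = x)
    (j : Z →L[ℝ] X) (q : X →L[ℝ] Z) (hq : ∀ g, q (j g) = g) : Nonempty (X ≃L[ℝ] Z) := by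
  obtain ⟨e1⟩ := S.absorb i p hp
  obtain ⟨e2⟩ := S.absorb (ContinuousLinearMap.id ℝ Z) (ContinuousLinearMap.id ℝ Z)
    (fun _ => rfl)
  let e3 := ContinuousLinearEquiv.equivOfRightInverse q j hq
  let V := LinearMap.ker (q : X →ₗ[ℝ] Z)
  let e4 : (X × Z) ≃L[ℝ] ((Z × V) × Z) := e3.prodCongr (ContinuousLinearEquiv.refl ℝ Z)
  let e5 : ((Z × V) × Z) ≃L[ℝ] (Z × (V × Z)) := ContinuousLinearEquiv.prodAssoc ℝ Z V Z
  let e6 : (Z × (V × Z)) ≃L[ℝ] (Z × (Z × V)) :=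
    (ContinuousLinearEquiv.refl ℝ Z).prodCongr (ContinuousLinearEquiv.prodComm ℝ V Z)
  let e7 : (Z × (Z × V)) ≃L[ℝ] ((Z × Z) × V) := (ContinuousLinearEquiv.prodAssoc ℝ Z Z V).symm
  let e8 : ((Z × Z) × V) ≃L[ℝ] (Z × V) := e2.prodCongr (ContinuousLinearEquiv.refl ℝ V)
  exact ⟨((((((e4.trans e5).trans e6).trans e7).trans e8).trans e3.symm).symm).trans e1⟩

end SelfSum

end Pool.Agent.Lib.MP_f99ede_an
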