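import Pool.Agent.Lib.MP_f99ede_an.Defs
import Pool.Agent.Lib.MP_f99ede_an.PelH78Swindle

/-! The decomposition method for `L₁[0,1]`. -/

open MeasureTheory Set

namespace Pool.Agent.Lib.MP_f99ede_an

theorem pel_norm_eq (μ : Measure ℝ) (z : Lp ℝ 1 μ) : ‖z‖ = ∫ t, |z t| ∂μ := by
  rw [L1.norm_eq_integral_norm]
  simp only [Real.norm_eq_abs]

theorem pel_lift (μ : Measure ℝ) (T : (ℝ → ℝ) → ℝ → ℝ) (hadd : ∀ f g, T (f + g) = T f + T g)
    (hsmul : ∀ (c : ℝ) f, T (c • f) = c • T f) (hae : ∀ f g, f =ᵐ[μ] g → T f =ᵐ[μ] T g)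
    (hint : ∀ f, Integrable f μ → Integrable (T f) μ)
    (hb : ∀ f, Integrable f μ → ∫ t, |T f t| ∂μ ≤ ∫ t, |f t| ∂μ) :
    ∃ L : Lp ℝ 1 μ →L[ℝ] Lp ℝ 1 μ, ∀ z, L z =ᵐ[μ] T z := by
  have hi : ∀ z : Lp ℝ 1 μ, Integrable (T z) μ := fun z => hint _ (L1.integrable_coeFn z)
  have hc : ∀ z : Lp ℝ 1 μ, ((hi z).toL1 (T z) : ℝ → ℝ) =ᵐ[μ] T z := fun z =>
    Integrable.coeFn_toL1 (hi z)
  let L : Lp ℝ 1 μ →ₗ[ℝ] Lp ℝ 1 μ :=
    { toFun := fun z => (hi z).toL1 (T z)
      map_add' := fun z w => by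
        apply Lp.ext
        refine (hc (z + w)).trans ((hae _ _ (Lp.coeFn_add z w)).trans ?_)
        rw [hadd]
        exact ((Lp.coeFn_add _ _).trans ((hc z).add (hc w))).symm
      map_smul' := fun c z => by
        apply Lp.ext
        refine (hc (c • z)).trans ((hae _ _ (Lp.coeFn_smul c z)).trans ?_)
        rw [hsmul]
        exact ((Lp.coeFn_smul _ _).trans ((hc z).const_smul c)).symm }
  have hL : ∀ z, ‖L z‖ ≤ 1 * ‖z‖ := fun z => by
    rw [one_mul, pel_norm_eq, pel_norm_eq]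
    refine le_trans (le_of_eq (integral_congr_ae ?_)) (hb _ (L1.integrable_coeFn z))
    filter_upwards [hc z] with t ht
    exact congrArg _ ht
  exact ⟨L.mkContinuous 1 hL, hc⟩

section piece

variable {μ : Measure ℝ} {e : ℝ ≃ᵐ ℝ} {E : Set ℝ} {c : ℝ}

theorem pel_ae_comp (hmap : μ.map e = ENNReal.ofReal c⁻¹ • μ.restrict E) {f g : ℝ → ℝ}
    (h : f =ᵐ[μ] g) : (fun t => f (e t)) =ᵐ[μ] fun t => g (e t) := by
  have h1 : f =ᵐ[μ.map e] g := by
    rw [hmap]
    exact Measure.ae_smul_measure (ae_restrict_of_ae h) _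
  exact ae_of_ae_map e.measurable.aemeasurable h1

theorem pel_ae_mem (hE : MeasurableSet E) (hmap : μ.map e = ENNReal.ofReal c⁻¹ • μ.restrict E) :
    ∀ᵐ t ∂μ, e t ∈ E := by
  have h1 : ∀ᵐ s ∂(μ.map e), s ∈ E := by
    rw [hmap]
    exact Measure.ae_smul_measure (ae_restrict_mem hE) _
  exact ae_of_ae_map e.measurable.aemeasurable h1

theorem pel_map_symm (hc : 0 < c) (hmap : μ.map e = ENNReal.ofReal c⁻¹ • μ.restrict E) :
    (μ.restrict E).map e.symm = ENNReal.ofReal c • μ := by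
  have h1 : (μ.map e).map e.symm = μ := e.map_symm_map
  rw [hmap, Measure.map_smul] at h1
  conv_rhs => rw [← h1]
  rw [smul_smul, ← ENNReal.ofReal_mul hc.le, mul_inv_cancel₀ hc.ne', ENNReal.ofReal_one, one_smul]

theorem pel_exists_K (hc : 0 < c) (hmap : μ.map e = ENNReal.ofReal c⁻¹ • μ.restrict E) :
    ∃ K : Lp ℝ 1 μ →L[ℝ] Lp ℝ 1 μ, (∀ z, K z =ᵐ[μ] fun t => c * z (e t)) ∧
      ∀ z, ‖K z‖ = ∫ s in E, |z s| ∂μ := by
  have hI : ∀ f : ℝ → ℝ, ∫ t, |c * f (e t)| ∂μ = ∫ s in E, |f s| ∂μ := fun f => by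
    have h1 := integral_map_equiv (μ := μ) e fun s => |c * f s|
    rw [← h1, hmap, integral_smul_measure, ENNReal.toReal_ofReal (inv_pos.mpr hc).le]
    simp only [abs_mul, abs_of_pos hc, integral_const_mul, smul_eq_mul]
    rw [← mul_assoc, inv_mul_cancel₀ hc.ne', one_mul]
  obtain ⟨K, hK⟩ := pel_lift μ (fun f t => c * f (e t))
    (fun f g => by ext t; simp [mul_add]) (fun a f => by ext t; simp [mul_left_comm])
    (fun f g h => by
      filter_upwards [pel_ae_comp hmap h] with t ht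
      rw [ht])
    (fun f hf => by
      refine Integrable.const_mul ?_ c
      have h1 : Integrable f (μ.map e) := by
        rw [hmap]
        exact hf.restrict.smul_measure ENNReal.ofReal_ne_top
      exact (integrable_map_equiv e f).mp h1)
    (fun f hf => by
      rw [hI]
      exact setIntegral_le_integral hf.abs (ae_of_all _ fun _ => abs_nonneg _))
  refine ⟨K, hK, fun z => ?_⟩
  rw [pel_norm_eq, ← hI]
  refine integral_congr_ae ?_
  filter_upwards [hK z] with t ht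
  rw [ht]

theorem pel_exists_J (hE : MeasurableSet E) (hc : 0 < c)
    (hmap : μ.map e = ENNReal.ofReal c⁻¹ • μ.restrict E) :
    ∃ J : Lp ℝ 1 μ →L[ℝ] Lp ℝ 1 μ,
      (∀ g, J g =ᵐ[μ] E.indicator fun s => c⁻¹ * g (e.symm s)) ∧ ∀ g, ‖J g‖ ≤ ‖g‖ := by
  have hs := pel_map_symm hc hmap
  have hI : ∀ f : ℝ → ℝ,
      ∫ s, |E.indicator (fun s => c⁻¹ * f (e.symm s)) s| ∂μ = ∫ t, |f t| ∂μ := fun f => by
    have h0 : (fun s => |E.indicator (fun s => c⁻¹ * f (e.symm s)) s|) =
        E.indicator fun s => |c⁻¹ * f (e.symm s)| := by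
      ext s
      by_cases h : s ∈ E <;> simp [h]
    have h1 := integral_map_equiv (μ := μ.restrict E) e.symm fun s => |c⁻¹ * f s|
    rw [h0, integral_indicator hE, ← h1, hs, integral_smul_measure, ENNReal.toReal_ofReal hc.le]
    simp only [abs_mul, abs_of_pos (inv_pos.mpr hc), integral_const_mul, smul_eq_mul]
    rw [← mul_assoc, mul_inv_cancel₀ hc.ne', one_mul]
  obtain ⟨J, hJ⟩ := pel_lift μ (fun f => E.indicator fun s => c⁻¹ * f (e.symm s))
    (fun f g => by
      ext s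
      by_cases h : s ∈ E <;> simp [h, mul_add])
    (fun a f => by
      ext s
      by_cases h : s ∈ E <;> simp [h, mul_left_comm])
    (fun f g h => by
      rw [← ae_eq_restrict_iff_indicator_ae_eq hE]
      have h1 : f =ᵐ[(μ.restrict E).map e.symm] g := by
        rw [hs]
        exact Measure.ae_smul_measure h _
      filter_upwards [ae_of_ae_map e.symm.measurable.aemeasurable h1] with t ht
      rw [ht])
    (fun f hf => by
      rw [integrable_indicator_iff hE]
      refine Integrable.const_mul ?_ _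
      have h1 : Integrable f ((μ.restrict E).map e.symm) := by
        rw [hs]
        exact hf.smul_measure ENNReal.ofReal_ne_top
      exact (integrable_map_equiv e.symm f).mp h1)
    (fun f _ => (hI f).le)
  refine ⟨J, hJ, fun g => le_of_eq ?_⟩
  rw [pel_norm_eq, pel_norm_eq, ← hI (g : ℝ → ℝ)]
  refine integral_congr_ae ?_
  filter_upwards [hJ g] with t ht
  rw [ht]

end piece

theorem pel_selfSum (μ : Measure ℝ) (e : ℕ → ℝ ≃ᵐ ℝ) (E : ℕ → Set ℝ) (c : ℕ → ℝ)
    (hE : ∀ n, MeasurableSet (E n)) (hc : ∀ n, 0 < c n)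
    (hd : Pairwise (Function.onFun Disjoint E)) (hU : ∀ᵐ s ∂μ, s ∈ ⋃ n, E n)
    (hmap : ∀ n, μ.map (e n) = ENNReal.ofReal (c n)⁻¹ • μ.restrict (E n)) :
    Nonempty (SelfSum (Lp ℝ 1 μ)) := by
  choose K hK hKn using fun n => pel_exists_K (hc n) (hmap n)
  choose J hJ hJn using fun n => pel_exists_J (hE n) (hc n) (hmap n)
  have hsum : ∀ z : Lp ℝ 1 μ, HasSum (fun n => ‖K n z‖) ‖z‖ := fun z => by
    have h := hasSum_integral_iUnion (μ := μ) (f := fun s => |z s|) hE hd
      (L1.integrable_coeFn z).abs.integrableOn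
    rw [Measure.restrict_eq_self_of_ae_mem hU, ← pel_norm_eq] at h
    simpa only [hKn] using h
  refine ⟨⟨J, K, fun n g => ?_, fun m n g hmn => ?_, hJn, fun N z => ?_, fun z h => ?_⟩⟩
  · apply Lp.ext
    filter_upwards [hK n (J n g), pel_ae_comp (hmap n) (hJ n g), pel_ae_mem (hE n) (hmap n)]
      with t h1 h2 h3
    rw [h1, h2, indicator_of_mem h3, MeasurableEquiv.symm_apply_apply, ← mul_assoc,
      mul_inv_cancel₀ (hc n).ne', one_mul]
  · apply Lp.ext
    filter_upwards [hK m (J n g), pel_ae_comp (hmap m) (hJ n g), pel_ae_mem (hE m) (hmap m),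
      Lp.coeFn_zero ℝ 1 μ] with t h1 h2 h3 h4
    have h5 : e m t ∉ E n := fun h => Set.disjoint_left.mp (hd hmn) h3 h
    rw [h1, h2, indicator_of_notMem h5, h4, mul_zero]
    rfl
  · exact sum_le_hasSum _ (fun _ _ => norm_nonneg _) (hsum z)
  · have h1 := hsum z
    simp only [h, norm_zero] at h1
    exact norm_eq_zero.mp (h1.unique hasSum_zero)

theorem nonempty_selfSum_L01 : Nonempty (SelfSum L01) := by
  let c : ℕ → ℝ := fun n => (1 / 2) ^ (n + 1)
  have hc : ∀ n, 0 < c n := fun n => by positivity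
  have hc2 : ∀ n, (1 / 2 : ℝ) ^ n = 2 * c n := fun n => by
    simp only [c, pow_succ]; ring
  let e : ℕ → ℝ ≃ᵐ ℝ := fun n =>
    ((Homeomorph.addLeft (1 : ℝ)).trans (Homeomorph.mulLeft₀ (c n) (hc n).ne')).toMeasurableEquiv
  have he : ∀ n t, e n t = c n * (1 + t) := fun n t => rfl
  let E : ℕ → Set ℝ := fun n => Ioc ((1 / 2) ^ (n + 1)) ((1 / 2) ^ n)
  have hmu : mu01 = volume.restrict (Ioc (0 : ℝ) 1) :=
    (Measure.restrict_congr_set Ioc_ae_eq_Icc).symm
  refine pel_selfSum mu01 e E c (fun n => measurableSet_Ioc) hc ?_ ?_ fun n => ?_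
  · have key : ∀ m n, m < n → Disjoint (E m) (E n) := fun m n h => by
      rw [Set.disjoint_left]
      rintro s ⟨h1, -⟩ ⟨-, h2⟩
      have : (1 / 2 : ℝ) ^ n ≤ (1 / 2) ^ (m + 1) :=
        pow_le_pow_of_le_one (by norm_num) (by norm_num) h
      linarith
    intro m n h
    rcases lt_or_gt_of_ne h with h | h
    · exact key m n h
    · exact (key n m h).symm
  · rw [hmu]
    filter_upwards [ae_restrict_mem measurableSet_Ioc] with s hs
    obtain ⟨n, h1, h2⟩ := exists_nat_pow_near_of_lt_one hs.1 hs.2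
      (show (0 : ℝ) < 1 / 2 by norm_num) (by norm_num)
    exact mem_iUnion.mpr ⟨n, h1, h2⟩
  · have hpre : e n ⁻¹' E n = Ioc 0 1 := by
      ext t
      have h0 := hc n
      simp only [mem_preimage, he, E, mem_Ioc, hc2 n]
      change c n < c n * (1 + t) ∧ c n * (1 + t) ≤ 2 * c n ↔ _
      constructor
      · rintro ⟨h1, h2⟩
        constructor <;> nlinarith
      · rintro ⟨h1, h2⟩
        constructor <;> nlinarith
    have hvol : (volume : Measure ℝ).map (e n) = ENNReal.ofReal (c n)⁻¹ • volume := by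
      have h1 : (e n : ℝ → ℝ) = (fun x => c n * x) ∘ fun t => 1 + t := rfl
      rw [h1, ← Measure.map_map (measurable_const_mul _) (measurable_const_add _),
        map_add_left_eq_self, Real.map_volume_mul_left (hc n).ne',
        abs_of_pos (inv_pos.mpr (hc n))]
    have hsub : E n ⊆ Ioc 0 1 := by
      rintro s ⟨h1, h2⟩
      exact ⟨lt_trans (by positivity) h1, h2.trans (pow_le_one₀ (by norm_num) (by norm_num))⟩
    rw [hmu, Measure.restrict_restrict measurableSet_Ioc, inter_eq_left.mpr hsub, ← hpre,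
      ← (e n).measurableEmbedding.restrict_map, hvol, Measure.restrict_smul]

/-- TASK PEL -/
theorem pelczynski_L01 {X : Type*} [NormedAddCommGroup X] [NormedSpace ℝ X] [CompleteSpace X]
    (i : X →L[ℝ] L01) (p : L01 →L[ℝ] X) (hp : ∀ x, p (i x) = x)
    (j : L01 →L[ℝ] X) (q : X →L[ℝ] L01) (hq : ∀ g, q (j g) = g) :
    Nonempty (X ≃L[ℝ] L01) := by
  obtain ⟨S⟩ := nonempty_selfSum_L01
  exact S.decomposition i p hp j q hq

end Pool.Agent.Lib.MP_f99ede_an
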