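import Pool.Agent.Lib.MP_f99ede_an.Core5
import Pool.Agent.Lib.MP_f99ede_an.LewisStegall
import Pool.Agent.Lib.MP_f99ede_an.Pelczynski
import Pool.Agent.Lib.MP_f99ede_an.Ell1Prime

/-!
Projections on `L₁` close to representable operators: assembly.
-/

open MeasureTheory ProbabilityTheory Set Filter

set_option linter.unusedSectionVars false
set_option linter.unusedVariables false

namespace Pool.Agent.Lib.MP_f99ede_an

lemma norm_le_of_test {κ : Measure ℝ} (a : Lp ℝ 1 κ) {c : ℝ}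
    (h : ∀ h : ℝ → ℝ, Measurable h → (∀ y, |h y| ≤ 1) → ∫ y, h y * a y ∂κ ≤ c) : ‖a‖ ≤ c := by
  classical
  have := h (fun y => if 0 ≤ a y then 1 else -1) (Measurable.ite
    (measurableSet_le measurable_const (Lp.stronglyMeasurable a).measurable) measurable_const
    measurable_const) fun y => by split_ifs <;> simp
  rw [L1.norm_eq_integral_norm]
  refine le_trans (le_of_eq (integral_congr_ae (ae_of_all _ fun y => ?_))) this
  beta_reduce
  split_ifs with hy
  · rw [Real.norm_of_nonneg hy, one_mul]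
  · rw [Real.norm_of_nonpos (not_le.1 hy).le, neg_one_mul]

lemma exists_left_inv {X : Type*} [NormedAddCommGroup X] [NormedSpace ℝ X] [CompleteSpace X]
    (U : X →L[ℝ] X) (h : ∀ x, ‖x - U x‖ ≤ 1 / 2 * ‖x‖) : ∃ V : X →L[ℝ] X, ∀ x, V (U x) = x := by
  have h1 : ‖(1 : X →L[ℝ] X) - U‖ < 1 :=
    (ContinuousLinearMap.opNorm_le_bound _ (by norm_num) h).trans_lt (by norm_num)
  refine ⟨↑(Units.oneSub _ h1)⁻¹, fun x => ?_⟩
  have := congrArg (fun T : X →L[ℝ] X => T x) (Units.oneSub _ h1).inv_mul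
  simpa using this

lemma exists_small_set (κ τ : Measure ℝ) [IsFiniteMeasure τ] (hκ : κ univ ≠ 0)
    (hτ : ∀ y, τ {y} = 0) {ε : ENNReal} (hε : 0 < ε) :
    ∃ E, MeasurableSet E ∧ κ E ≠ 0 ∧ τ E < ε := by
  by_contra hc
  push Not at hc
  refine hκ (measure_null_of_locally_null _ fun y _ => ?_)
  obtain ⟨U, h1, h2, h3⟩ := Set.exists_isOpen_lt_of_lt (μ := τ) {y} ε (by rwa [hτ])
  refine ⟨U, mem_nhdsWithin_of_mem_nhds (h2.mem_nhds (h1 rfl)), ?_⟩
  by_contra h
  exact absurd h3 (not_lt.2 (hc U h2.measurableSet h))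

theorem exists_copy (μ : Measure ℝ) [IsFiniteMeasure μ] (P : Lp ℝ 1 μ →L[ℝ] Lp ℝ 1 μ)
    (a b : Kernel ℝ ℝ) [IsFiniteKernel a] [IsFiniteKernel b] {d : ℝ → ℝ → ℝ}
    (d1 : Measurable (Function.uncurry d)) (d2 : ∀ s, Integrable (d s) μ)
    (hP : ∀ (x : Lp ℝ 1 μ) (h : ℝ → ℝ) (C : ℝ), Measurable h → (∀ u, |h u| ≤ C) →
      ∫ u, h u * P x u ∂μ =
        ∫ s, x s * (∫ u, h u ∂a s - ∫ u, h u ∂b s + ∫ u, h u * d s u ∂μ) ∂μ)
    {G : Set ℝ} {ψ σ : ℝ → ℝ} (hG : MeasurableSet G) (hG0 : μ G ≠ 0) (hψ : Measurable ψ)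
    (hσ : Measurable σ) (hσ1 : ∀ s, |σ s| ≤ 1) (hat : ∀ y, μ (G ∩ ψ ⁻¹' {y}) = 0)
    (hl : ∀ s ∈ G, ∀ h : ℝ → ℝ, Measurable h → (∀ y, |h y| ≤ 1) →
      |σ s * (∫ u, h (ψ u) * σ u ∂a s - ∫ u, h (ψ u) * σ u ∂b s) - h (ψ s)| ≤ 1 / 4) :
    ∃ (j : L01 →L[ℝ] Lp ℝ 1 μ) (q : Lp ℝ 1 μ →L[ℝ] L01), ∀ g, q (P (j g)) = g := by
  obtain ⟨A, k, a1, -, a3, a4, a5⟩ := exists_pieces μ d d1 d2 (ε := 1 / 8) (by norm_num)
  obtain ⟨i, hi⟩ : ∃ i, μ (G ∩ A i) ≠ 0 := by
    by_contra hc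
    push Not at hc
    apply hG0
    rw [← inter_univ G, ← a3, inter_iUnion]
    exact measure_iUnion_null hc
  have mG := hG.inter (a1 i)
  set κ₁ := (μ.restrict (G ∩ A i)).map ψ with hκ₁
  have k1 : ∀ N, MeasurableSet N → κ₁ N = μ (ψ ⁻¹' N ∩ (G ∩ A i)) := fun N hN => by
    rw [hκ₁, Measure.map_apply hψ hN, Measure.restrict_apply (hψ hN)]
  obtain ⟨E₀, e1, e2, e3⟩ := Measure.mutuallySingular_singularPart (μ.map ψ) κ₁
  have k2 : ∀ N, κ₁ N = 0 → μ.map ψ (N ∩ E₀) = 0 := fun N hN => by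
    rw [Measure.haveLebesgueDecomposition_add (μ.map ψ) κ₁, Measure.add_apply,
      measure_mono_null inter_subset_right e2, withDensity_absolutelyContinuous _ _
        (measure_mono_null inter_subset_left hN), add_zero]
  have k3 : ∀ y, κ₁ {y} = 0 := fun y => by
    rw [k1 _ (measurableSet_singleton y)]
    exact measure_mono_null (fun s hs => mem_inter hs.2.1 hs.1) (hat y)
  obtain ⟨δ, δ0, hδ⟩ := exists_pos_setLIntegral_lt_of_measure_lt (μ := μ)
    (f := fun u => ‖k i u‖ₑ) (a4 i).2.ne (ε := ENNReal.ofReal (1 / 8)) (by simp)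
  obtain ⟨E₁, f1, f2, f3⟩ := exists_small_set κ₁ ((μ.map ψ).restrict E₀)
    (by rw [k1 _ MeasurableSet.univ, preimage_univ, univ_inter]; exact hi)
    (fun y => by rw [Measure.restrict_apply (measurableSet_singleton y), k2 _ (k3 y)]) δ0
  have mE := f1.inter e1
  set E := E₁ ∩ E₀ with hE
  have small : ∫ u in ψ ⁻¹' E, |k i u| ∂μ ≤ 1 / 8 := by
    rw [Measure.restrict_apply f1, Measure.map_apply hψ mE] at f3
    have := integral_norm_eq_lintegral_enorm (μ := μ.restrict (ψ ⁻¹' E)) (a4 i).1.restrict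
    exact this.le.trans (ENNReal.toReal_le_of_le_ofReal (by norm_num) (hδ _ f3).le)
  have mG2 := mG.inter (hψ mE)
  set κ := (μ.restrict (G ∩ A i ∩ ψ ⁻¹' E)).map ψ with hκ
  have k4 : ∀ N, MeasurableSet N → κ N = κ₁ (N ∩ E) := fun N hN => by
    rw [hκ, Measure.map_apply hψ hN, Measure.restrict_apply (hψ hN), k1 _ (hN.inter mE),
      preimage_inter (s := N), inter_comm (G ∩ A i), inter_assoc]
  obtain ⟨j, q, hq⟩ := exists_compl_L01 κ (fun h => f2 (by
      have := k4 _ MeasurableSet.univ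
      rw [h, univ_inter, hE, measure_inter_conull e3] at this
      exact this.symm))
    fun y => by
      rw [k4 _ (measurableSet_singleton y)]
      exact measure_mono_null inter_subset_left (k3 y)
  obtain ⟨J, hJ⟩ := exists_pull μ mG2 hψ hσ hσ1
  obtain ⟨S, hS⟩ := exists_push μ κ (hψ mE) hψ (Measure.AbsolutelyContinuous.mk fun N hN h => by
    rw [k4 N hN] at h
    have := k2 _ h
    rw [inter_assoc, inter_eq_left.2 (inter_subset_right : E ⊆ E₀),
      Measure.map_apply hψ (hN.inter mE)] at this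
    rwa [Measure.map_apply hψ hN, Measure.restrict_apply (hψ hN)]) hσ hσ1
  obtain ⟨V, hV⟩ := exists_left_inv (S ∘L P ∘L J) fun g => norm_le_of_test _ fun h hm h1 => by
    have m1 : Measurable (E.indicator h) := hm.indicator mE
    have b1 : ∀ y, |E.indicator h y| ≤ 1 := fun y =>
      (norm_indicator_le_norm_self h y).trans (h1 y)
    set H : ℝ → ℝ := fun u => E.indicator h (ψ u) * σ u with hH
    have m2 : Measurable H := (m1.comp hψ).mul hσ
    have b2 : ∀ u, |H u| ≤ 1 := fun u => by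
      rw [hH, abs_mul]
      exact mul_le_one₀ (b1 _) (abs_nonneg _) (hσ1 _)
    have hb : BM H := ⟨m2, 1, b2⟩
    set T : ℝ → ℝ := fun s => ∫ u, H u ∂a s - ∫ u, H u ∂b s + ∫ u, H u * d s u ∂μ with hT
    have m3 : Measurable T := ((hb.kint a).sub (hb.kint b)).1.add
      (StronglyMeasurable.integral_prod_right (f := fun s u => H u * d s u)
        ((m2.comp measurable_snd).mul d1).stronglyMeasurable).measurable
    have b3 : ∀ s ∈ G ∩ A i ∩ ψ ⁻¹' E, |h (ψ s) - σ s * T s| ≤ 1 / 2 := by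
      intro s hs
      have c1 := hl s hs.1.1 _ m1 b1
      rw [indicator_of_mem (show ψ s ∈ E from hs.2)] at c1
      have c2 := (LS_le (μ := μ) b2 ((d2 s).sub (a4 i))).trans (a5 i s hs.1.2)
      have c3 : |∫ u, H u * k i u ∂μ| ≤ 1 / 8 := by
        refine le_trans ?_ small
        rw [← integral_indicator (hψ mE)]
        refine norm_integral_le_of_norm_le (f := fun u => H u * k i u)
          ((a4 i).abs.indicator (hψ mE)) (ae_of_all _ fun u => ?_)
        by_cases hu : u ∈ ψ ⁻¹' E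
        · rw [indicator_of_mem hu, norm_mul]
          exact mul_le_of_le_one_left (norm_nonneg _) (b2 u)
        · simp [hH, indicator_of_notMem hu, indicator_of_notMem (show ψ u ∉ E from hu)]
      simp only [Pi.sub_apply, mul_sub] at c2
      rw [integral_sub (test_int (d2 s) m2 b2) (test_int (a4 i) m2 b2)] at c2
      have c4 : |σ s * ∫ u, H u * d s u ∂μ| ≤ 1 / 4 := by
        rw [abs_mul]
        refine (mul_le_of_le_one_left (abs_nonneg _) (hσ1 s)).trans ?_
        rw [abs_le] at c2 c3 ⊢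
        constructor <;> linarith [c2.1, c2.2, c3.1, c3.2]
      rw [hT, mul_add]
      rw [abs_le] at c1 c4 ⊢
      constructor <;> linarith [c1.1, c1.2, c4.1, c4.2]
    have ig : Integrable (fun s => g (ψ s)) (μ.restrict (G ∩ A i ∩ ψ ⁻¹' E)) :=
      (integrable_map_measure (Lp.aestronglyMeasurable g) hψ.aemeasurable).1 (L1.integrable_coeFn g)
    have b4 : ∀ᵐ s ∂μ.restrict (G ∩ A i ∩ ψ ⁻¹' E), ‖h (ψ s) - σ s * T s‖ ≤ 1 / 2 :=
      (ae_restrict_mem mG2).mono b3
    have i1 := ig.bdd_mul (f := fun s => h (ψ s) - σ s * T s)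
      ((hm.comp hψ).sub (hσ.mul m3)).aestronglyMeasurable b4
    have i2 := test_int (h := fun s => h (ψ s)) ig (hm.comp hψ) fun s => h1 (ψ s)
    have c1 : ∫ y, h y * S (P (J g)) y ∂κ =
        ∫ s in G ∩ A i ∩ ψ ⁻¹' E, (h (ψ s) * g (ψ s) - (h (ψ s) - σ s * T s) * g (ψ s)) ∂μ := by
      rw [hS _ h 1 hm h1, ← integral_indicator (hψ mE), ← integral_indicator mG2]
      have c2 : (ψ ⁻¹' E).indicator (fun s => h (ψ s) * (σ s * P (J g) s)) =
          fun s => H s * P (J g) s := by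
        funext s
        by_cases hs : s ∈ ψ ⁻¹' E
        · simp only [hH, indicator_of_mem hs, indicator_of_mem (show ψ s ∈ E from hs), mul_assoc]
        · simp [hH, indicator_of_notMem hs, indicator_of_notMem (show ψ s ∉ E from hs)]
      rw [c2, hP _ H 1 m2 b2]
      refine integral_congr_ae ?_
      filter_upwards [hJ g] with s hs
      rw [hs]
      by_cases h' : s ∈ G ∩ A i ∩ ψ ⁻¹' E
      · rw [indicator_of_mem h', indicator_of_mem h']
        ring
      · rw [indicator_of_notMem h', indicator_of_notMem h', zero_mul]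
    obtain ⟨φ, hφ⟩ := test_clm κ hm h1
    have c2 : ∫ y, h y * g y ∂κ = ∫ s in G ∩ A i ∩ ψ ⁻¹' E, h (ψ s) * g (ψ s) ∂μ :=
      integral_map hψ.aemeasurable (test_int (L1.integrable_coeFn g) hm h1).1
    have c3 : ‖g‖ = ∫ s in G ∩ A i ∩ ψ ⁻¹' E, ‖g (ψ s)‖ ∂μ := by
      rw [L1.norm_eq_integral_norm]
      exact integral_map hψ.aemeasurable (Lp.aestronglyMeasurable g).norm
    rw [← hφ, map_sub, hφ, hφ, ContinuousLinearMap.comp_apply, ContinuousLinearMap.comp_apply, c1,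
      c2, integral_sub i2 i1, sub_sub_cancel, c3, ← integral_const_mul]
    refine integral_mono_ae i1 (ig.norm.const_mul _) (b4.mono fun s hs => ?_)
    refine (le_abs_self _).trans ?_
    rw [abs_mul]
    exact mul_le_mul_of_nonneg_right hs (abs_nonneg _)
  exact ⟨J ∘L j, q ∘L V ∘L S, fun g => (congrArg q (hV (j g))).trans (hq g)⟩

theorem near_representable (P R : L01 →L[ℝ] L01) (hP : ∀ x, P (P x) = P x) (g : ℝ → L01)
    (hg : MemLp g ⊤ mu01) (hR : ∀ x, R x = ∫ s, x s • g s ∂mu01) (hn : ‖P - R‖ ≤ 1 + 1 / 10 ^ 6)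
    (hX : ¬ FiniteDimensional ℝ P.range) :
    Nonempty (P.range ≃L[ℝ] L01) ∨ Nonempty (P.range ≃L[ℝ] ell1) := by
  have hfix : ∀ x : P.range, P x = x := by
    rintro ⟨_, y, rfl⟩
    exact hP y
  have hcl : IsClosed (P.range : Set L01) := by
    have : (P.range : Set L01) = {x | P x = x} :=
      Set.ext fun x => ⟨fun h => hfix ⟨x, h⟩, fun h => ⟨x, h⟩⟩
    rw [this]
    exact isClosed_eq P.continuous continuous_id
  have := hcl.completeSpace_coe
  set p : L01 →L[ℝ] P.range := P.codRestrict _ fun x => ⟨x, rfl⟩ with hp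
  have hpi : ∀ x : P.range, p (P.range.subtypeL x) = x := fun x => Subtype.ext (hfix x)
  obtain ⟨a, b, d, C, a1, b1, hs, hM, hN, hI, d1, d2, d3, hrep⟩ :=
    exists_split mu01 P R hP g hg hR
  by_cases h0 : ∀ᵐ s ∂mu01, a s = 0 ∧ b s = 0
  · right
    obtain ⟨S, T, hST⟩ := exists_factor_ell1 mu01 d d1 d2 d3 P (fun x h C hm hC => by
      rw [hrep x h C hm hC]
      refine integral_congr_ae ?_
      filter_upwards [h0] with s hs
      simp [hs.1, hs.2]) (ε := 1 / (2 * (‖P‖ + 1))) (by positivity)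
    obtain ⟨V, hV⟩ := exists_left_inv (p ∘L T ∘L S ∘L P.range.subtypeL) fun x => by
      have e1 : ‖x - (p ∘L T ∘L S ∘L P.range.subtypeL) x‖ = ‖P (P x - T (S x))‖ := by
        rw [map_sub, hP, hfix]
        rfl
      have e2 : ‖P‖ * (1 / (2 * (‖P‖ + 1))) ≤ 1 / 2 := by
        rw [mul_one_div, div_le_div_iff₀ (by positivity) (by norm_num)]
        linarith
      rw [e1]
      refine (P.le_opNorm _).trans ((mul_le_mul_of_nonneg_left (hST x) (norm_nonneg _)).trans ?_)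
      rw [← mul_assoc]
      exact mul_le_mul_of_nonneg_right e2 (norm_nonneg _)
    exact ell1_prime (S ∘L P.range.subtypeL) (V ∘L p ∘L T) hV hX
  · left
    obtain ⟨G, ψ, σ, g1, g2, g3, g4, g5, g6, g7⟩ :=
      exists_signed_label mu01 a b hs (fun s => (hM s).trans hn) hN hI h0
    obtain ⟨j, q, hq⟩ := exists_copy mu01 P a b d1 d2 hrep g1 g2 g3 g4 g5 g6 g7
    exact pelczynski_L01 P.range.subtypeL p hpi (p ∘L j) (q ∘L P.range.subtypeL) hq

end Pool.Agent.Lib.MP_f99ede_an
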