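import Mathlib

open MeasureTheory Set

namespace Pool.Agent.Lib.MP_f99ede_an

/-- Lebesgue measure on `[0,1]`, as a measure on the line. -/
noncomputable abbrev mu01 : Measure ℝ := volume.restrict (Icc (0:ℝ) 1)

/-- The real space `L₁[0,1]`. -/
noncomputable abbrev L01 := Lp ℝ 1 mu01

/-- The real sequence space `ℓ₁`. -/
noncomputable abbrev ell1 := lp (fun _ : ℕ => ℝ) 1

end Pool.Agent.Lib.MP_f99ede_an
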