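import Pool.Agent.Lib.MP_f99ede_an.Defs

open MeasureTheory

namespace Pool.Agent.Lib.MP_f99ede_an

/-- Bounded linear operators on a real normed space. -/
abbrev Op (E : Type) [NormedAddCommGroup E] [NormedSpace ℝ E] := E →L[ℝ] E

/-- `P` is a projection onto the subspace `X`. -/
def IsProjectionOnto {E : Type} [NormedAddCommGroup E] [NormedSpace ℝ E] (P : Op E)
    (X : Submodule ℝ E) : Prop :=
  (∀ x, P x ∈ X) ∧ ∀ x ∈ X, P x = x

/-- The operator norm distance. -/
noncomputable def opDist {E : Type} [NormedAddCommGroup E] [NormedSpace ℝ E] (P R : Op E) : ℝ :=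
  ‖P - R‖

/-- The map `R` on `L₁[0,1]` is integration against an essentially bounded `E`-valued function. -/
def IsRepresentable {E : Type} [NormedAddCommGroup E] [NormedSpace ℝ E] (R : L01 → E) : Prop :=
  ∃ g : ℝ → E, MemLp g ⊤ mu01 ∧ ∀ x : L01, R x = ∫ s, x s • g s ∂mu01

/-- The subspace `X` is isomorphic, as a topological vector space, to `F`. -/
def IsomorphicTo {E : Type} [NormedAddCommGroup E] [NormedSpace ℝ E] (X : Submodule ℝ E)
    (F : Type) [NormedAddCommGroup F] [NormedSpace ℝ F] : Prop :=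
  Nonempty (X ≃L[ℝ] F)

end Pool.Agent.Lib.MP_f99ede_an
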