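import Pool.Agent.Lib.MP_f99ede_an.H80Main

/-! The projection itself, with the two non-embedding properties of its range. -/

open MeasureTheory

namespace Pool.Agent.Lib.MP_f99ede_an

theorem main_proj : ∃ P : L01 →L[ℝ] L01, (∀ f, P (P f) = P f) ∧
    ¬FiniteDimensional ℝ (LinearMap.range (P : L01 →ₗ[ℝ] L01)) ∧
    (∀ (T : L01 →L[ℝ] LinearMap.range (P : L01 →ₗ[ℝ] L01)) (c : ℝ), 0 < c →
      ¬∀ f, c * ‖f‖ ≤ ‖T f‖) ∧
    ∀ (T : LinearMap.range (P : L01 →ₗ[ℝ] L01) →L[ℝ] ell1) (c : ℝ), 0 < c →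
      ¬∀ x, c * ‖x‖ ≤ ‖T x‖ := by
  obtain ⟨P0, y, c, hP0, hN0, hy, hc, hcy⟩ := exists_cube
  obtain ⟨e⟩ := exists_equiv
  let u : LC →L[ℝ] L01 := e.toContinuousLinearEquiv
  let v : L01 →L[ℝ] LC := e.symm.toContinuousLinearEquiv
  let P : L01 →L[ℝ] L01 := (u ∘L P0) ∘L v
  have hP : ∀ z, P (P z) = P z := fun z => by simp [P, u, v, hP0]
  have hN : Nul P := (hN0.left u).right v
  let X : Submodule ℝ L01 := LinearMap.range (P : L01 →ₗ[ℝ] L01)
  have hX : ∀ x : X, P x = x := by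
    rintro ⟨_, z, rfl⟩
    exact hP z
  let p : L01 →L[ℝ] X := P.codRestrict X fun z => ⟨z, rfl⟩
  have hx : Up fun j => p (u (y j)) := (hy.map u).map p
  have hcx : ∀ j, c ≤ ‖p (u (y j))‖ := fun j => by
    change c ≤ ‖P (u (y j))‖
    simpa [P, u, v] using hcy j
  refine ⟨P, hP, hx.not_finite hc hcx, fun T a ha hT => ?_, fun T a ha hT => ?_⟩
  · refine hN.not_below (X.subtypeL ∘L T ∘L u) (c := a) ha fun f => ?_
    have h2 : ‖u f‖ = ‖f‖ := by simp [u]
    change _ ≤ ‖P (T (u f) : X)‖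
    rw [hX, ← h2]
    exact hT (u f)
  · exact (hx.map T).not_ell1 (c := a * c) (by positivity) fun j =>
      (mul_le_mul_of_nonneg_left (hcx j) ha.le).trans (hT _)

theorem below_of_equiv {A B : Type*} [NormedAddCommGroup A] [NormedSpace ℝ A]
    [NormedAddCommGroup B] [NormedSpace ℝ B] (i : A ≃L[ℝ] B) :
    ∃ c : ℝ, 0 < c ∧ ∀ x, c * ‖x‖ ≤ ‖i x‖ := by
  refine ⟨1 / (‖(i.symm : B →L[ℝ] A)‖ + 1), by positivity, fun x => ?_⟩
  have h1 := (i.symm : B →L[ℝ] A).le_opNorm (i x)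
  have h2 : (i.symm : B →L[ℝ] A) (i x) = x := i.symm_apply_apply x
  rw [h2] at h1
  rw [div_mul_eq_mul_div, one_mul, div_le_iff₀ (by positivity)]
  nlinarith [norm_nonneg (i x)]

theorem range_complete {P : L01 →L[ℝ] L01} (hP : ∀ f, P (P f) = P f) :
    CompleteSpace (LinearMap.range (P : L01 →ₗ[ℝ] L01)) := by
  have : IsClosed ((LinearMap.range (P : L01 →ₗ[ℝ] L01) : Submodule ℝ L01) : Set L01) := by
    have e : ((LinearMap.range (P : L01 →ₗ[ℝ] L01) : Submodule ℝ L01) : Set L01)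
        = {f | P f = f} := by
      ext f
      constructor
      · rintro ⟨z, rfl⟩
        exact hP z
      · exact fun h => ⟨f, h⟩
    rw [e]
    exact isClosed_eq P.continuous continuous_id
  exact this.completeSpace_coe

end Pool.Agent.Lib.MP_f99ede_an
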