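import Pool.Agent.Lib.MP_f99ede_an.H80Nul
import Pool.Agent.Lib.MP_f99ede_an.PelH78Swindle

/-! The projection onto an interpolation space inside an `ℓ₁`-sum. -/

open Finset Filter Topology

namespace Pool.Agent.Lib.MP_f99ede_an

variable {Z : Type*} [NormedAddCommGroup Z] [NormedSpace ℝ Z] [CompleteSpace Z]

theorem SelfSum.tail (S : SelfSum Z) (z : Z) (N : ℕ) {τ : ℕ → ℝ} (hτ : Summable τ)
    (h : ∀ k, ‖S.K k z‖ ≤ τ k) : ‖z - ∑ k ∈ range N, S.J k (S.K k z)‖ ≤ ∑' k, τ (k + N) := by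
  have h0 : ∀ k, ‖S.J k (S.K k z)‖ ≤ τ k := fun k => (S.norm_J k _).trans (h k)
  have hs : Summable fun k => S.J k (S.K k z) := Summable.of_norm_bounded hτ h0
  have h1 : ∑' k, S.J k (S.K k z) = z := S.ext_K fun m => by
    rw [(S.K m).map_tsum hs, tsum_eq_single m fun n hn => S.KJ_ne _ _ _ (Ne.symm hn), S.KJ_same]
  have h2 := hs.sum_add_tsum_nat_add N
  rw [h1] at h2
  rw [← eq_sub_iff_add_eq'.2 h2]
  exact tsum_of_norm_bounded ((summable_nat_add_iff N).2 hτ).hasSum fun k => h0 _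

theorem SelfSum.nul (S : SelfSum Z) {W : Type*} [NormedAddCommGroup W] [NormedSpace ℝ W]
    {P : Z →L[ℝ] W} (h : ∀ k, Nul (P ∘L S.J k)) : Nul P := by
  refine Nul.of_approx fun V η hη => ?_
  have hb : ∀ k, BddAbove (Set.range (tot (S.K k ∘L V))) := fun k =>
    ⟨_, by rintro _ ⟨n, rfl⟩; exact tot_le _ n⟩
  have hτ : Summable fun k => ⨆ n, tot (S.K k ∘L V) n := by
    refine summable_of_sum_range_le (c := ‖V‖) (fun k => le_trans
      (sum_nonneg fun _ _ => norm_nonneg _) (le_ciSup (hb k) 0)) fun N => ?_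
    refine le_of_tendsto' (tendsto_finsetSum _ fun k _ =>
      tendsto_atTop_ciSup (tot_mono (S.K k ∘L V)) (hb k)) fun n => le_trans ?_ (tot_le V n)
    unfold tot
    rw [sum_comm]
    exact sum_le_sum fun a _ => S.sum_K N _
  have h1 := (tendsto_sum_nat_add fun k => ⨆ n, tot (S.K k ∘L V) n).const_mul ‖P‖
  rw [mul_zero] at h1
  obtain ⟨N, hN⟩ := (h1.eventually (ge_mem_nhds hη)).exists
  refine ⟨∑ k ∈ range N, (P ∘L S.J k) ∘L S.K k, Nul.sum (fun k => (h k).right _) _, fun n T => ?_⟩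
  have h2 := S.tail (V (sig n T)) N hτ fun k =>
    (norm_sig_le (S.K k ∘L V) n T).trans (le_ciSup (hb k) n)
  have h3 := P.le_opNorm (V (sig n T) - ∑ k ∈ range N, S.J k (S.K k (V (sig n T))))
  rw [map_sub, map_sum] at h3
  simp only [_root_.sum_apply, ContinuousLinearMap.comp_apply]
  exact h3.trans ((mul_le_mul_of_nonneg_left h2 (norm_nonneg _)).trans hN)

theorem wt_sum (k N : ℕ) :
    ∑ l ∈ range N, (3 / 2 : ℝ) ^ l * min 1 (2 ^ k / 2 ^ l) ≤ 6 * (3 / 2) ^ k := by
  have h1 : ∀ N, ∑ l ∈ range N, (3 / 2 : ℝ) ^ l * min 1 (2 ^ k / 2 ^ l) ≤ 2 * (3 / 2) ^ N := by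
    intro N
    induction N with
    | zero => simp
    | succ n ih =>
      rw [sum_range_succ, pow_succ]
      have := mul_le_mul_of_nonneg_left (min_le_left (1 : ℝ) (2 ^ k / 2 ^ n))
        (show (0 : ℝ) ≤ (3 / 2) ^ n by positivity)
      linarith
  have h2 : ∀ i, ∑ l ∈ range (k + i), (3 / 2 : ℝ) ^ l * min 1 (2 ^ k / 2 ^ l) ≤
      6 * (3 / 2) ^ k - 4 * ((3 / 2) ^ k * (3 / 4) ^ i) := by
    intro i
    induction i with
    | zero => simpa using (h1 k).trans (le_of_eq (by ring))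
    | succ n ih =>
      rw [← add_assoc, sum_range_succ, pow_succ]
      have h3 := mul_le_mul_of_nonneg_left (min_le_right (1 : ℝ) (2 ^ k / 2 ^ (k + n)))
        (show (0 : ℝ) ≤ (3 / 2) ^ (k + n) by positivity)
      have h4 : (3 / 2 : ℝ) ^ (k + n) * (2 ^ k / 2 ^ (k + n)) = (3 / 2) ^ k * (3 / 4) ^ n := by
        rw [show (3 / 4 : ℝ) = 3 / 2 / 2 by norm_num, div_pow (3 / 2 : ℝ), pow_add, pow_add]
        field_simp
      linarith
  refine le_trans (sum_le_sum_of_subset_of_nonneg (range_subset_range.2 (Nat.le_add_left N k))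
    fun _ _ _ => by positivity) ((h2 N).trans ?_)
  have : (0 : ℝ) ≤ (3 / 2) ^ k * (3 / 4) ^ N := by positivity
  linarith

theorem wt_le (k N : ℕ) : (2 / 3 : ℝ) ^ k * min 1 (2 ^ k / 2 ^ N) ≤ (2 / 3) ^ N := by
  rcases le_total k N with h | h
  · refine (mul_le_mul_of_nonneg_left (min_le_right _ _) (by positivity)).trans ?_
    rw [← mul_div_assoc, ← mul_pow, div_le_iff₀ (by positivity), ← mul_pow]
    exact pow_le_pow_right₀ (by norm_num) h
  · refine (mul_le_mul_of_nonneg_left (min_le_left _ _) (by positivity)).trans ?_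
    rw [mul_one]
    exact pow_le_pow_of_le_one (by norm_num) (by norm_num) h

theorem exists_proj (S : SelfSum Z) (T : ℕ → Z →L[ℝ] Z) (C : ℝ) (h0 : T 0 = 0)
    (hc : ∀ k l, Commute (T k) (T l)) (h1 : ∀ k, ‖T k‖ ≤ C)
    (h2 : ∀ k l, ‖T k * (1 - T l)‖ ≤ C * (2 ^ k / 2 ^ l)) (hN : ∀ k, Nul (T k)) :
    ∃ P q : Z →L[ℝ] Z, (∀ z, P (P z) = P z) ∧ (∀ z, q (P z) = q z) ∧
      (∀ y, q (S.J 0 y) = T 1 y) ∧ Nul P := by
  have hC : 0 ≤ C := (norm_nonneg _).trans (h1 0)
  set a : ℕ → Z →L[ℝ] Z := fun k => T (k + 1) - T k with ha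
  set b : ℕ → Z →L[ℝ] Z := fun k => T (k + 1) + T k with hb
  set D := 4 * C ^ 2 + 5 * C with hD
  have hD0 : 0 ≤ D := by positivity
  have nb : ∀ k, ‖b k‖ ≤ 2 * C := fun k => (norm_add_le _ _).trans (by linarith [h1 k, h1 (k + 1)])
  have na : ∀ k, ‖a k‖ ≤ 2 * C := fun k => (norm_sub_le _ _).trans (by linarith [h1 k, h1 (k + 1)])
  have nb1 : ∀ k l, ‖b k * (1 - T l)‖ ≤ 3 * C * (2 ^ k / 2 ^ l) := fun k l => by
    rw [hb, add_mul]
    refine (norm_add_le _ _).trans ((add_le_add (h2 _ _) (h2 _ _)).trans (le_of_eq ?_))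
    ring
  have cTb : ∀ l k, Commute (T l) (b k) := fun l k => (hc _ _).add_right (hc _ _)
  have nab : ∀ l k, ‖a l * b k‖ ≤ D * min 1 (2 ^ k / 2 ^ l) := fun l k => by
    have k0 : (0 : ℝ) ≤ 2 ^ k / 2 ^ l := by positivity
    rw [mul_min_of_nonneg _ _ hD0]
    refine le_min ((norm_mul_le _ _).trans ?_) ?_
    · nlinarith [mul_le_mul (na l) (nb k) (norm_nonneg _) (by positivity)]
    · have e : a l * b k = b k * (1 - T l) - b k * (1 - T (l + 1)) := by
        rw [((cTb _ _).sub_left (cTb _ _)).eq]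
        noncomm_ring
      have k1 := nb1 k (l + 1)
      rw [pow_succ, ← div_div] at k1
      rw [e]
      refine (norm_sub_le _ _).trans ?_
      nlinarith [nb1 k l, mul_nonneg hC k0, mul_nonneg (sq_nonneg C) k0]
  have nTb : ∀ l k, ‖(1 - T l) * b k‖ ≤ D * min 1 (2 ^ k / 2 ^ l) := fun l k => by
    have k0 : (0 : ℝ) ≤ 2 ^ k / 2 ^ l := by positivity
    rw [mul_min_of_nonneg _ _ hD0]
    refine le_min ?_ ?_
    · rw [sub_mul, one_mul]
      refine (norm_sub_le _ _).trans ?_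
      nlinarith [mul_le_mul (h1 l) (nb k) (norm_nonneg _) hC, norm_mul_le (T l) (b k), nb k]
    · rw [((Commute.one_left _).sub_left (cTb _ _)).eq]
      nlinarith [nb1 k l, mul_nonneg hC k0, mul_nonneg (sq_nonneg C) k0]
  have nK : ∀ k z, ‖S.K k z‖ ≤ ‖z‖ := fun k z =>
    (single_le_sum (f := fun n => ‖S.K n z‖) (fun _ _ => norm_nonneg _)
      (self_mem_range_succ k)).trans (S.sum_K _ z)
  have hsum : Summable fun k => (2 / 3 : ℝ) ^ k • (b k ∘L S.K k) := by
    refine Summable.of_norm_bounded ((summable_geometric_of_lt_one (r := 2 / 3) (by norm_num)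
      (by norm_num)).mul_right (2 * C)) fun k => ?_
    rw [norm_smul, Real.norm_of_nonneg (by positivity)]
    refine mul_le_mul_of_nonneg_left (ContinuousLinearMap.opNorm_le_bound _ (by positivity)
      fun z => ((b k).le_of_opNorm_le (nb k) _).trans ?_) (by positivity)
    exact mul_le_mul_of_nonneg_left (nK k z) (by positivity)
  set q := ∑' k, (2 / 3 : ℝ) ^ k • (b k ∘L S.K k)
  have hq : ∀ z, HasSum (fun k => (2 / 3 : ℝ) ^ k • b k (S.K k z)) (q z) := fun z =>
    (ContinuousLinearMap.apply ℝ Z z).hasSum hsum.hasSum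
  have hU : ∀ (U : Z →L[ℝ] Z) (w : ℕ → ℝ), (∀ k, ‖U * b k‖ ≤ w k) → ∀ (M : ℕ) z,
      ‖U (∑ k ∈ range M, (2 / 3 : ℝ) ^ k • b k (S.K k z))‖ ≤
        ∑ k ∈ range M, (2 / 3 : ℝ) ^ k * w k * ‖S.K k z‖ := fun U w hw M z => by
    rw [map_sum]
    refine (norm_sum_le _ _).trans (sum_le_sum fun k _ => ?_)
    rw [map_smul, norm_smul, Real.norm_of_nonneg (by positivity), mul_assoc]
    exact mul_le_mul_of_nonneg_left ((U * b k).le_of_opNorm_le (hw k) _) (by positivity)
  obtain ⟨P, hP⟩ := S.synth (fun l => (3 / 2 : ℝ) ^ l • (a l ∘L q)) (6 * D) fun N z => by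
    refine le_of_tendsto' (tendsto_finsetSum (range N) fun l _ =>
      ((((a l).continuous.tendsto _).comp (hq z).tendsto_sum_nat).const_smul
        ((3 / 2 : ℝ) ^ l)).norm) fun M => ?_
    calc _ ≤ ∑ l ∈ range N, ∑ k ∈ range M, (3 / 2 : ℝ) ^ l *
            ((2 / 3 : ℝ) ^ k * (D * min 1 (2 ^ k / 2 ^ l)) * ‖S.K k z‖) := sum_le_sum fun l _ => by
          rw [norm_smul, Real.norm_of_nonneg (by positivity), ← mul_sum]
          exact mul_le_mul_of_nonneg_left (hU _ _ (nab l) M z) (by positivity)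
      _ ≤ ∑ k ∈ range M, 6 * D * ‖S.K k z‖ := by
          rw [sum_comm]
          refine sum_le_sum fun k _ => ?_
          have k1 : (3 / 2 : ℝ) ^ k * (2 / 3) ^ k = 1 := by rw [← mul_pow]; norm_num
          calc _ = (∑ l ∈ range N, (3 / 2 : ℝ) ^ l * min 1 (2 ^ k / 2 ^ l)) *
                ((2 / 3 : ℝ) ^ k * D * ‖S.K k z‖) := by
                rw [sum_mul]
                exact sum_congr rfl fun l _ => by ring
            _ ≤ 6 * (3 / 2) ^ k * ((2 / 3 : ℝ) ^ k * D * ‖S.K k z‖) :=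
                mul_le_mul_of_nonneg_right (wt_sum k N) (by positivity)
            _ = _ := by linear_combination 6 * D * ‖S.K k z‖ * k1
      _ ≤ _ := by
          rw [← mul_sum]
          exact mul_le_mul_of_nonneg_left (S.sum_K M z) (by positivity)
  replace hP : ∀ m z, S.K m (P z) = (3 / 2 : ℝ) ^ m • a m (q z) := hP
  have hT : ∀ N z, ‖(1 - T N) (q z)‖ ≤ D * (2 / 3) ^ N * ‖z‖ := fun N z => by
    refine le_of_tendsto' (((1 - T N).continuous.tendsto _).comp (hq z).tendsto_sum_nat).norm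
      fun M => (hU _ _ (nTb N) M z).trans ?_
    refine le_trans (sum_le_sum fun k _ => ?_) ((mul_sum _ _ _).ge.trans
      (mul_le_mul_of_nonneg_left (S.sum_K M z) (by positivity)))
    rw [mul_left_comm]
    exact mul_le_mul_of_nonneg_right (mul_le_mul_of_nonneg_left (wt_le k N) hD0) (norm_nonneg _)
  have hqP : ∀ z, q (P z) = q z := fun z => by
    refine tendsto_nhds_unique (hq (P z)).tendsto_sum_nat ?_
    have e : ∀ N, ∑ k ∈ range N, (2 / 3 : ℝ) ^ k • b k (S.K k (P z)) = T N (T N (q z)) := by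
      intro N
      induction N with
      | zero => simp [h0]
      | succ n ih =>
        have k1 : (2 / 3 : ℝ) ^ n * (3 / 2) ^ n = 1 := by rw [← mul_pow]; norm_num
        have k2 : T n (T (n + 1) (q z)) = T (n + 1) (T n (q z)) :=
          congrArg (fun U : Z →L[ℝ] Z => U (q z)) (hc n (n + 1)).eq
        rw [sum_range_succ, ih, hP, map_smul, smul_smul, k1, one_smul]
        simp only [ha, hb, _root_.add_apply, _root_.sub_apply, map_sub, k2]
        abel
    simp only [e]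
    rw [tendsto_iff_norm_sub_tendsto_zero]
    have k3 := ((tendsto_pow_atTop_nhds_zero_of_lt_one (r := (2 / 3 : ℝ)) (by norm_num)
      (by norm_num)).const_mul D).mul_const ‖z‖ |>.const_mul (C + 1)
    simp only [mul_zero, zero_mul] at k3
    refine squeeze_zero (fun _ => norm_nonneg _) (fun N => ?_) k3
    have k4 : T N (T N (q z)) - q z = -(T N ((1 - T N) (q z)) + (1 - T N) (q z)) := by simp
    rw [k4, norm_neg]
    refine (norm_add_le _ _).trans ?_
    nlinarith [(T N).le_of_opNorm_le (h1 N) ((1 - T N) (q z)), hT N z,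
      mul_le_mul_of_nonneg_left (hT N z) hC]
  have hqJ : ∀ k y, q (S.J k y) = (2 / 3 : ℝ) ^ k • b k y := fun k y => by
    have := hasSum_single (f := fun m => (2 / 3 : ℝ) ^ m • b m (S.K m (S.J k y))) k
      fun m hm => by simp [S.KJ_ne _ _ _ hm]
    rw [S.KJ_same] at this
    exact (hq _).unique this
  refine ⟨P, q, fun z => S.ext_K fun m => by rw [hP, hP, hqP], hqP, fun y => by simp [hqJ, hb, h0],
    S.nul fun k => Nul.of_approx fun V η hη => ?_⟩
  have hτ : Summable fun l => D * (4 / 3) ^ k * ‖V‖ * (3 / 4 : ℝ) ^ l :=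
    (summable_geometric_of_lt_one (by norm_num) (by norm_num)).mul_left _
  obtain ⟨L, hL⟩ := ((tendsto_sum_nat_add fun l => D * (4 / 3) ^ k * ‖V‖ * (3 / 4 : ℝ) ^ l).eventually
    (ge_mem_nhds hη)).exists
  refine ⟨∑ l ∈ range L, (S.J l ∘L ((3 / 2 : ℝ) ^ l • (2 / 3 : ℝ) ^ k • a l)) ∘L b k,
    Nul.sum (fun l => ((hN _).add (hN _)).left _) _, fun n U => ?_⟩
  have k1 := S.tail (P (S.J k (V (sig n U)))) L hτ fun l => by
    have k2 := (a l * b k).le_of_opNorm_le
      ((nab l k).trans (mul_le_mul_of_nonneg_left (min_le_right _ _) hD0)) (V (sig n U))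
    have k3 := V.le_opNorm (sig n U)
    rw [norm_sig, mul_one] at k3
    rw [hP, hqJ, map_smul, norm_smul, norm_smul, Real.norm_of_nonneg (by positivity),
      Real.norm_of_nonneg (by positivity)]
    calc _ ≤ (3 / 2 : ℝ) ^ l * ((2 / 3) ^ k * (D * (2 ^ k / 2 ^ l) * ‖V‖)) := by
          gcongr
          exact k2.trans (by gcongr)
      _ = _ := by
          rw [show (4 / 3 : ℝ) = 2 / 3 * 2 by norm_num, show (3 / 4 : ℝ) = 3 / 2 / 2 by norm_num,
            mul_pow, div_pow (3 / 2 : ℝ)]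
          ring
  refine le_trans (le_of_eq ?_) (k1.trans hL)
  simp [hP, hqJ]

end Pool.Agent.Lib.MP_f99ede_an
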