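import Mathlib

/-! Walsh analysis on the infinite discrete cube. -/

open MeasureTheory Finset

namespace Pool.Agent.Lib.MP_f99ede_an

/-- The infinite cube. -/
abbrev Cube := ℕ → Bool

/-- The fair coin. -/
noncomputable def coin : Measure Bool := (2⁻¹ : ENNReal) • (Measure.dirac true + Measure.dirac false)

instance coin_prob : IsProbabilityMeasure coin := ⟨by
  simp only [coin, Measure.smul_apply, Measure.add_apply, measure_univ, smul_eq_mul]
  rw [one_add_one_eq_two, ENNReal.inv_mul_cancel (by simp) (by simp)]⟩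

/-- The product measure on the cube. -/
noncomputable def muC : Measure Cube := Measure.infinitePi fun _ => coin

instance muC_prob : IsProbabilityMeasure muC := by
  unfold muC
  infer_instance

/-- Continuous functions on the cube. -/
abbrev CC := C(Cube, ℝ)

/-- Flip of one coordinate. -/
def flp (j : ℕ) : C(Cube, Cube) where
  toFun x := Function.update x j (!x j)
  continuous_toFun := continuous_id.update j
    ((continuous_of_discreteTopology (f := fun b : Bool => !b)).comp (continuous_apply j))

theorem flp_apply (j : ℕ) (x : Cube) (i : ℕ) : flp j x i = if i = j then !x i else x i := by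
  change Function.update x j (!x j) i = _
  by_cases h : i = j
  · subst h
    simp
  · simp [h]

theorem flp_mp (j : ℕ) : MeasurePreserving (flp j) muC muC := by
  refine ⟨(flp j).continuous.measurable, ?_⟩
  have h := Measure.infinitePi_map_pi (fun _ : ℕ => coin)
    (f := fun i b => if i = j then !b else b) fun i => Measurable.of_discrete
  have h1 : (flp j : Cube → Cube) = fun x i => if i = j then !x i else x i := by
    funext x i
    exact flp_apply j x i
  rw [h1, muC, h]
  congr 1
  funext i
  by_cases hi : i = j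
  · simp only [hi, if_true, coin]
    rw [Measure.map_smul, Measure.map_add _ _ Measurable.of_discrete,
      Measure.map_dirac, Measure.map_dirac, add_comm]
    rfl
  · simp [hi]

theorem cc_int (f : CC) : Integrable f muC :=
  f.continuous.integrable_of_hasCompactSupport (HasCompactSupport.of_compactSpace _)

/-- Expectation. -/
noncomputable def Ex : CC →ₗ[ℝ] ℝ where
  toFun f := ∫ x, f x ∂muC
  map_add' f g := integral_add (cc_int f) (cc_int g)
  map_smul' c f := by
    simp only [ContinuousMap.smul_apply, RingHom.id_apply]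
    exact integral_smul c _

theorem Ex_apply (f : CC) : Ex f = ∫ x, f x ∂muC := rfl

theorem Ex_mono {f g : CC} (h : ∀ x, f x ≤ g x) : Ex f ≤ Ex g :=
  integral_mono (cc_int f) (cc_int g) h

theorem Ex_nonneg {f : CC} (h : ∀ x, 0 ≤ f x) : 0 ≤ Ex f := integral_nonneg h

theorem Ex_one : Ex 1 = 1 := by simp [Ex_apply]

theorem Ex_comp_flp (j : ℕ) (f : CC) : Ex (f.comp (flp j)) = Ex f := by
  have h := integral_map (μ := muC) (φ := flp j) (flp_mp j).measurable.aemeasurable
    (f := f) f.continuous.aestronglyMeasurable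
  rw [(flp_mp j).map_eq] at h
  exact h.symm

/-- Rademacher functions. -/
def rad (j : ℕ) : CC where
  toFun x := if x j then -1 else 1
  continuous_toFun := (continuous_of_discreteTopology
    (f := fun b : Bool => if b then (-1 : ℝ) else 1)).comp (continuous_apply j)

theorem rad_apply (j : ℕ) (x : Cube) : rad j x = if x j then -1 else 1 := rfl

theorem rad_sq (j : ℕ) (x : Cube) : rad j x * rad j x = 1 := by
  rw [rad_apply]
  split_ifs <;> norm_num

theorem rad_flp (j i : ℕ) (x : Cube) : rad i (flp j x) = if i = j then -rad i x else rad i x := by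
  simp only [rad_apply, flp_apply]
  by_cases h : i = j
  · cases x i <;> simp [h]
  · simp [h]

theorem Ex_rad_mul {j : ℕ} {f : CC} (h : ∀ x, f (flp j x) = f x) : Ex (rad j * f) = 0 := by
  have h1 := Ex_comp_flp j (rad j * f)
  have h2 : (rad j * f).comp (flp j) = -(rad j * f) := by
    ext x
    simp [rad_flp, h]
  rw [h2, map_neg] at h1
  linarith

/-- Walsh functions. -/
noncomputable def wal (S : Finset ℕ) : CC := ∏ j ∈ S, rad j

theorem wal_apply (S : Finset ℕ) (x : Cube) : wal S x = ∏ j ∈ S, rad j x := by simp [wal]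

theorem wal_flp (j : ℕ) (S : Finset ℕ) (x : Cube) :
    wal S (flp j x) = (if j ∈ S then -1 else 1) * wal S x := by
  simp only [wal_apply]
  by_cases h : j ∈ S
  · rw [← mul_prod_erase S _ h, ← mul_prod_erase S (fun i => rad i x) h, rad_flp,
      prod_congr rfl (g := fun i => rad i x) fun i hi => by rw [rad_flp, if_neg (ne_of_mem_erase hi)]]
    simp [h]
  · rw [if_neg h, one_mul]
    exact prod_congr rfl fun i hi => by rw [rad_flp, if_neg fun e : i = j => h (e ▸ hi)]

/-- Walsh polynomials in the coordinates of `s`. -/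
noncomputable def pol (s : Finset ℕ) (c : Finset ℕ → ℝ) : CC := ∑ S ∈ s.powerset, c S • wal S

theorem pol_apply (s : Finset ℕ) (c : Finset ℕ → ℝ) (x : Cube) :
    pol s c x = ∑ S ∈ s.powerset, c S * wal S x := by simp [pol]

theorem pol_flp {j : ℕ} {s : Finset ℕ} (h : j ∉ s) (c : Finset ℕ → ℝ) (x : Cube) :
    pol s c (flp j x) = pol s c x := by
  simp only [pol_apply]
  refine sum_congr rfl fun S hS => ?_
  rw [wal_flp, if_neg fun e => h (mem_powerset.1 hS e), one_mul]

theorem pol_empty (c : Finset ℕ → ℝ) (x : Cube) : pol ∅ c x = c ∅ := by simp [pol_apply, wal]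

theorem pol_insert {j : ℕ} {s : Finset ℕ} (h : j ∉ s) (c : Finset ℕ → ℝ) (x : Cube) :
    pol (insert j s) c x = pol s c x + rad j x * pol s (fun S => c (insert j S)) x := by
  simp only [pol_apply]
  rw [sum_powerset_insert h, mul_sum]
  congr 1
  refine sum_congr rfl fun S hS => ?_
  rw [wal_apply, prod_insert fun e => h (mem_powerset.1 hS e), wal_apply]
  ring

theorem parseval (s : Finset ℕ) : ∀ c d : Finset ℕ → ℝ,
    Ex (pol s c * pol s d) = ∑ S ∈ s.powerset, c S * d S := by
  induction s using Finset.induction_on with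
  | empty =>
    intro c d
    have : pol ∅ c * pol ∅ d = (c ∅ * d ∅) • (1 : CC) := by
      ext x
      simp [pol_empty]
    rw [this, map_smul, Ex_one]
    simp
  | insert j s h ih =>
    intro c d
    set c' := fun S => c (insert j S)
    set d' := fun S => d (insert j S)
    have : pol (insert j s) c * pol (insert j s) d = pol s c * pol s d + pol s c' * pol s d' +
        rad j * (pol s c * pol s d' + pol s c' * pol s d) := by
      ext x
      simp only [ContinuousMap.mul_apply, ContinuousMap.add_apply, pol_insert h]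
      linear_combination (pol s c' x * pol s d' x) * rad_sq j x
    rw [this, map_add, map_add, ih, ih, Ex_rad_mul fun x => by simp [pol_flp h], add_zero,
      sum_powerset_insert h]

theorem hyper (s : Finset ℕ) : ∀ c d : Finset ℕ → ℝ,
    Ex (pol s c ^ 2 * pol s d ^ 2) ≤
      (∑ S ∈ s.powerset, 3 ^ S.card * c S ^ 2) * ∑ S ∈ s.powerset, 3 ^ S.card * d S ^ 2 := by
  induction s using Finset.induction_on with
  | empty =>
    intro c d
    have : pol ∅ c ^ 2 * pol ∅ d ^ 2 = (c ∅ ^ 2 * d ∅ ^ 2) • (1 : CC) := by
      ext x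
      simp [pol_empty]
    rw [this, map_smul, Ex_one]
    simp
  | insert j s h ih =>
    intro c d
    set c' := fun S => c (insert j S) with hc'
    set d' := fun S => d (insert j S) with hd'
    have e : ∀ c : Finset ℕ → ℝ, ∑ S ∈ (insert j s).powerset, 3 ^ S.card * c S ^ 2 =
        ∑ S ∈ s.powerset, 3 ^ S.card * c S ^ 2 +
          3 * ∑ S ∈ s.powerset, 3 ^ S.card * c (insert j S) ^ 2 := fun c => by
      rw [sum_powerset_insert h, mul_sum]
      congr 1
      refine sum_congr rfl fun S hS => ?_
      rw [card_insert_of_notMem fun e => h (mem_powerset.1 hS e)]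
      ring
    have h1 : Ex (pol (insert j s) c ^ 2 * pol (insert j s) d ^ 2) ≤
        Ex (pol s c ^ 2 * pol s d ^ 2 + (3 : ℝ) • (pol s c ^ 2 * pol s d' ^ 2) +
          (3 : ℝ) • (pol s c' ^ 2 * pol s d ^ 2) + pol s c' ^ 2 * pol s d' ^ 2 +
          rad j * ((2 : ℝ) • (pol s c * pol s c' * (pol s d ^ 2 + pol s d' ^ 2) +
            pol s d * pol s d' * (pol s c ^ 2 + pol s c' ^ 2)))) := by
      refine Ex_mono fun x => ?_
      simp only [ContinuousMap.mul_apply, ContinuousMap.add_apply, ContinuousMap.pow_apply,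
        ContinuousMap.smul_apply, smul_eq_mul, pol_insert h, rad_apply, ← hc', ← hd']
      split_ifs <;> nlinarith [sq_nonneg (pol s c x * pol s d' x - pol s c' x * pol s d x)]
    rw [map_add, Ex_rad_mul fun x => by simp [pol_flp h], add_zero] at h1
    simp only [map_add, map_smul, smul_eq_mul] at h1
    rw [e c, e d]
    have h2 : 0 ≤ (∑ S ∈ s.powerset, 3 ^ S.card * c' S ^ 2) *
        ∑ S ∈ s.powerset, 3 ^ S.card * d' S ^ 2 := by positivity
    nlinarith [ih c d, ih c d', ih c' d, ih c' d']

theorem exists_pol (s : Finset ℕ) : ∀ f : Cube → ℝ, DependsOn f s → ∃ c, ∀ x, f x = pol s c x := by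
  induction s using Finset.induction_on with
  | empty =>
    intro f hf
    exact ⟨fun _ => f fun _ => true, fun x => by rw [pol_empty]; exact hf (by simp)⟩
  | insert j s h ih =>
    intro f hf
    have h0 : ∀ b, DependsOn (fun x => f (Function.update x j b)) s := fun b x y hxy => by
      refine hf fun i hi => ?_
      by_cases e : i = j
      · simp [e]
      · simp only [Function.update_of_ne e]
        exact hxy i (by simpa [e] using hi)
    obtain ⟨c0, hc0⟩ := ih (fun x => (f (Function.update x j false) + f (Function.update x j true)) / 2)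
      fun x y hxy => by simp only [h0 false hxy, h0 true hxy]
    obtain ⟨c1, hc1⟩ := ih (fun x => (f (Function.update x j false) - f (Function.update x j true)) / 2)
      fun x y hxy => by simp only [h0 false hxy, h0 true hxy]
    refine ⟨fun S => if j ∈ S then c1 (S.erase j) else c0 S, fun x => ?_⟩
    have e0 : pol s (fun S => if j ∈ S then c1 (S.erase j) else c0 S) x = pol s c0 x := by
      simp only [pol_apply]
      exact sum_congr rfl fun S hS => by rw [if_neg fun e => h (mem_powerset.1 hS e)]
    have e1 : pol s (fun S => if j ∈ insert j S then c1 ((insert j S).erase j)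
        else c0 (insert j S)) x = pol s c1 x := by
      simp only [pol_apply]
      exact sum_congr rfl fun S hS => by
        rw [if_pos (mem_insert_self _ _), erase_insert fun e => h (mem_powerset.1 hS e)]
    rw [pol_insert h, e0, e1, ← hc0, ← hc1, rad_apply]
    have hx : f x = f (Function.update x j (x j)) := by rw [Function.update_eq_self]
    rw [hx]
    cases x j <;> simp <;> ring

/-- The low degree part of a bounded function of small `L₁` norm carries little energy. -/
theorem level_le (s : Finset ℕ) (c : Finset ℕ → ℝ) (d : ℕ) {M t : ℝ} (hM : 0 < M) (ht : 0 < t)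
    (hb : ∀ x, |pol s c x| ≤ M) :
    ∑ S ∈ s.powerset, (if S.card ≤ d then c S else 0) ^ 2 ≤
      2 * t * Ex |pol s c| + 9 ^ d * M ^ 3 / (64 * t ^ 3) * Ex |pol s c| ^ 2 := by
  set c' := fun S => if S.card ≤ d then c S else 0 with hc'
  set N := ∑ S ∈ s.powerset, c' S ^ 2 with hN
  set a := Ex |pol s c|
  have hsq : ∀ x, pol s c x ^ 2 ≤ M * |pol s c x| := fun x => by
    rw [← sq_abs, sq]
    exact mul_le_mul_of_nonneg_right (hb x) (abs_nonneg _)
  have h1 : N = Ex (pol s c * pol s c') := by
    rw [parseval]
    refine sum_congr rfl fun S _ => ?_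
    simp only [hc']
    split_ifs <;> ring
  have h2 : N ≤ M * a := by
    calc N ≤ ∑ S ∈ s.powerset, c S * c S := sum_le_sum fun S _ => by
          simp only [hc']
          split_ifs <;> nlinarith [sq_nonneg (c S)]
      _ = Ex (pol s c * pol s c) := (parseval s c c).symm
      _ ≤ Ex (M • |pol s c|) := Ex_mono fun x => by simpa [sq] using hsq x
      _ = M * a := by rw [map_smul, smul_eq_mul]
  have h3 : ∑ S ∈ s.powerset, 3 ^ S.card * c' S ^ 2 ≤ 3 ^ d * N := by
    rw [hN, mul_sum]
    refine sum_le_sum fun S _ => ?_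
    simp only [hc']
    split_ifs with h
    · exact mul_le_mul_of_nonneg_right (pow_le_pow_right₀ (by norm_num) h) (sq_nonneg _)
    · simp
  have hN0 : 0 ≤ N := by positivity
  have h4 : Ex (pol s c' ^ 2 * pol s c' ^ 2) ≤ 9 ^ d * (M * a) ^ 2 := by
    refine (hyper s c' c').trans ?_
    have h5 : 0 ≤ ∑ S ∈ s.powerset, 3 ^ S.card * c' S ^ 2 := by positivity
    calc _ ≤ (3 ^ d * N) * (3 ^ d * N) := mul_le_mul h3 h3 h5 (by positivity)
      _ = 9 ^ d * N ^ 2 := by rw [show (9 : ℝ) = 3 * 3 by norm_num, mul_pow]; ring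
      _ ≤ _ := by gcongr
  have h6 : Ex (pol s c * pol s c') ≤
      Ex ((2 * t) • |pol s c| + (M / (64 * t ^ 3)) • (pol s c' ^ 2 * pol s c' ^ 2)) := by
    refine Ex_mono fun x => ?_
    simp only [ContinuousMap.mul_apply, ContinuousMap.add_apply, ContinuousMap.pow_apply,
      ContinuousMap.smul_apply, smul_eq_mul, ContinuousMap.abs_apply]
    have k1 := hb x
    set u := pol s c x
    set p := pol s c' x
    have k2 : u * p ≤ |u| * |p| := by rw [← abs_mul]; exact le_abs_self _
    have k3 : |p| ≤ 2 * t + p ^ 2 * p ^ 2 / (64 * t ^ 3) := by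
      rw [← sq_abs p, ← sub_le_iff_le_add', le_div_iff₀ (by positivity)]
      set q := |p|
      nlinarith [sq_nonneg (q ^ 2 - 8 * t ^ 2), sq_nonneg (q - 2 * t), sq_nonneg t,
        mul_nonneg (sq_nonneg t) (sq_nonneg (q - 2 * t))]
    have k4 : |u| * (p ^ 2 * p ^ 2 / (64 * t ^ 3)) ≤ M * (p ^ 2 * p ^ 2 / (64 * t ^ 3)) := by gcongr
    have k5 := mul_le_mul_of_nonneg_left k3 (abs_nonneg u)
    have k6 : M / (64 * t ^ 3) * (p ^ 2 * p ^ 2) = M * (p ^ 2 * p ^ 2 / (64 * t ^ 3)) := by ring
    nlinarith
  rw [map_add, map_smul, map_smul, smul_eq_mul, smul_eq_mul, ← h1] at h6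
  have h7 : M / (64 * t ^ 3) * Ex (pol s c' ^ 2 * pol s c' ^ 2) ≤
      M / (64 * t ^ 3) * (9 ^ d * (M * a) ^ 2) := by gcongr
  calc N ≤ 2 * t * a + M / (64 * t ^ 3) * (9 ^ d * (M * a) ^ 2) := by linarith
    _ = _ := by ring

end Pool.Agent.Lib.MP_f99ede_an
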