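import Pool.Agent.Lib.MP_f99ede_an.H80Nul

/-! The resolvents kill random signs. -/

open MeasureTheory Finset Filter Topology

namespace Pool.Agent.Lib.MP_f99ede_an

theorem exists_clamp (f : LC) {M τ : ℝ} (hM : 0 < M) (hτ : 0 < τ) :
    ∃ (s : Finset ℕ) (g : CC), DependsOn g s ∧ (∀ x, |g x| ≤ M) ∧ Ex |g| ≤ ‖f‖ + τ ∧
      ‖f - toL g‖ ≤ τ + ∫ x, max (|f x| - M) 0 ∂muC := by
  obtain ⟨s, h, hs, hh⟩ := exists_cyl f hτ
  let g : CC := ⟨fun x => max (-M) (min M (h x)), by fun_prop⟩
  have hg : ∀ x, g x = max (-M) (min M (h x)) := fun _ => rfl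
  have hf := L1.integrable_coeFn f
  refine ⟨s, g, fun x y e => by rw [hg, hg, hs e], fun x => ?_, ?_, ?_⟩
  · rw [hg, abs_le]
    exact ⟨le_max_left _ _, max_le (by linarith) (min_le_left _ _)⟩
  · have h1 : Ex |g| ≤ Ex |h| := Ex_mono fun x => by
      simp only [ContinuousMap.abs_apply, hg, max_def, min_def]
      split_ifs <;> simp only [abs_neg, abs_of_pos hM, le_refl] <;>
        linarith [le_abs_self (h x), neg_abs_le (h x)]
    have h2 := norm_sub_norm_le (toL h) f
    rw [norm_sub_rev, norm_toL] at h2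
    linarith
  · have hi : Integrable (fun x => max (|f x| - M) 0) muC :=
      (hf.abs.sub (integrable_const M)).sup (integrable_zero _ _ _)
    refine le_trans ?_ (add_le_add_left hh _)
    rw [L1.norm_eq_integral_norm, L1.norm_eq_integral_norm,
      ← integral_add (L1.integrable_coeFn _).norm hi]
    refine integral_mono_ae (L1.integrable_coeFn _).norm ((L1.integrable_coeFn _).norm.add hi) ?_
    filter_upwards [Lp.coeFn_sub f (toL g), Lp.coeFn_sub f (toL h), toL_ae g, toL_ae h]
      with x h1 h2 h3 h4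
    rw [h1, h2, Pi.sub_apply, Pi.sub_apply, h3, h4, hg, Real.norm_eq_abs, Real.norm_eq_abs]
    have k1 := le_max_left (|f x| - M) 0
    have k2 := le_max_right (|f x| - M) 0
    have k3 := le_abs_self (f x)
    have k4 := neg_abs_le (f x)
    have k5 := le_abs_self (f x - h x)
    have k6 := neg_abs_le (f x - h x)
    rw [abs_le, max_def (-M), min_def M]
    split_ifs <;> constructor <;> linarith

theorem improving {l : ℝ} (hl : 0 < l) {R : LC →L[ℝ] LC} (hR1 : ‖R‖ ≤ 1)
    (hR : ∀ S, R (toL (wal S)) = mlt l S • toL (wal S)) {M B η : ℝ} (hM : 0 < M) (hB : 0 ≤ B)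
    (hη : 0 < η) : ∃ δ > 0, ∀ (I : Finset (Finset ℕ)) (f : Finset ℕ → LC), (∀ a ∈ I, ‖f a‖ ≤ δ) →
      ∑ a ∈ I, ‖f a‖ ≤ B → (I.powerset.expect fun T => ‖R (∑ a ∈ I, sg T a • f a)‖) ≤
        η + ∫ x, max (∑ a ∈ I, |f a x| - M) 0 ∂muC := by
  obtain ⟨δ, hδ, h0⟩ := energy_le hl hM (show 0 < η ^ 2 / (4 * (B + 1)) by positivity)
  refine ⟨δ / 2, half_pos hδ, fun I f hf hfB => ?_⟩
  set τ := min (δ / 2) (min 1 (η / 2) / (I.card + 1)) with hτ
  have hτ0 : 0 < τ := by positivity
  have hτ1 : I.card * τ ≤ min 1 (η / 2) := by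
    have h1 : τ ≤ min 1 (η / 2) / (I.card + 1) := min_le_right _ _
    rw [le_div_iff₀ (by positivity)] at h1
    nlinarith
  choose s g hs hgM hg1 hg2 using fun a => exists_clamp (f a) hM hτ0
  have hc : ∀ a, ∃ c, a ∈ I → g a = pol (I.biUnion s) c := fun a => by
    by_cases h : a ∈ I
    · obtain ⟨c, hc⟩ := exists_pol (I.biUnion s) (g a)
        ((hs a).mono (coe_subset.2 (subset_biUnion_of_mem s h)))
      exact ⟨c, fun _ => ContinuousMap.ext hc⟩
    · exact ⟨0, fun e => absurd e h⟩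
  choose c hc using hc
  set p : Finset ℕ → CC := fun a => pol (I.biUnion s) fun S => mlt l S * c a S with hp
  have h1 : ∑ a ∈ I, Ex (p a * p a) ≤ η ^ 2 / 4 := by
    calc _ ≤ ∑ a ∈ I, η ^ 2 / (4 * (B + 1)) * (‖f a‖ + τ) := sum_le_sum fun a ha => by
          refine (h0 _ _ (hc a ha ▸ hgM a) ?_).trans ?_
          · rw [← hc a ha]
            linarith [hg1 a, hf a ha, min_le_left (δ / 2) (min 1 (η / 2) / (I.card + 1))]
          · rw [← hc a ha]
            exact mul_le_mul_of_nonneg_left (hg1 a) (by positivity)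
      _ ≤ η ^ 2 / (4 * (B + 1)) * (B + 1) := by
          rw [← mul_sum, sum_add_distrib, sum_const, nsmul_eq_mul]
          exact mul_le_mul_of_nonneg_left (by linarith [min_le_left 1 (η / 2)]) (by positivity)
      _ = _ := by field_simp
  have hi : ∀ a, Integrable (fun x => max (|f a x| - M) 0) muC := fun a =>
    ((L1.integrable_coeFn (f a)).abs.sub (integrable_const M)).sup (integrable_zero _ _ _)
  have h2 : ∑ a ∈ I, ‖f a - toL (g a)‖ ≤ η / 2 + ∫ x, max (∑ a ∈ I, |f a x| - M) 0 ∂muC := by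
    refine (sum_le_sum fun a _ => hg2 a).trans ?_
    rw [sum_add_distrib, sum_const, nsmul_eq_mul, ← integral_finsetSum _ fun a _ => hi a]
    refine add_le_add (hτ1.trans (min_le_right _ _)) (integral_mono
      (integrable_finsetSum _ fun a _ => hi a) (((integrable_finsetSum _ fun a _ =>
        (L1.integrable_coeFn (f a)).abs).sub (integrable_const M)).sup (integrable_zero _ _ _))
      fun x => sum_max_le I _ hM.le)
  set F : Finset (Finset ℕ) → CC := fun T => ∑ a ∈ I, sg T a • p a with hF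
  have h3 : ∀ T, ‖R (∑ a ∈ I, sg T a • f a)‖ ≤
      (η / 4 + ∑ a ∈ I, ‖f a - toL (g a)‖) + η⁻¹ * Ex (F T * F T) := fun T => by
    have k1 : R (∑ a ∈ I, sg T a • f a) = toL (F T) + R (∑ a ∈ I, sg T a • (f a - toL (g a))) := by
      simp only [hF, map_sum, map_smul, ← sum_add_distrib]
      refine sum_congr rfl fun a ha => ?_
      rw [hp, ← res_pol hR, ← hc a ha, map_sub, ← smul_add, add_sub_cancel]
    have k2 : ‖R (∑ a ∈ I, sg T a • (f a - toL (g a)))‖ ≤ ∑ a ∈ I, ‖f a - toL (g a)‖ := by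
      refine (R.le_of_opNorm_le hR1 _).trans ?_
      rw [one_mul]
      refine (norm_sum_le _ _).trans (sum_le_sum fun a _ => ?_)
      rw [norm_smul, Real.norm_eq_abs, abs_sg, one_mul]
    have k3 : Ex |F T| ≤ Ex ((η / 4) • 1 + η⁻¹ • (F T * F T)) := Ex_mono fun x => by
      simp only [ContinuousMap.abs_apply, ContinuousMap.add_apply, ContinuousMap.smul_apply,
        ContinuousMap.mul_apply, ContinuousMap.one_apply, smul_eq_mul, mul_one]
      rw [← abs_mul_abs_self, ← sub_le_iff_le_add', le_inv_mul_iff₀ hη]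
      nlinarith [sq_nonneg (|F T x| - η / 2)]
    rw [map_add, map_smul, map_smul, Ex_one, smul_eq_mul, smul_eq_mul, ← norm_toL] at k3
    rw [k1]
    linarith [norm_add_le (toL (F T)) (R (∑ a ∈ I, sg T a • (f a - toL (g a))))]
  have h4 : (I.powerset.expect fun T => Ex (F T * F T)) = ∑ a ∈ I, Ex (p a * p a) := by
    have k1 : ∑ T ∈ I.powerset, F T * F T = (2 ^ I.card : ℝ) • ∑ a ∈ I, p a * p a := by
      ext x
      simpa [hF, sq] using sum_sg_sq I fun a => p a x
    rw [expect_eq_sum_div_card, ← map_sum, k1, map_smul, map_sum, card_powerset, smul_eq_mul]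
    push_cast
    field_simp
  refine (expect_le_expect fun T _ => h3 T).trans ?_
  rw [expect_add_distrib, expect_const (powerset_nonempty _), ← mul_expect, h4]
  have h5 : η⁻¹ * ∑ a ∈ I, Ex (p a * p a) ≤ η / 4 := by
    rw [inv_mul_le_iff₀ hη]
    linarith
  linarith

theorem nul_res {l : ℝ} (hl : 0 < l) {R : LC →L[ℝ] LC} (hR1 : ‖R‖ ≤ 1)
    (hR : ∀ S, R (toL (wal S)) = mlt l S • toL (wal S)) : Nul R := fun V η hη => by
  obtain ⟨M, hM, h1⟩ := unif_int (μ := muC)
    (g := fun n x => ∑ a ∈ (range n).powerset, |V (toL (cyl n a)) x|)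
    (fun n => integrable_finsetSum _ fun a _ => (L1.integrable_coeFn _).abs) (fun n => by
      have k : ∀ᵐ x ∂muC, ∀ a ∈ (range n).powerset, V (toL (cyl n a)) x =
          V (toL (cyl (n + 1) a)) x + V (toL (cyl (n + 1) (insert n a))) x := by
        refine (eventually_all_finset _).2 fun a ha => ?_
        rw [cyl_split ha, map_add, map_add]
        exact Lp.coeFn_add _ _
      filter_upwards [k] with x hx
      rw [range_add_one, sum_powerset_insert notMem_range_self, ← sum_add_distrib]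
      refine sum_le_sum fun a ha => ?_
      rw [hx a ha]
      exact abs_add_le _ _) (B := ‖V‖) (fun n => by
      rw [integral_finsetSum _ fun a _ => (L1.integrable_coeFn _).abs]
      refine le_trans (le_of_eq (sum_congr rfl fun a _ => ?_)) (tot_le V n)
      rw [L1.norm_eq_integral_norm]
      rfl) (half_pos hη)
  obtain ⟨δ, hδ, h2⟩ := improving hl hR1 hR hM (norm_nonneg V) (half_pos hη)
  have h3 : Tendsto (fun n : ℕ => ‖V‖ * (1 / 2) ^ n) atTop (𝓝 0) := by
    simpa using (tendsto_pow_atTop_nhds_zero_of_lt_one (r := (1 / 2 : ℝ)) (by norm_num)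
      (by norm_num)).const_mul ‖V‖
  filter_upwards [h3.eventually (ge_mem_nhds hδ)] with n hn
  have h4 := h2 (range n).powerset (fun a => V (toL (cyl n a)))
    (fun a _ => (V.le_opNorm _).trans (by rwa [norm_cyl])) (tot_le V n)
  simp only [sig, map_sum V, map_smul V]
  linarith [h1 n]

end Pool.Agent.Lib.MP_f99ede_an
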