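import Pool.Agent.Lib.MP_f99ede_an.Defs
import Pool.Agent.Lib.MP_f99ede_an.PelH78Swindle

/-! Basic facts on operators from and to `ℓ₁`. -/

namespace Pool.Agent.Lib.MP_f99ede_an

open Finset

theorem e1_hasSum (f : ell1) : HasSum (fun k => |f k|) ‖f‖ := by
  have h := lp.hasSum_norm (p := 1) (by simp) f
  simpa using h

theorem e1_sum_le (f : ell1) (s : Finset ℕ) : ∑ k ∈ s, |f k| ≤ ‖f‖ :=
  sum_le_hasSum s (fun _ _ => abs_nonneg _) (e1_hasSum f)

/-- The unit vectors of `ℓ₁`. -/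
noncomputable def e1u (k : ℕ) : ell1 := lp.single 1 k (1 : ℝ)

theorem norm_e1u (k : ℕ) : ‖e1u k‖ = 1 := by
  unfold e1u
  rw [lp.norm_single (by norm_num)]
  simp

theorem e1_single_eq (k : ℕ) (c : ℝ) : (lp.single 1 k c : ell1) = c • e1u k := by
  unfold e1u
  rw [← lp.single_smul]
  simp

theorem e1_hasSum_u (f : ell1) : HasSum (fun k => f k • e1u k) f := by
  have h := lp.hasSum_single (p := 1) (by simp) f
  simpa only [e1_single_eq] using h

/-- Coordinate functionals. -/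
noncomputable def e1c (k : ℕ) : ell1 →ₗ[ℝ] ℝ where
  toFun f := f k
  map_add' f g := by simp
  map_smul' c f := by simp [lp.coeFn_smul]

theorem e1c_apply (k : ℕ) (f : ell1) : e1c k f = f k := rfl

theorem e1_ofCoord {W : Type*} [NormedAddCommGroup W] [NormedSpace ℝ W]
    (φ : ℕ → W →ₗ[ℝ] ℝ) (C : ℝ) (hφ : ∀ (N : ℕ) w, ∑ n ∈ range N, |φ n w| ≤ C * ‖w‖) :
    ∃ T : W →L[ℝ] ell1, (∀ w n, T w n = φ n w) ∧ ∀ w, ‖T w‖ ≤ C * ‖w‖ := by
  have hs : ∀ w, Summable fun n => |φ n w| := fun w =>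
    summable_of_sum_range_le (fun _ => abs_nonneg _) (hφ · w)
  have hm : ∀ w, Memℓp (fun n => φ n w) 1 := fun w => by
    apply memℓp_gen
    simpa using hs w
  let L : W →ₗ[ℝ] ell1 :=
    { toFun := fun w => ⟨fun n => φ n w, hm w⟩
      map_add' := fun v w => by
        ext n
        simp
      map_smul' := fun c w => by
        ext n
        simp [lp.coeFn_smul] }
  have hL : ∀ w n, L w n = φ n w := fun w n => rfl
  have hb : ∀ w, ‖L w‖ ≤ C * ‖w‖ := fun w => by
    rw [← (e1_hasSum (L w)).tsum_eq]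
    exact Real.tsum_le_of_sum_range_le (fun _ => abs_nonneg _) (hφ · w)
  exact ⟨L.mkContinuous C hb, hL, hb⟩

theorem e1_norm_le {Y : Type*} [NormedAddCommGroup Y] [NormedSpace ℝ Y] (T : ell1 →L[ℝ] Y)
    {C : ℝ} (hT : ∀ k, ‖T (e1u k)‖ ≤ C) (a : ell1) : ‖T a‖ ≤ C * ‖a‖ := by
  have h1 : HasSum (fun k => T (a k • e1u k)) (T a) := (e1_hasSum_u a).mapL T
  have h2 : HasSum (fun k => C * |a k|) (C * ‖a‖) := (e1_hasSum a).mul_left C
  refine HasSum.norm_le_of_bounded h1 h2 fun k => ?_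
  rw [map_smul, norm_smul, Real.norm_eq_abs, mul_comm]
  exact mul_le_mul_of_nonneg_right (hT k) (abs_nonneg _)

theorem e1_lift {Y : Type*} [NormedAddCommGroup Y] [NormedSpace ℝ Y] [CompleteSpace Y]
    (v : ℕ → Y) {C : ℝ} (hv : ∀ k, ‖v k‖ ≤ C) :
    ∃ T : ell1 →L[ℝ] Y, ∀ k, T (e1u k) = v k := by
  have hb0 : ∀ (a : ell1) k, ‖a k • v k‖ ≤ C * |a k| := fun a k => by
    rw [norm_smul, Real.norm_eq_abs, mul_comm]
    exact mul_le_mul_of_nonneg_right (hv k) (abs_nonneg _)
  have hs : ∀ a : ell1, Summable fun k => a k • v k := fun a =>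
    Summable.of_norm_bounded ((e1_hasSum a).mul_left C).summable (hb0 a)
  let L : ell1 →ₗ[ℝ] Y :=
    { toFun := fun a => ∑' k, a k • v k
      map_add' := fun a b => by
        rw [← (hs a).tsum_add (hs b)]
        simp only [lp.coeFn_add, Pi.add_apply, add_smul]
      map_smul' := fun c a => by
        simp only [lp.coeFn_smul, Pi.smul_apply, RingHom.id_apply, smul_eq_mul, mul_smul]
        exact (hs a).tsum_const_smul c }
  have hb : ∀ a, ‖L a‖ ≤ C * ‖a‖ := fun a =>
    HasSum.norm_le_of_bounded (hs a).hasSum ((e1_hasSum a).mul_left C) (hb0 a)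
  refine ⟨L.mkContinuous C hb, fun k => ?_⟩
  change ∑' m, (e1u k) m • v m = v k
  rw [tsum_eq_single k]
  · simp [e1u]
  · intro m hm
    rw [e1u, lp.single_apply_ne _ _ _ hm, zero_smul]

theorem e1_dist_u (u : ell1) (n : ℕ) (h0 : 0 ≤ u n) (h1 : u n ≤ 1) :
    ‖u - e1u n‖ ≤ ‖u‖ + 1 - 2 * u n := by
  have h := lp.norm_compl_sum_single (p := 1) (by simp) u {n}
  simp only [sum_singleton, ENNReal.toReal_one, Real.rpow_one, Real.norm_eq_abs,
    e1_single_eq, abs_of_nonneg h0] at h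
  have e : u - e1u n = (u - u n • e1u n) + (u n - 1) • e1u n := by
    rw [sub_smul, one_smul]; abel
  rw [e]
  refine (norm_add_le _ _).trans ?_
  rw [h, norm_smul, norm_e1u, Real.norm_eq_abs, abs_of_nonpos (by linarith)]
  linarith

theorem nonempty_selfSum_ell1 : Nonempty (SelfSum ell1) := by
  have hK : ∀ n : ℕ, ∃ T : ell1 →L[ℝ] ell1, ∀ z k, T z k = z (Nat.pair n k) := fun n => by
    obtain ⟨T, hT, -⟩ := e1_ofCoord (fun k => e1c (Nat.pair n k)) 1 fun N z => by
      have hinj : Set.InjOn (Nat.pair n) (range N : Set ℕ) := fun a _ b _ h =>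
        (Nat.pair_eq_pair.mp h).2
      simp only [e1c_apply, one_mul]
      rw [← sum_image (f := fun m => |z m|) hinj]
      exact e1_sum_le z _
    exact ⟨T, hT⟩
  have hJ : ∀ n : ℕ, ∃ T : ell1 →L[ℝ] ell1,
      (∀ a m, T a m = if (Nat.unpair m).1 = n then a (Nat.unpair m).2 else 0) ∧
      ∀ a, ‖T a‖ ≤ ‖a‖ := fun n => by
    obtain ⟨T, hT, hb⟩ := e1_ofCoord
      (fun m => if (Nat.unpair m).1 = n then e1c (Nat.unpair m).2 else 0) 1 fun N a => by
      have e : ∀ m, |(if (Nat.unpair m).1 = n then e1c (Nat.unpair m).2 else 0) a| =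
          if (Nat.unpair m).1 = n then |a (Nat.unpair m).2| else 0 := fun m => by
        split_ifs <;> simp [e1c_apply]
      simp only [e, one_mul]
      rw [← sum_filter]
      have hinj : Set.InjOn (fun m => (Nat.unpair m).2)
          ((range N).filter fun m => (Nat.unpair m).1 = n : Finset ℕ) := by
        intro a ha b hb h
        have ha' := (mem_filter.mp (mem_coe.mp ha)).2
        have hb' := (mem_filter.mp (mem_coe.mp hb)).2
        rw [← Nat.pair_unpair a, ← Nat.pair_unpair b, ha', hb']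
        exact congrArg _ h
      rw [← sum_image (f := fun m => |a m|) hinj]
      exact e1_sum_le a _
    refine ⟨T, fun a m => ?_, fun a => by simpa using hb a⟩
    rw [hT]
    split_ifs <;> simp [e1c_apply]
  choose K hK using hK
  choose J hJ hJb using hJ
  refine ⟨⟨J, K, fun n z => ?_, fun m n z h => ?_, hJb, fun N z => ?_, fun z h => ?_⟩⟩
  · ext k
    rw [hK, hJ]; simp
  · ext k
    rw [hK, hJ]; simp [h]
  · have h1 : HasSum (fun q : ℕ × ℕ => |z (Nat.pair q.1 q.2)|) ‖z‖ :=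
      (Nat.pairEquiv.hasSum_iff (f := fun m => |z m|)).mpr (e1_hasSum z)
    have h2 : HasSum (fun n => ‖K n z‖) ‖z‖ := h1.prod_fiberwise fun n => by
      have := e1_hasSum (K n z)
      simpa only [hK] using this
    exact sum_le_hasSum _ (fun _ _ => norm_nonneg _) h2
  · ext m
    have := hK (Nat.unpair m).1 z (Nat.unpair m).2
    rw [h, Nat.pair_unpair] at this
    simpa using this.symm

end Pool.Agent.Lib.MP_f99ede_an
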