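import Pool.Agent.Lib.MP_f99ede_an.H80Imp
import Pool.Agent.Lib.MP_f99ede_an.H80Abs
import Pool.Agent.Lib.MP_f99ede_an.Pelczynski
import Pool.Agent.Lib.MP_f99ede_an.PrimeH78Basic
import Pool.Agent.Lib.MP_86b0a6_an.Iso

/-! A complemented subspace of `L₁[0,1]` that is isomorphic neither to `L₁[0,1]` nor to `ℓ₁`. -/

open MeasureTheory Finset Filter Topology

namespace Pool.Agent.Lib.MP_f99ede_an

theorem iso_lp {A B : Type*} [MeasurableSpace A] [MeasurableSpace B] {μ : Measure A}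
    {ν : Measure B} (e : MP_86b0a6_an.Iso μ ν) : Nonempty (Lp ℝ 1 ν ≃ₗᵢ[ℝ] Lp ℝ 1 μ) := by
  refine ⟨LinearIsometryEquiv.ofSurjective (Lp.compMeasurePreservingₗᵢ ℝ e.toFun e.mp) fun f =>
    ⟨Lp.compMeasurePreserving e.invFun e.mp_inv f, Lp.ext ?_⟩⟩
  filter_upwards [Lp.coeFn_compMeasurePreserving
    (Lp.compMeasurePreserving e.invFun e.mp_inv f) e.mp,
    e.mp.quasiMeasurePreserving.ae (Lp.coeFn_compMeasurePreserving f e.mp_inv), e.left]
    with x h1 h2 h3
  exact h1.trans (h2.trans (congrArg f h3))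

theorem muC_singleton (x : Cube) : muC {x} = 0 := by
  have h : ∀ n : ℕ, muC.real {x} ≤ (1 / 2) ^ n := fun n => by
    rw [← Ex_cyl ((range n).filter fun j => x j) n, ← integral_indicator_one (measurableSet_singleton x)]
    refine integral_mono ((integrable_const _).indicator (measurableSet_singleton x)) (cc_int _)
      fun y => ?_
    by_cases e : y = x
    · subst e
      rw [Set.indicator_of_mem (Set.mem_singleton y), cyl_apply]
      refine (prod_eq_one fun j hj => ?_).ge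
      simp only [sg, rad_apply, mem_filter, hj, true_and]
      split_ifs <;> norm_num
    · rw [Set.indicator_of_notMem (s := {x}) e]
      exact cyl_nonneg _ _ _
  have h1 := ge_of_tendsto' (tendsto_pow_atTop_nhds_zero_of_lt_one (r := (1 / 2 : ℝ))
    (by norm_num) (by norm_num)) h
  exact (measureReal_eq_zero_iff (by simp)).1 (le_antisymm h1 measureReal_nonneg)

theorem exists_equiv : Nonempty (LC ≃ₗᵢ[ℝ] L01) := by
  have : NullSingletonClass muC := ⟨muC_singleton⟩
  obtain ⟨e, he⟩ := exists_measurableEmbedding_real Cube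
  have : IsProbabilityMeasure (muC.map e) :=
    Measure.isProbabilityMeasure_map he.measurable.aemeasurable
  have : NullSingletonClass (muC.map e) := ⟨fun x => by
    rw [Measure.map_apply he.measurable (measurableSet_singleton x),
      (Set.subsingleton_singleton.preimage he.injective).measure_zero muC]⟩
  obtain ⟨i1, -⟩ := MP_86b0a6_an.exists_iso_near
    ((MP_86b0a6_an.measurePreserving_cdfI (muC.map e)).comp ⟨he.measurable, rfl⟩) one_pos
  obtain ⟨i2, -⟩ := MP_86b0a6_an.exists_iso_of_injOn unitInterval.measurePreserving_coe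
    MeasurableSet.univ (ae_of_all _ fun _ => trivial) Subtype.val_injective.injOn
  obtain ⟨e1⟩ := iso_lp i1
  obtain ⟨e2⟩ := iso_lp i2
  exact ⟨(e2.trans e1).symm⟩

theorem nonempty_selfSum_LC : Nonempty (SelfSum LC) := by
  obtain ⟨e⟩ := exists_equiv
  obtain ⟨S⟩ := nonempty_selfSum_L01
  let u : LC →L[ℝ] L01 := e.toContinuousLinearEquiv
  let v : L01 →L[ℝ] LC := e.symm.toContinuousLinearEquiv
  refine ⟨⟨fun n => v ∘L S.J n ∘L u, fun n => v ∘L S.K n ∘L u, fun n z => ?_, fun m n z h => ?_,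
    fun n z => ?_, fun N z => ?_, fun z h => ?_⟩⟩
  · simp [u, v, S.KJ_same]
  · simp [u, v, S.KJ_ne _ _ _ h]
  · simpa [u, v] using S.norm_J n (e z)
  · simpa [u, v] using S.sum_K N (e z)
  · simpa using S.inj (e z) fun n => by simpa [u, v] using h n

/-- An upper `ℓ₂` estimate. -/
def Up {Z : Type*} [NormedAddCommGroup Z] [NormedSpace ℝ Z] (y : ℕ → Z) : Prop :=
  ∃ C : ℝ, ∀ (F : Finset ℕ) (c : ℕ → ℝ), ‖∑ j ∈ F, c j • y j‖ ^ 2 ≤ C * ∑ j ∈ F, c j ^ 2

section

variable {Z W : Type*} [NormedAddCommGroup Z] [NormedSpace ℝ Z] [NormedAddCommGroup W]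
  [NormedSpace ℝ W]

theorem Up.map {y : ℕ → Z} (h : Up y) (A : Z →L[ℝ] W) : Up fun j => A (y j) := by
  obtain ⟨C, hC⟩ := h
  refine ⟨‖A‖ ^ 2 * C, fun F c => ?_⟩
  have h1 := A.le_opNorm (∑ j ∈ F, c j • y j)
  simp only [map_sum, map_smul] at h1
  refine (pow_le_pow_left₀ (norm_nonneg _) h1 2).trans ?_
  rw [mul_pow, mul_assoc]
  exact mul_le_mul_of_nonneg_left (hC F c) (sq_nonneg _)

theorem Up.weak {y : ℕ → Z} (h : Up y) (φ : Z →L[ℝ] ℝ) : Tendsto (fun j => φ (y j)) atTop (𝓝 0) := by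
  obtain ⟨C, hC⟩ := h.map φ
  have h1 : Summable fun j => φ (y j) ^ 2 := by
    refine summable_of_sum_le (c := max C 0) (fun _ => sq_nonneg _) fun F => ?_
    have h2 := hC F fun j => φ (y j)
    simp only [smul_eq_mul, ← sq, Real.norm_eq_abs, sq_abs] at h2
    by_contra h3
    rw [not_le, max_lt_iff] at h3
    nlinarith [h3.1, h3.2]
  have h2 := h1.tendsto_atTop_zero.sqrt
  simp only [Real.sqrt_sq_eq_abs, Real.sqrt_zero] at h2
  exact (tendsto_zero_iff_abs_tendsto_zero _).2 h2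

theorem Up.not_finite {y : ℕ → Z} (h : Up y) {c : ℝ} (hc : 0 < c) (hy : ∀ j, c ≤ ‖y j‖) :
    ¬FiniteDimensional ℝ Z := fun _ => by
  let e := (Module.finBasis ℝ Z).equivFunL
  have h1 : Tendsto (fun j => e (y j)) atTop (𝓝 0) := tendsto_pi_nhds.2 fun i =>
    h.weak ((ContinuousLinearMap.proj (φ := fun _ => ℝ) i) ∘L e.toContinuousLinearMap)
  have h2 := ((e.symm.continuous.tendsto _).comp h1).norm
  simp only [Function.comp_def, ContinuousLinearEquiv.symm_apply_apply, map_zero, norm_zero] at h2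
  exact absurd (ge_of_tendsto' h2 hy) (not_le.2 hc)

end

theorem Up.not_ell1 {y : ℕ → ell1} (h : Up y) {c : ℝ} (hc : 0 < c) (hy : ∀ j, c ≤ ‖y j‖) :
    False := by
  have hk : ∀ k, Tendsto (fun j => |y j k|) atTop (𝓝 0) := fun k => by
    simpa [e1c_apply] using (h.weak ((e1c k).mkContinuous 1 fun f => by
      simpa [e1c_apply] using lp.norm_apply_le_norm one_ne_zero f k)).abs
  have step : ∀ (z : ell1) (F : Finset ℕ), ∃ j ∉ F, ‖z‖ + c / 2 ≤ ‖z + y j‖ := fun z F => by
    obtain ⟨s, hs⟩ := ((e1_hasSum z).eventually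
      (lt_mem_nhds (show ‖z‖ - c / 8 < ‖z‖ by linarith))).exists
    have h1 := tendsto_finsetSum s fun k _ => hk k
    rw [sum_const_zero] at h1
    obtain ⟨j, hj1, hj2⟩ := ((h1.eventually (gt_mem_nhds (show 0 < c / 8 by linarith))).and
      (Nat.cofinite_eq_atTop ▸ F.eventually_cofinite_notMem)).exists
    have h2 : HasSum (fun k => if k ∈ s then 2 * (|z k| - |y j k|) else 0)
        (∑ k ∈ s, if k ∈ s then 2 * (|z k| - |y j k|) else 0) :=
      hasSum_sum_of_ne_finset_zero fun k hk => if_neg hk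
    rw [sum_congr rfl fun k hk => if_pos hk, ← mul_sum, sum_sub_distrib] at h2
    have h3 := hasSum_le (fun k => ?_) (((e1_hasSum (y j)).sub (e1_hasSum z)).add h2)
      (e1_hasSum (z + y j))
    · exact ⟨j, hj2, by linarith [hy j]⟩
    · have k1 := abs_sub (z k + y j k) (z k)
      have k2 := abs_sub (z k + y j k) (y j k)
      rw [add_sub_cancel_left] at k1
      rw [add_sub_cancel_right] at k2
      rw [lp.coeFn_add, Pi.add_apply]
      split_ifs <;> linarith
  have grow : ∀ m : ℕ, ∃ F : Finset ℕ, F.card = m ∧ m * (c / 2) ≤ ‖∑ j ∈ F, y j‖ := fun m => by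
    induction m with
    | zero => exact ⟨∅, rfl, by simp⟩
    | succ m ih =>
      obtain ⟨F, h1, h2⟩ := ih
      obtain ⟨j, h3, h4⟩ := step (∑ j ∈ F, y j) F
      refine ⟨insert j F, by rw [card_insert_of_notMem h3, h1], ?_⟩
      rw [sum_insert h3, add_comm (y j)]
      push_cast
      linarith
  obtain ⟨C, hC⟩ := h
  obtain ⟨m, hm⟩ := exists_nat_gt (max 0 (C / (c / 2) ^ 2))
  obtain ⟨F, h1, h2⟩ := grow m
  have h3 := hC F fun _ => 1
  simp only [one_smul, one_pow, sum_const, h1, nsmul_eq_mul, mul_one] at h3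
  rw [max_lt_iff, div_lt_iff₀ (by positivity)] at hm
  have h4 := pow_le_pow_left₀ (by positivity) h2 2
  nlinarith [hm.1, hm.2]

theorem up_rad : Up fun j => toL (rad j) := by
  refine ⟨1, fun F c => ?_⟩
  set f : CC := ∑ j ∈ F, c j • rad j with hf
  have h1 : ∑ j ∈ F, c j • toL (rad j) = toL f := by simp [hf]
  have h2 : ∀ i j, Ex (rad i * rad j) = if i = j then 1 else 0 := fun i j => by
    split_ifs with h
    · rw [← Ex_one, h]
      exact congrArg _ (ContinuousMap.ext (rad_sq j))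
    · exact Ex_rad_mul fun x => by rw [rad_flp, if_neg (Ne.symm h)]
  have h3 : Ex (f * f) = ∑ j ∈ F, c j ^ 2 := by
    simp only [hf, sum_mul_sum, map_sum, smul_mul_smul_comm, map_smul, h2, smul_eq_mul, mul_ite,
      mul_one, mul_zero, sum_ite_eq]
    exact sum_congr rfl fun j hj => by rw [if_pos hj, sq]
  have h4 : Ex ((2 * Ex |f|) • |f|) ≤ Ex (f * f + (Ex |f| ^ 2) • 1) := Ex_mono fun x => by
    simp only [ContinuousMap.abs_apply, ContinuousMap.add_apply, ContinuousMap.smul_apply,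
      ContinuousMap.mul_apply, ContinuousMap.one_apply, smul_eq_mul, mul_one]
    nlinarith [sq_nonneg (|f x| - Ex |f|), abs_mul_abs_self (f x)]
  rw [map_add, map_smul, map_smul, Ex_one, h3, smul_eq_mul, smul_eq_mul] at h4
  rw [h1, norm_toL]
  nlinarith

theorem exists_cube : ∃ (P : LC →L[ℝ] LC) (y : ℕ → LC) (c : ℝ), (∀ z, P (P z) = P z) ∧ Nul P ∧
    Up y ∧ 0 < c ∧ ∀ j, c ≤ ‖P (y j)‖ := by
  obtain ⟨S⟩ := nonempty_selfSum_LC
  choose R hR1 hR using fun k : ℕ => exists_res (show (0 : ℝ) < 2 ^ k by positivity)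
  have hc : ∀ k l, Commute (R k) (R l) := fun k l => ext_wal fun S => by
    simp [hR, smul_smul, mul_comm]
  have h1 : ∀ k, ‖1 - R k‖ ≤ 2 := fun k => (norm_sub_le _ _).trans (by
    linarith [hR1 k, ContinuousLinearMap.norm_id_le (𝕜 := ℝ) (E := LC),
      show ‖(1 : LC →L[ℝ] LC)‖ = ‖ContinuousLinearMap.id ℝ LC‖ from rfl])
  have h2 : ∀ k l, ‖R k * (1 - R l)‖ ≤ 2 * (2 ^ k / 2 ^ l) := fun k l => by
    have e : R k * (1 - R l) = (2 ^ k / 2 ^ l : ℝ) • (R l * (1 - R k)) := ext_wal fun S => by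
      simp only [_root_.smul_apply, mul_apply_eq_comp, _root_.sub_apply,
        one_apply_eq_self, map_sub, hR, map_smul, smul_smul, ← sub_smul]
      congr 1
      unfold mlt
      field_simp
      ring
    rw [e, norm_smul, Real.norm_of_nonneg (by positivity), mul_comm]
    refine mul_le_mul_of_nonneg_right ((norm_mul_le _ _).trans ?_) (by positivity)
    nlinarith [hR1 l, h1 k, norm_nonneg (R l), norm_nonneg (1 - R k)]
  obtain ⟨P, q, hP, hq, hJ, hN⟩ := exists_proj S (fun k => Nat.casesOn k 0 R) 2 rfl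
    (fun k l => by
      cases k
      · exact Commute.zero_left _
      · cases l
        · exact Commute.zero_right _
        · exact hc _ _)
    (fun k => by
      cases k
      · simp
      · exact (hR1 _).trans one_le_two)
    (fun k l => by
      cases k with
      | zero => simp
      | succ k =>
        cases l with
        | zero =>
          have : (1 : ℝ) ≤ 2 ^ (k + 1) := one_le_pow₀ one_le_two
          simp only [Nat.rec_zero, sub_zero, mul_one, pow_zero, div_one]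
          linarith [hR1 k]
        | succ l => exact (h2 k l).trans (le_of_eq (by field_simp; ring)))
    (fun k => by
      cases k
      · exact Nul.zero
      · exact nul_res (by positivity) (hR1 _) (hR _))
  refine ⟨P, fun j => S.J 0 (toL (rad j)), 1 / 2 / (‖q‖ + 1), hP, hN, up_rad.map _, by positivity,
    fun j => ?_⟩
  have h3 := q.le_opNorm (P (S.J 0 (toL (rad j))))
  have h4 : wal {j} = rad j := by simp [wal]
  have h5 : ‖toL (rad j)‖ = 1 := by
    rw [norm_toL, ← Ex_one]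
    congr 1
    ext x
    simp only [ContinuousMap.abs_apply, rad_apply]
    split_ifs <;> simp
  have h6 := hR 0 {j}
  rw [h4] at h6
  rw [hq, hJ] at h3
  change ‖R 0 _‖ ≤ _ at h3
  rw [h6, norm_smul, h5] at h3
  norm_num [mlt] at h3
  rw [div_le_iff₀ (by positivity)]
  nlinarith [norm_nonneg (P (S.J 0 (toL (rad j))))]

theorem main : ∃ X : Submodule ℝ L01, X.ClosedComplemented ∧ ¬FiniteDimensional ℝ X ∧
    ¬Nonempty (X ≃L[ℝ] L01) ∧ ¬Nonempty (X ≃L[ℝ] ell1) := by
  obtain ⟨P0, y, c, hP0, hN0, hy, hc, hcy⟩ := exists_cube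
  obtain ⟨e⟩ := exists_equiv
  let u : LC →L[ℝ] L01 := e.toContinuousLinearEquiv
  let v : L01 →L[ℝ] LC := e.symm.toContinuousLinearEquiv
  let P : L01 →L[ℝ] L01 := (u ∘L P0) ∘L v
  have hP : ∀ z, P (P z) = P z := fun z => by simp [P, u, v, hP0]
  have hN : Nul P := (hN0.left u).right v
  let X : Submodule ℝ L01 := LinearMap.range (P : L01 →ₗ[ℝ] L01)
  have hX : ∀ x : X, P x = x := by
    rintro ⟨_, z, rfl⟩
    exact hP z
  let p : L01 →L[ℝ] X := P.codRestrict X fun z => ⟨z, rfl⟩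
  have hx : Up fun j => p (u (y j)) := (hy.map u).map p
  have hcx : ∀ j, c ≤ ‖p (u (y j))‖ := fun j => by
    change c ≤ ‖P (u (y j))‖
    simpa [P, u, v] using hcy j
  refine ⟨X, ⟨p, fun x => Subtype.ext (hX x)⟩, hx.not_finite hc hcx, ?_, ?_⟩
  · rintro ⟨i⟩
    refine hN.not_below (X.subtypeL ∘L (i.symm : L01 →L[ℝ] X) ∘L u)
      (c := 1 / (‖(i : X →L[ℝ] L01)‖ + 1)) (by positivity) fun f => ?_
    have h1 := (i : X →L[ℝ] L01).le_opNorm (i.symm (u f))
    have h2 : ‖(i : X →L[ℝ] L01) (i.symm (u f))‖ = ‖f‖ := by simp [u]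
    change _ ≤ ‖P (i.symm (u f) : X)‖
    rw [hX, div_mul_eq_mul_div, one_mul, div_le_iff₀ (by positivity)]
    change _ ≤ ‖i.symm (u f)‖ * _
    nlinarith [norm_nonneg (i.symm (u f))]
  · rintro ⟨i⟩
    refine (hx.map (i : X →L[ℝ] ell1)).not_ell1 (c := c / (‖(i.symm : ell1 →L[ℝ] X)‖ + 1))
      (by positivity) fun j => ?_
    have h1 := (i.symm : ell1 →L[ℝ] X).le_opNorm (i (p (u (y j))))
    have h2 : (i.symm : ell1 →L[ℝ] X) (i (p (u (y j)))) = p (u (y j)) := i.symm_apply_apply _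
    rw [h2] at h1
    rw [div_le_iff₀ (by positivity)]
    change _ ≤ ‖i (p (u (y j)))‖ * _
    nlinarith [norm_nonneg (i (p (u (y j)))), hcx j]

end Pool.Agent.Lib.MP_f99ede_an
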