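import Pool.Agent.Lib.MP_f99ede_an.H80Res

/-! Random signs on the dyadic tree, and operators that kill them on average. -/

open MeasureTheory Finset Filter Topology

namespace Pool.Agent.Lib.MP_f99ede_an

/-- The sign pattern of a finite set. -/
def sg {ι : Type*} [DecidableEq ι] (T : Finset ι) (a : ι) : ℝ := if a ∈ T then -1 else 1

theorem abs_sg {ι : Type*} [DecidableEq ι] (T : Finset ι) (a : ι) : |sg T a| = 1 := by
  unfold sg
  split_ifs <;> simp

theorem sum_sg_sq {ι : Type*} [DecidableEq ι] (I : Finset ι) (x : ι → ℝ) :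
    ∑ T ∈ I.powerset, (∑ a ∈ I, sg T a * x a) ^ 2 = 2 ^ I.card * ∑ a ∈ I, x a ^ 2 := by
  induction I using Finset.induction_on with
  | empty => simp
  | insert j I h ih =>
    rw [sum_powerset_insert h, card_insert_of_notMem h, sum_insert h, ← sum_add_distrib]
    have h1 : ∀ T ∈ I.powerset, (∑ a ∈ insert j I, sg T a * x a) ^ 2 +
        (∑ a ∈ insert j I, sg (insert j T) a * x a) ^ 2 =
        2 * x j ^ 2 + 2 * (∑ a ∈ I, sg T a * x a) ^ 2 := fun T hT => by
      have h2 : ∑ a ∈ I, sg (insert j T) a * x a = ∑ a ∈ I, sg T a * x a :=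
        sum_congr rfl fun a ha => by
          have : a ≠ j := fun e => h (e ▸ ha)
          simp [sg, this]
      have h3 : j ∉ T := fun e => h (mem_powerset.1 hT e)
      rw [sum_insert h, sum_insert h, h2]
      simp only [sg, h3, mem_insert_self, if_true, if_false]
      ring
    rw [sum_congr rfl h1, sum_add_distrib, ← mul_sum, ← mul_sum, ih]
    simp only [sum_const, card_powerset, nsmul_eq_mul]
    push_cast
    ring

/-- Indicator functions of the cylinders of level `n`. -/
noncomputable def cyl (n : ℕ) (a : Finset ℕ) : CC :=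
  ∏ j ∈ range n, (1 / 2 : ℝ) • (1 + sg a j • rad j)

theorem cyl_apply (n : ℕ) (a : Finset ℕ) (x : Cube) :
    cyl n a x = ∏ j ∈ range n, 1 / 2 * (1 + sg a j * rad j x) := by simp [cyl, mul_add]

theorem cyl_succ (n : ℕ) (a : Finset ℕ) (x : Cube) :
    cyl (n + 1) a x = cyl n a x * (1 / 2 * (1 + sg a n * rad n x)) := by
  rw [cyl_apply, prod_range_succ, cyl_apply]

theorem cyl_insert (n : ℕ) (a : Finset ℕ) (x : Cube) : cyl n (insert n a) x = cyl n a x := by
  simp only [cyl_apply]
  exact prod_congr rfl fun j hj => by simp [sg, (mem_range.1 hj).ne]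

theorem cyl_nonneg (n : ℕ) (a : Finset ℕ) (x : Cube) : 0 ≤ cyl n a x := by
  rw [cyl_apply]
  refine prod_nonneg fun j _ => ?_
  simp only [sg, rad_apply]
  split_ifs <;> norm_num

theorem Ex_cyl (a : Finset ℕ) : ∀ n, Ex (cyl n a) = (1 / 2) ^ n
  | 0 => by simp [cyl, Ex_one]
  | n + 1 => by
    have h1 : cyl (n + 1) a = (1 / 2 : ℝ) • cyl n a + (sg a n / 2) • (rad n * cyl n a) := by
      ext x
      simp only [cyl_succ, ContinuousMap.add_apply, ContinuousMap.smul_apply,
        ContinuousMap.mul_apply, smul_eq_mul]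
      ring
    have h2 : ∀ x, cyl n a (flp n x) = cyl n a x := fun x => by
      simp only [cyl_apply]
      exact prod_congr rfl fun j hj => by rw [rad_flp, if_neg (mem_range.1 hj).ne]
    rw [h1, map_add, map_smul, map_smul, Ex_rad_mul h2, Ex_cyl a n]
    simp [pow_succ']

theorem norm_cyl (n : ℕ) (a : Finset ℕ) : ‖toL (cyl n a)‖ = (1 / 2) ^ n := by
  rw [norm_toL, abs_of_nonneg (a := cyl n a) (cyl_nonneg n a), Ex_cyl]

theorem cyl_split {n : ℕ} {a : Finset ℕ} (h : a ∈ (range n).powerset) :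
    cyl n a = cyl (n + 1) a + cyl (n + 1) (insert n a) := by
  have h1 : n ∉ a := fun e => by simpa using mem_powerset.1 h e
  ext x
  simp only [ContinuousMap.add_apply, cyl_succ, cyl_insert, sg, h1, mem_insert_self, if_true,
    if_false]
  ring

theorem abs_sum_cyl (x : Cube) : ∀ (n : ℕ) (ε : Finset ℕ → ℝ), (∀ a, |ε a| = 1) →
    |∑ a ∈ (range n).powerset, ε a * cyl n a x| = 1
  | 0, ε, h => by simp [cyl, h]
  | n + 1, ε, h => by
    rw [range_add_one, sum_powerset_insert notMem_range_self, ← sum_add_distrib,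
      ← abs_sum_cyl x n (fun a => if x n then ε (insert n a) else ε a) fun a => by
        split_ifs <;> exact h _]
    congr 1
    refine sum_congr rfl fun a ha => ?_
    have h1 : n ∉ a := fun e => by simpa using mem_powerset.1 ha e
    simp only [cyl_succ, cyl_insert, sg, h1, mem_insert_self, if_true, if_false, rad_apply]
    split_ifs <;> ring

/-- A signed sum of the cylinders of level `n`. -/
noncomputable def sig (n : ℕ) (T : Finset (Finset ℕ)) : LC :=
  ∑ a ∈ (range n).powerset, sg T a • toL (cyl n a)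

theorem norm_sig (n : ℕ) (T : Finset (Finset ℕ)) : ‖sig n T‖ = 1 := by
  have h1 : sig n T = toL (∑ a ∈ (range n).powerset, sg T a • cyl n a) := by simp [sig]
  rw [h1, norm_toL, ← Ex_one]
  congr 1
  ext x
  simpa using abs_sum_cyl x n (sg T) (abs_sg T)

section

variable {Z W : Type*} [NormedAddCommGroup Z] [NormedSpace ℝ Z] [NormedAddCommGroup W]
  [NormedSpace ℝ W]

/-- The total norm of the images of the cylinders of level `n`. -/
noncomputable def tot (V : LC →L[ℝ] Z) (n : ℕ) : ℝ :=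
  ∑ a ∈ (range n).powerset, ‖V (toL (cyl n a))‖

theorem tot_le (V : LC →L[ℝ] Z) (n : ℕ) : tot V n ≤ ‖V‖ := by
  refine (sum_le_sum fun a _ => V.le_opNorm _).trans (le_of_eq ?_)
  simp only [norm_cyl, sum_const, card_powerset, card_range, nsmul_eq_mul]
  push_cast
  rw [mul_left_comm, ← mul_pow]
  norm_num

theorem tot_mono (V : LC →L[ℝ] Z) : Monotone (tot V) := monotone_nat_of_le_succ fun n => by
  unfold tot
  rw [range_add_one, sum_powerset_insert notMem_range_self, ← sum_add_distrib]
  refine sum_le_sum fun a ha => ?_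
  rw [cyl_split ha, map_add, map_add]
  exact norm_add_le _ _

theorem norm_sig_le (V : LC →L[ℝ] Z) (n : ℕ) (T : Finset (Finset ℕ)) : ‖V (sig n T)‖ ≤ tot V n := by
  rw [sig, map_sum]
  refine (norm_sum_le _ _).trans (sum_le_sum fun a _ => ?_)
  rw [map_smul, norm_smul, Real.norm_eq_abs, abs_sg, one_mul]

/-- The operator `A` kills the random signs after any operator from `L₁`. -/
def Nul (A : Z →L[ℝ] W) : Prop :=
  ∀ (V : LC →L[ℝ] Z) (η : ℝ), 0 < η →
    ∀ᶠ n in atTop, ((range n).powerset.powerset.expect fun T => ‖A (V (sig n T))‖) ≤ η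

theorem Nul.zero : Nul (0 : Z →L[ℝ] W) := fun _ _ h => Eventually.of_forall fun _ => by
  simpa using h.le

theorem Nul.add {A B : Z →L[ℝ] W} (hA : Nul A) (hB : Nul B) : Nul (A + B) := fun V η h => by
  filter_upwards [hA V _ (half_pos h), hB V _ (half_pos h)] with n h1 h2
  refine (expect_le_expect fun T _ => norm_add_le (A (V (sig n T))) (B (V (sig n T)))).trans ?_
  rw [expect_add_distrib]
  linarith

theorem Nul.sum {A : ℕ → Z →L[ℝ] W} (hA : ∀ k, Nul (A k)) (s : Finset ℕ) : Nul (∑ k ∈ s, A k) :=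
  sum_induction _ _ (fun _ _ => Nul.add) Nul.zero fun k _ => hA k

theorem Nul.left {U : Type*} [NormedAddCommGroup U] [NormedSpace ℝ U] {A : Z →L[ℝ] W} (hA : Nul A)
    (B : W →L[ℝ] U) : Nul (B ∘L A) := fun V η h => by
  filter_upwards [hA V (η / (‖B‖ + 1)) (by positivity)] with n h1
  refine (expect_le_expect fun T _ => B.le_opNorm (A (V (sig n T)))).trans ?_
  rw [← mul_expect]
  rw [le_div_iff₀ (by positivity)] at h1
  have : 0 ≤ (range n).powerset.powerset.expect fun T => ‖A (V (sig n T))‖ :=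
    expect_nonneg fun _ _ => norm_nonneg _
  nlinarith

theorem Nul.right {U : Type*} [NormedAddCommGroup U] [NormedSpace ℝ U] {A : Z →L[ℝ] W} (hA : Nul A)
    (B : U →L[ℝ] Z) : Nul (A ∘L B) := fun V => hA (B ∘L V)

theorem Nul.of_approx {A : Z →L[ℝ] W} (h : ∀ (V : LC →L[ℝ] Z) (η : ℝ), 0 < η →
    ∃ B, Nul B ∧ ∀ n T, ‖A (V (sig n T)) - B (V (sig n T))‖ ≤ η) : Nul A := fun V η hη => by
  obtain ⟨B, hB, h1⟩ := h V _ (half_pos hη)
  filter_upwards [hB V _ (half_pos hη)] with n h2
  refine (expect_le_expect (g := fun T => η / 2 + ‖B (V (sig n T))‖) fun T _ => ?_).trans ?_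
  · have := norm_add_le (A (V (sig n T)) - B (V (sig n T))) (B (V (sig n T)))
    rw [sub_add_cancel] at this
    linarith [h1 n T]
  · rw [expect_add_distrib, expect_const (powerset_nonempty _)]
    linarith

theorem Nul.not_below {A : Z →L[ℝ] W} (hA : Nul A) (V : LC →L[ℝ] Z) {c : ℝ} (hc : 0 < c)
    (h : ∀ f, c * ‖f‖ ≤ ‖A (V f)‖) : False := by
  obtain ⟨n, hn⟩ := (hA V _ (half_pos hc)).exists
  have h1 := expect_le_expect (s := (range n).powerset.powerset) (f := fun _ => c)
    (g := fun T => ‖A (V (sig n T))‖) fun T _ => by simpa [norm_sig] using h (sig n T)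
  rw [expect_const (powerset_nonempty _)] at h1
  linarith

end

theorem unif_int {α : Type*} [MeasurableSpace α] {μ : Measure α} {g : ℕ → α → ℝ}
    (hi : ∀ n, Integrable (g n) μ) (hm : ∀ n, g n ≤ᵐ[μ] g (n + 1)) {B : ℝ}
    (hb : ∀ n, ∫ x, g n x ∂μ ≤ B) {η : ℝ} (hη : 0 < η) :
    ∃ M > 0, ∀ n, ∫ x, max (g n x - M) 0 ∂μ ≤ η := by
  have hle : ∀ n m, n ≤ m → g n ≤ᵐ[μ] g m := fun n m h =>
    Nat.le_induction EventuallyLE.rfl (fun k _ ih => ih.trans (hm k)) m h
  have hbd : BddAbove (Set.range fun n => ∫ x, g n x ∂μ) := ⟨B, by rintro _ ⟨n, rfl⟩; exact hb n⟩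
  obtain ⟨m, hm'⟩ := exists_lt_of_lt_ciSup (f := fun n => ∫ x, g n x ∂μ)
    (sub_lt_self (⨆ n, ∫ x, g n x ∂μ) (half_pos hη))
  have hme : ∀ n (M : ℝ), AEStronglyMeasurable (fun x => max (g n x - M) 0) μ := fun n M =>
    ((hi n).1.sub aestronglyMeasurable_const).sup aestronglyMeasurable_const
  have hbn : ∀ n (M : ℝ), 0 ≤ M → ∀ x, ‖max (g n x - M) 0‖ ≤ ‖g n x‖ := fun n M hM x => by
    rw [Real.norm_of_nonneg (le_max_right _ _), Real.norm_eq_abs]
    exact max_le (by linarith [le_abs_self (g n x)]) (abs_nonneg _)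
  have hin : ∀ n (M : ℝ), 0 ≤ M → Integrable (fun x => max (g n x - M) 0) μ := fun n M hM =>
    (hi n).mono (hme n M) (ae_of_all _ (hbn n M hM))
  have hlim := tendsto_integral_of_dominated_convergence (μ := μ)
    (F := fun (k : ℕ) x => max (g m x - (k + 1)) 0) (f := fun _ => 0) (fun x => ‖g m x‖)
    (fun k => hme m _) (hi m).norm (fun k => ae_of_all _ (hbn m _ (by positivity)))
    (ae_of_all _ fun x => by
      obtain ⟨N, hN⟩ := exists_nat_ge (g m x)
      refine tendsto_atTop_of_eventually_const (i₀ := N) fun k hk => max_eq_right ?_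
      have : (N : ℝ) ≤ k := by exact_mod_cast hk
      linarith)
  rw [integral_zero] at hlim
  obtain ⟨k, hk⟩ := (hlim.eventually (gt_mem_nhds (half_pos hη))).exists
  refine ⟨k + 1, by positivity, fun n => ?_⟩
  have h1 : ∫ x, max (g n x - (k + 1)) 0 ∂μ ≤
      ∫ x, (max (g m x - (k + 1)) 0 + (g (max n m) x - g m x)) ∂μ := by
    refine integral_mono_ae (hin n _ (by positivity))
      ((hin m _ (by positivity)).add ((hi _).sub (hi _))) ?_
    filter_upwards [hle n _ (le_max_left n m), hle m _ (le_max_right n m)] with x h1 h2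
    exact max_le (by linarith [le_max_left (g m x - (k + 1)) 0])
      (by linarith [le_max_right (g m x - (k + 1)) 0])
  rw [integral_add (g := fun x => g (max n m) x - g m x) (hin m _ (by positivity))
    ((hi _).sub (hi _)), integral_sub (hi _) (hi _)] at h1
  linarith [le_ciSup hbd (max n m)]

theorem sum_max_le {ι : Type*} (I : Finset ι) (u : ι → ℝ) {M : ℝ} (hM : 0 ≤ M) :
    ∑ a ∈ I, max (|u a| - M) 0 ≤ max (∑ a ∈ I, |u a| - M) 0 := by
  classical
  induction I using Finset.induction_on with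
  | empty => simp
  | insert j I h ih =>
    rw [sum_insert h, sum_insert h]
    have h1 : 0 ≤ ∑ a ∈ I, |u a| := sum_nonneg fun _ _ => abs_nonneg _
    have h2 := abs_nonneg (u j)
    refine (add_le_add_right ih _).trans ?_
    simp only [max_def]
    split_ifs <;> linarith

end Pool.Agent.Lib.MP_f99ede_an
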