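import Pool.Agent.Lib.MP_f99ede_an.H80Cube

/-! Resolvents of the number operator on `L₁` of the cube. -/

open MeasureTheory Finset

namespace Pool.Agent.Lib.MP_f99ede_an

/-- `L₁` of the cube. -/
noncomputable abbrev LC := Lp ℝ 1 muC

/-- The class of a continuous function. -/
noncomputable def toL : CC →L[ℝ] LC := ContinuousMap.toLp 1 muC ℝ

theorem toL_ae (f : CC) : toL f =ᵐ[muC] f := ContinuousMap.coeFn_toLp muC f

theorem norm_toL (f : CC) : ‖toL f‖ = Ex |f| := by
  rw [L1.norm_eq_integral_norm, Ex_apply]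
  refine integral_congr_ae ((toL_ae f).mono fun x hx => ?_)
  simp [hx]

theorem norm_toL_flp (j : ℕ) (f : CC) : ‖toL (f.comp (flp j))‖ = ‖toL f‖ := by
  rw [norm_toL, norm_toL, ← Ex_comp_flp j |f|]
  rfl

/-- The multiplier of the resolvent. -/
noncomputable def mlt (l : ℝ) (S : Finset ℕ) : ℝ := l / (l + S.card)

theorem contr {l : ℝ} (hl : 0 < l) (s : Finset ℕ) (c : Finset ℕ → ℝ) :
    ‖toL (pol s fun S => mlt l S * c S)‖ ≤ ‖toL (pol s c)‖ := by
  set g := pol s fun S => mlt l S * c S with hg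
  have key : (l + s.card / 2) • g = l • pol s c + (1 / 2 : ℝ) • ∑ j ∈ s, g.comp (flp j) := by
    ext x
    simp only [ContinuousMap.smul_apply, ContinuousMap.add_apply, ContinuousMap.sum_apply,
      ContinuousMap.comp_apply, smul_eq_mul, hg, pol_apply, wal_flp]
    rw [sum_comm, mul_sum, mul_sum, mul_sum, ← sum_add_distrib]
    refine sum_congr rfl fun S hS => ?_
    have h1 : ∑ j ∈ s, (if j ∈ S then (-1 : ℝ) else 1) = s.card - 2 * S.card := by
      have h2 : ∀ j, (if j ∈ S then (-1 : ℝ) else 1) = 1 - 2 * if j ∈ S then 1 else 0 := fun j => by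
        split_ifs <;> norm_num
      simp only [h2, sum_sub_distrib, ← mul_sum, sum_boole, filter_mem_eq_inter,
        inter_eq_right.2 (mem_powerset.1 hS)]
      simp
    rw [← mul_sum, ← sum_mul, h1, mlt]
    have : l + S.card ≠ 0 := by positivity
    field_simp
    ring
  have h1 := congrArg (fun f => ‖toL f‖) key
  simp only [map_smul, map_add, map_sum, norm_smul] at h1
  have h2 := norm_add_le (l • toL (pol s c)) ((1 / 2 : ℝ) • ∑ j ∈ s, toL (g.comp (flp j)))
  have h3 := norm_sum_le s fun j => toL (g.comp (flp j))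
  simp only [norm_toL_flp, sum_const, nsmul_eq_mul] at h3
  rw [norm_smul, norm_smul, ← h1, Real.norm_of_nonneg (by positivity), Real.norm_of_nonneg hl.le,
    Real.norm_of_nonneg (by norm_num)] at h2
  nlinarith

theorem exists_cyl (f : LC) {τ : ℝ} (hτ : 0 < τ) :
    ∃ (s : Finset ℕ) (g : CC), DependsOn g s ∧ ‖f - toL g‖ ≤ τ := by
  let A : Subalgebra ℝ CC :=
    { carrier := {g | ∃ s : Finset ℕ, DependsOn g s}
      mul_mem' := by
        rintro f g ⟨s, hs⟩ ⟨t, ht⟩
        refine ⟨s ∪ t, fun x y h => ?_⟩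
        simp only [ContinuousMap.mul_apply]
        rw [hs fun i hi => h i (by simp [mem_coe.1 hi]), ht fun i hi => h i (by simp [mem_coe.1 hi])]
      add_mem' := by
        rintro f g ⟨s, hs⟩ ⟨t, ht⟩
        refine ⟨s ∪ t, fun x y h => ?_⟩
        simp only [ContinuousMap.add_apply]
        rw [hs fun i hi => h i (by simp [mem_coe.1 hi]), ht fun i hi => h i (by simp [mem_coe.1 hi])]
      algebraMap_mem' := fun r => ⟨∅, fun x y _ => by simp⟩ }
  have hA : A.SeparatesPoints := fun x y hxy => by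
    obtain ⟨j, hj⟩ := Function.ne_iff.1 hxy
    refine ⟨rad j, ⟨rad j, ⟨{j}, fun a b h => ?_⟩, rfl⟩, ?_⟩
    · simp [rad_apply, h j (by simp)]
    · simp only [rad_apply]
      revert hj
      cases x j <;> cases y j <;> norm_num
  have hd : Dense (A : Set CC) := by
    rw [dense_iff_closure_eq, ← Subalgebra.topologicalClosure_coe,
      ContinuousMap.subalgebra_topologicalClosure_eq_top_of_separatesPoints A hA]
    rfl
  have h1 : DenseRange toL := ContinuousMap.toLp_denseRange ℝ muC ℝ (by simp)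
  obtain ⟨_, ⟨g, ⟨s, hs⟩, rfl⟩, h⟩ :=
    Metric.mem_closure_iff.1 (h1.dense_image toL.continuous hd f) τ hτ
  exact ⟨s, g, hs, by rw [← dist_eq_norm]; exact h.le⟩

theorem exists_pol_near (f : LC) {τ : ℝ} (hτ : 0 < τ) : ∃ s c, ‖f - toL (pol s c)‖ ≤ τ := by
  obtain ⟨s, g, hs, h⟩ := exists_cyl f hτ
  obtain ⟨c, hc⟩ := exists_pol s g hs
  exact ⟨s, c, by rwa [← ContinuousMap.ext hc]⟩

theorem lc_pol (v : Finset ℕ → ℝ) (c : Finset ℕ →₀ ℝ) :
    Finsupp.linearCombination ℝ (fun S => v S • toL (wal S)) c =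
      toL (pol (c.support.biUnion id) fun S => v S * c S) := by
  rw [Finsupp.linearCombination_apply, Finsupp.sum_of_support_subset
    (s := (c.support.biUnion id).powerset) _
    (fun S hS => mem_powerset.2 (subset_biUnion_of_mem id hS)) _ (by simp), pol, map_sum]
  refine sum_congr rfl fun S _ => ?_
  rw [map_smul, smul_smul, mul_comm]

theorem dense_wal : DenseRange (Finsupp.linearCombination ℝ fun S => (1 : ℝ) • toL (wal S)) := by
  refine Metric.denseRange_iff.2 fun f τ hτ => ?_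
  obtain ⟨s, c, h⟩ := exists_pol_near f (half_pos hτ)
  refine ⟨∑ S ∈ s.powerset, Finsupp.single S (c S), ?_⟩
  rw [dist_eq_norm]
  refine lt_of_le_of_lt (le_of_eq ?_) (h.trans_lt (half_lt_self hτ))
  simp [pol]

theorem ext_wal {W : Type*} [NormedAddCommGroup W] [NormedSpace ℝ W] {A B : LC →L[ℝ] W}
    (h : ∀ S, A (toL (wal S)) = B (toL (wal S))) : A = B := by
  refine ContinuousLinearMap.ext fun f => dense_wal.induction_on f
    (isClosed_eq A.continuous B.continuous) fun c => ?_
  simp [Finsupp.linearCombination_apply, Finsupp.sum, h]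

theorem exists_res {l : ℝ} (hl : 0 < l) :
    ∃ R : LC →L[ℝ] LC, ‖R‖ ≤ 1 ∧ ∀ S, R (toL (wal S)) = mlt l S • toL (wal S) := by
  have hn : ∀ c : Finset ℕ →₀ ℝ,
      ‖Finsupp.linearCombination ℝ (fun S => mlt l S • toL (wal S)) c‖ ≤
        1 * ‖Finsupp.linearCombination ℝ (fun S => (1 : ℝ) • toL (wal S)) c‖ := fun c => by
    rw [lc_pol, lc_pol (fun _ => 1)]
    simpa using contr hl _ c
  refine ⟨LinearMap.extendOfNorm _ _, LinearMap.opNorm_extendOfNorm_le dense_wal zero_le_one hn,
    fun S => ?_⟩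
  simpa using LinearMap.extendOfNorm_eq dense_wal ⟨1, hn⟩ (Finsupp.single S 1)

theorem res_pol {l : ℝ} {R : LC →L[ℝ] LC} (hR : ∀ S, R (toL (wal S)) = mlt l S • toL (wal S))
    (s : Finset ℕ) (c : Finset ℕ → ℝ) :
    R (toL (pol s c)) = toL (pol s fun S => mlt l S * c S) := by
  simp only [pol, map_sum, map_smul, hR, smul_smul, mul_comm]

theorem energy_le {l M t : ℝ} (hl : 0 < l) (hM : 0 < M) (ht : 0 < t) :
    ∃ δ > 0, ∀ s c, (∀ x, |pol s c x| ≤ M) → Ex |pol s c| ≤ δ →
      Ex (pol s (fun S => mlt l S * c S) * pol s fun S => mlt l S * c S) ≤ t * Ex |pol s c| := by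
  obtain ⟨d, hd⟩ := exists_nat_gt (3 * l * M / t)
  refine ⟨(t / 3) / (9 ^ d * M ^ 3 / (64 * (t / 6) ^ 3)), by positivity, fun s c hb hδ => ?_⟩
  have h1 := level_le s c d hM (show 0 < t / 6 by positivity) hb
  have ha : 0 ≤ Ex |pol s c| := Ex_nonneg fun x => abs_nonneg _
  have h2 : ∑ S ∈ s.powerset, c S * c S ≤ M * Ex |pol s c| := by
    rw [← parseval, ← smul_eq_mul M, ← map_smul]
    refine Ex_mono fun x => ?_
    simp only [ContinuousMap.mul_apply, ContinuousMap.smul_apply, ContinuousMap.abs_apply,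
      smul_eq_mul]
    rw [← abs_mul_abs_self]
    exact mul_le_mul_of_nonneg_right (hb x) (abs_nonneg _)
  have h3 : ∑ S ∈ s.powerset, mlt l S * c S * (mlt l S * c S) ≤
      ∑ S ∈ s.powerset, ((if S.card ≤ d then c S else 0) ^ 2 + t / (3 * M) * (c S * c S)) := by
    refine sum_le_sum fun S _ => ?_
    have k0 : 0 ≤ mlt l S := by unfold mlt; positivity
    have k1 : mlt l S ≤ 1 := by
      unfold mlt
      rw [div_le_one (by positivity)]
      simp
    have k2 : 0 ≤ t / (3 * M) * (c S * c S) := mul_nonneg (by positivity) (mul_self_nonneg _)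
    have k3 : mlt l S * mlt l S ≤ mlt l S := by nlinarith
    split_ifs with h
    · nlinarith [mul_self_nonneg (c S)]
    · have k4 : mlt l S ≤ t / (3 * M) := by
        unfold mlt
        have k5 : (d : ℝ) ≤ S.card := by exact_mod_cast (not_le.1 h).le
        rw [div_lt_iff₀ ht] at hd
        rw [div_le_div_iff₀ (by positivity) (by positivity)]
        nlinarith
      nlinarith [mul_self_nonneg (c S)]
  rw [sum_add_distrib, ← mul_sum] at h3
  have h4 : t / (3 * M) * ∑ S ∈ s.powerset, c S * c S ≤ t / 3 * Ex |pol s c| := by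
    calc _ ≤ t / (3 * M) * (M * Ex |pol s c|) := by gcongr
      _ = _ := by field_simp
  rw [le_div_iff₀ (by positivity)] at hδ
  have h5 := mul_le_mul_of_nonneg_right hδ ha
  rw [parseval]
  nlinarith

end Pool.Agent.Lib.MP_f99ede_an
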