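import Pool.Agent.Lib.MP_f99ede_an.H53Own

/-! The same projection; its range also has a weakly null sequence bounded away from zero. -/

open MeasureTheory

namespace Pool.Agent.Lib.MP_f99ede_an

theorem main_proj_seq : ∃ P : L01 →L[ℝ] L01, (∀ f, P (P f) = P f) ∧
    ¬FiniteDimensional ℝ (LinearMap.range (P : L01 →ₗ[ℝ] L01)) ∧
    (∀ (T : L01 →L[ℝ] LinearMap.range (P : L01 →ₗ[ℝ] L01)) (c : ℝ), 0 < c →
      ¬∀ f, c * ‖f‖ ≤ ‖T f‖) ∧
    (∀ (T : LinearMap.range (P : L01 →ₗ[ℝ] L01) →L[ℝ] ell1) (c : ℝ), 0 < c →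
      ¬∀ x, c * ‖x‖ ≤ ‖T x‖) ∧
    ∃ (x : ℕ → LinearMap.range (P : L01 →ₗ[ℝ] L01)) (c : ℝ), 0 < c ∧ (∀ j, c ≤ ‖x j‖) ∧
      ∀ φ : LinearMap.range (P : L01 →ₗ[ℝ] L01) →L[ℝ] ℝ,
        Filter.Tendsto (fun j => φ (x j)) Filter.atTop (nhds 0) := by
  obtain ⟨P0, y, c, hP0, hN0, hy, hc, hcy⟩ := exists_cube
  obtain ⟨e⟩ := exists_equiv
  let u : LC →L[ℝ] L01 := e.toContinuousLinearEquiv
  let v : L01 →L[ℝ] LC := e.symm.toContinuousLinearEquiv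
  let P : L01 →L[ℝ] L01 := (u ∘L P0) ∘L v
  have hP : ∀ z, P (P z) = P z := fun z => by simp [P, u, v, hP0]
  have hN : Nul P := (hN0.left u).right v
  let X : Submodule ℝ L01 := LinearMap.range (P : L01 →ₗ[ℝ] L01)
  have hX : ∀ x : X, P x = x := by
    rintro ⟨_, z, rfl⟩
    exact hP z
  let p : L01 →L[ℝ] X := P.codRestrict X fun z => ⟨z, rfl⟩
  have hx : Up fun j => p (u (y j)) := (hy.map u).map p
  have hcx : ∀ j, c ≤ ‖p (u (y j))‖ := fun j => by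
    change c ≤ ‖P (u (y j))‖
    simpa [P, u, v] using hcy j
  refine ⟨P, hP, hx.not_finite hc hcx, fun T a ha hT => ?_, fun T a ha hT => ?_,
    _, c, hc, hcx, hx.weak⟩
  · refine hN.not_below (X.subtypeL ∘L T ∘L u) (c := a) ha fun f => ?_
    have h2 : ‖u f‖ = ‖f‖ := by simp [u]
    change _ ≤ ‖P (T (u f) : X)‖
    rw [hX, ← h2]
    exact hT (u f)
  · exact (hx.map T).not_ell1 (c := a * c) (by positivity) fun j =>
      (mul_le_mul_of_nonneg_left (hcx j) ha.le).trans (hT _)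

end Pool.Agent.Lib.MP_f99ede_an
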