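import Pool.Agent.Lib.MP_f99ede_an.Defs

/-!
A bounded operator on `L₁(μ)` is represented on continuous test functions by a difference of two
measures on the plane.
-/

open MeasureTheory Set Filter Topology
open scoped CompactlySupported

namespace Pool.Agent.Lib.MP_f99ede_an

theorem kr_vague {X : Type*} [TopologicalSpace X] [T2Space X] [LocallyCompactSpace X]
    [MeasurableSpace X] [BorelSpace X] (ρ : ℕ → Measure X) [∀ n, IsFiniteMeasure (ρ n)] {C : ℝ}
    (hC : ∀ n, (ρ n).real univ ≤ C) : ∃ Λ : Measure X, Λ.Regular ∧ ∀ φ : C_c(X, ℝ),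
      Tendsto (fun n => ∫ x, φ x ∂ρ n) (hyperfilter ℕ) (𝓝 (∫ x, φ x ∂Λ)) := by
  have I : ∀ (g : C_c(X, ℝ)) n, Integrable g (ρ n) := fun g n =>
    g.continuous.integrable_of_hasCompactSupport g.hasCompactSupport
  have L (g : C_c(X, ℝ)) : ∃ x, Tendsto (fun n => ∫ x, g x ∂ρ n) (hyperfilter ℕ) (𝓝 x) := by
    obtain ⟨x, -, h⟩ := (isCompact_closedBall (0 : ℝ)
      (‖g.toBoundedContinuousFunction‖ * C)).ultrafilter_le_nhds'
      ((hyperfilter ℕ).map fun n => ∫ x, g x ∂ρ n) (by
        rw [Ultrafilter.mem_map]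
        refine Eventually.of_forall fun n => mem_closedBall_zero_iff.2 ?_
        exact (norm_integral_le_of_norm_le_const (ae_of_all _ fun x =>
          g.toBoundedContinuousFunction.norm_coe_le_norm x)).trans
          (mul_le_mul_of_nonneg_left (hC n) (norm_nonneg _)))
    exact ⟨x, h⟩
  choose Λ hΛ using L
  let Λ' : C_c(X, ℝ) →ₚ[ℝ] ℝ :=
  { toFun := Λ
    map_add' g g' := tendsto_nhds_unique (hΛ (g + g'))
      (((hΛ g).add (hΛ g')).congr fun n => (integral_add (I g n) (I g' n)).symm)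
    map_smul' c g := tendsto_nhds_unique (hΛ (c • g))
      (((hΛ g).const_smul c).congr fun n => (integral_smul c _).symm)
    monotone' g g' h := le_of_tendsto_of_tendsto' (hΛ g) (hΛ g') fun n =>
      integral_mono (I g n) (I g' n) h }
  refine ⟨RealRMK.rieszMeasure Λ', inferInstance, fun φ => ?_⟩
  rw [RealRMK.integral_rieszMeasure]
  exact hΛ φ

/-- The indices of the cells. -/
noncomputable def krI (n : ℕ) : Finset ℤ := Finset.Icc (-((n + 1) * (n + 1))) ((n + 1) * (n + 1))

/-- The cells. -/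
def krC (n : ℕ) (k : ℤ) : Set ℝ := {s | ⌊s * (n + 1)⌋ = k}

theorem krC_meas (n : ℕ) (k : ℤ) : MeasurableSet (krC n k) :=
  (measurable_id.mul_const _).floor (measurableSet_singleton k)

/-- The step function. -/
noncomputable def krS (f : ℝ → ℝ) (n : ℕ) (s : ℝ) : ℝ :=
  ∑ k ∈ krI n, f (k / (n + 1)) * (krC n k).indicator (fun _ => 1) s

theorem krS_eq (f : ℝ → ℝ) (n : ℕ) (s : ℝ) :
    krS f n s = if ⌊s * (n + 1)⌋ ∈ krI n then f (⌊s * (n + 1)⌋ / (n + 1)) else 0 := by
  simp [krS, indicator, krC]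

theorem krS_lim {f : ℝ → ℝ} (hf : Continuous f) (s : ℝ) :
    Tendsto (fun n => krS f n s) atTop (𝓝 (f s)) := by
  have h0 : Tendsto (fun n : ℕ => (n : ℝ) + 1) atTop atTop :=
    tendsto_atTop_add_const_right _ _ tendsto_natCast_atTop_atTop
  have h1 : Tendsto (fun n : ℕ => (⌊s * (n + 1)⌋ : ℝ) / (n + 1)) atTop (𝓝 s) := by
    have h2 := (tendsto_const_nhds (x := s)).sub (tendsto_inv_atTop_zero.comp h0)
    rw [sub_zero] at h2
    refine tendsto_of_tendsto_of_tendsto_of_le_of_le h2 tendsto_const_nhds (fun n => ?_) fun n => ?_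
    · have := Int.sub_one_lt_floor (s * (n + 1))
      simp only [Function.comp]
      rw [le_div_iff₀ (by positivity), sub_mul, inv_mul_cancel₀ (by positivity)]
      linarith
    · simp only
      rw [div_le_iff₀ (by positivity)]
      exact Int.floor_le _
  refine ((hf.tendsto s).comp h1).congr' ?_
  filter_upwards [h0.eventually_ge_atTop |s|] with n hn
  have h2 : (0 : ℝ) ≤ n + 1 := by positivity
  rw [krS_eq, if_pos]
  · rfl
  · rw [krI, Finset.mem_Icc, Int.le_floor, Int.floor_le_iff]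
    push_cast
    constructor <;> nlinarith [abs_le.1 hn]

theorem krS_bd {f : ℝ → ℝ} {M : ℝ} (hM : ∀ s, |f s| ≤ M) (n : ℕ) (s : ℝ) : |krS f n s| ≤ M := by
  rw [krS_eq]
  split_ifs
  · exact hM _
  · simpa using (abs_nonneg _).trans (hM 0)

theorem krS_meas (f : ℝ → ℝ) (n : ℕ) : Measurable (krS f n) :=
  Finset.measurable_sum _ fun k _ => (measurable_const.indicator (krC_meas n k)).const_mul _

variable (μ : Measure ℝ) [IsFiniteMeasure μ]

/-- Indicator of a cell. -/
noncomputable def krE (n : ℕ) (k : ℤ) : Lp ℝ 1 μ :=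
  indicatorConstLp 1 (krC_meas n k) (measure_ne_top μ _) 1

/-- The step function in `L₁`. -/
noncomputable def krL (f : ℝ → ℝ) (n : ℕ) : Lp ℝ 1 μ := ∑ k ∈ krI n, f (k / (n + 1)) • krE μ n k

theorem krL_ae (f : ℝ → ℝ) (n : ℕ) : krL μ f n =ᵐ[μ] krS f n := by
  have h : ∀ᵐ s ∂μ, ∀ k ∈ krI n, (f (k / (n + 1)) • krE μ n k) s =
      f (k / (n + 1)) * (krC n k).indicator (fun _ => 1) s := by
    refine (Finset.eventually_all _).2 fun k _ => ?_
    filter_upwards [Lp.coeFn_smul (f (k / (n + 1))) (krE μ n k),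
      indicatorConstLp_coeFn (p := 1) (hs := krC_meas n k) (hμs := measure_ne_top μ _)
        (c := (1 : ℝ))] with s h1 h2
    rw [h1, Pi.smul_apply, smul_eq_mul, krE, h2]
  filter_upwards [h, Lp.coeFn_fun_finsetSum (krI n) fun k => f (k / (n + 1)) • krE μ n k]
    with s h1 h2
  rw [krL, h2]
  exact Finset.sum_congr rfl h1

theorem krL_lim {f : ℝ → ℝ} (hf : Continuous f) {M : ℝ} (hM : ∀ s, |f s| ≤ M)
    (hi : Integrable f μ) : Tendsto (krL μ f) atTop (𝓝 (hi.toL1 f)) := by
  rw [tendsto_iff_norm_sub_tendsto_zero]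
  have h := tendsto_integral_of_dominated_convergence (μ := μ) (F := fun n s => ‖krS f n s - f s‖)
    (f := fun _ => 0) (fun _ => M + M)
    (fun n => ((krS_meas f n).sub hf.measurable).norm.aestronglyMeasurable) (integrable_const _)
    (fun n => ae_of_all _ fun s => by
      rw [norm_norm]
      exact (norm_sub_le _ _).trans (add_le_add (krS_bd hM n s) (hM s)))
    (ae_of_all _ fun s => tendsto_iff_norm_sub_tendsto_zero.1 (krS_lim hf s))
  rw [integral_zero] at h
  refine h.congr fun n => ?_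
  rw [L1.norm_eq_integral_norm]
  refine integral_congr_ae ?_
  filter_upwards [Lp.coeFn_sub (krL μ f n) (hi.toL1 f), krL_ae μ f n, hi.coeFn_toL1] with s h1 h2 h3
  rw [h1, Pi.sub_apply, h2, h3]

theorem krS_integral (f : ℝ → ℝ) (n : ℕ) :
    ∫ s, krL μ f n s ∂μ = ∑ k ∈ krI n, f (k / (n + 1)) * ‖krE μ n k‖ := by
  rw [integral_congr_ae (krL_ae μ f n)]
  simp only [krS]
  rw [integral_finsetSum _ fun k _ => ((integrable_const _).indicator (krC_meas n k)).const_mul _]
  refine Finset.sum_congr rfl fun k _ => ?_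
  rw [integral_const_mul, integral_indicator_const _ (krC_meas n k), krE,
    norm_indicatorConstLp one_ne_zero ENNReal.one_ne_top]
  simp

variable {μ}

omit [IsFiniteMeasure μ] in
/-- Integration against a bounded function as a functional on `L₁`. -/
theorem kr_fun {h : ℝ → ℝ} (hm : Measurable h) {C : ℝ} (hC : ∀ u, |h u| ≤ C) :
    ∃ T : Lp ℝ 1 μ →L[ℝ] ℝ, ∀ y, T y = ∫ u, h u * y u ∂μ := by
  have hi : ∀ y : Lp ℝ 1 μ, Integrable (fun u => h u * y u) μ := fun y =>
    (L1.integrable_coeFn y).bdd_mul (c := C) hm.aestronglyMeasurable (ae_of_all _ hC)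
  refine ⟨LinearMap.mkContinuous
    { toFun := fun y => ∫ u, h u * y u ∂μ
      map_add' := fun y z => ?_
      map_smul' := fun c y => ?_ } C fun y => ?_, fun y => rfl⟩
  · rw [← integral_add (hi y) (hi z)]
    refine integral_congr_ae ?_
    filter_upwards [Lp.coeFn_add y z] with u hu
    rw [hu, Pi.add_apply, mul_add]
  · rw [RingHom.id_apply, smul_eq_mul, ← integral_const_mul]
    refine integral_congr_ae ?_
    filter_upwards [Lp.coeFn_smul c y] with u hu
    rw [hu, Pi.smul_apply, smul_eq_mul, mul_left_comm]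
  · rw [L1.norm_eq_integral_norm, ← integral_const_mul]
    refine norm_integral_le_of_norm_le ((L1.integrable_coeFn y).norm.const_mul C)
      (ae_of_all _ fun u => ?_)
    rw [norm_mul]
    exact mul_le_mul_of_nonneg_right (hC u) (norm_nonneg _)

variable (D : Lp ℝ 1 μ →L[ℝ] Lp ℝ 1 μ)

/-- The approximating measures. -/
noncomputable def krP (σ : ℝ) (n : ℕ) : Measure (ℝ × ℝ) := ∑ k ∈ krI n,
  (μ.withDensity fun u => ENNReal.ofReal (σ * D (krE μ n k) u)).map (Prod.mk ((k : ℝ) / (n + 1)))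

instance krP_fin0 (σ : ℝ) (y : Lp ℝ 1 μ) :
    IsFiniteMeasure (μ.withDensity fun u => ENNReal.ofReal (σ * y u)) :=
  isFiniteMeasure_withDensity_ofReal ((L1.integrable_coeFn y).const_mul σ).2

instance krP_fin (σ : ℝ) (n : ℕ) : IsFiniteMeasure (krP D σ n) := by
  unfold krP
  infer_instance

theorem krP_int (σ : ℝ) (n : ℕ) {f g : ℝ → ℝ} (hf : Continuous f) (hg : Continuous g) {M C : ℝ}
    (hM : ∀ s, |f s| ≤ M) (hC : ∀ u, |g u| ≤ C) : ∫ p, f p.1 * g p.2 ∂krP D σ n =
      ∑ k ∈ krI n, f (k / (n + 1)) * ∫ u, max (σ * D (krE μ n k) u) 0 * g u ∂μ := by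
  rw [krP, integral_finsetSum_measure fun k _ => Integrable.of_bound (by fun_prop) (M * C)
    (ae_of_all _ fun p => by
      rw [norm_mul]
      exact mul_le_mul (hM _) (hC _) (norm_nonneg _) ((abs_nonneg _).trans (hM 0)))]
  refine Finset.sum_congr rfl fun k _ => ?_
  rw [integral_map (by fun_prop) (by fun_prop)]
  dsimp only
  rw [integral_const_mul, integral_withDensity_eq_integral_toReal_smul₀
      ((Lp.aestronglyMeasurable _).aemeasurable.const_mul σ).ennreal_ofReal (by simp)]
  simp only [ENNReal.toReal_ofReal', smul_eq_mul]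

omit [IsFiniteMeasure μ] in
theorem kr_max_int (σ : ℝ) (y : Lp ℝ 1 μ) {g : ℝ → ℝ} (hg : Continuous g) {C : ℝ}
    (hC : ∀ u, |g u| ≤ C) : Integrable (fun u => max (σ * y u) 0 * g u) μ :=
  ((L1.integrable_coeFn y).const_mul σ).pos_part.mul_bdd (c := C) hg.aestronglyMeasurable
    (ae_of_all _ hC)

theorem krP_sub (n : ℕ) {f g : ℝ → ℝ} (hf : Continuous f) (hg : Continuous g) {M C : ℝ}
    (hM : ∀ s, |f s| ≤ M) (hC : ∀ u, |g u| ≤ C) :
    ∫ p, f p.1 * g p.2 ∂krP D 1 n - ∫ p, f p.1 * g p.2 ∂krP D (-1) n =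
      ∫ u, g u * D (krL μ f n) u ∂μ := by
  obtain ⟨T, hT⟩ := kr_fun (μ := μ) hg.measurable hC
  rw [krP_int D 1 n hf hg hM hC, krP_int D (-1) n hf hg hM hC, ← hT, krL, map_sum, map_sum,
    ← Finset.sum_sub_distrib]
  refine Finset.sum_congr rfl fun k _ => ?_
  rw [map_smul, map_smul, hT, smul_eq_mul, ← mul_sub,
    ← integral_sub (kr_max_int _ _ hg hC) (kr_max_int _ _ hg hC)]
  congr 2
  funext u
  rw [← sub_mul, one_mul, neg_one_mul, max_zero_sub_max_neg_zero_eq_self, mul_comm]

theorem krP_add (n : ℕ) {f g : ℝ → ℝ} (hf : Continuous f) (hg : Continuous g)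
    (hM : ∀ s, f s ∈ Icc (0 : ℝ) 1) (hC : ∀ u, g u ∈ Icc (0 : ℝ) 1) :
    ∫ p, f p.1 * g p.2 ∂krP D 1 n + ∫ p, f p.1 * g p.2 ∂krP D (-1) n ≤
      ‖D‖ * ∫ s, krL μ f n s ∂μ := by
  have hM' : ∀ s, |f s| ≤ 1 := fun s => abs_le.2 ⟨by linarith [(hM s).1], (hM s).2⟩
  have hC' : ∀ s, |g s| ≤ 1 := fun s => abs_le.2 ⟨by linarith [(hC s).1], (hC s).2⟩
  rw [krP_int D 1 n hf hg hM' hC', krP_int D (-1) n hf hg hM' hC', krS_integral,
    ← Finset.sum_add_distrib, Finset.mul_sum]
  refine Finset.sum_le_sum fun k _ => ?_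
  rw [← mul_add, mul_left_comm, ← integral_add (kr_max_int _ _ hg hC') (kr_max_int _ _ hg hC')]
  refine mul_le_mul_of_nonneg_left (le_trans ?_ (D.le_opNorm _)) (hM _).1
  rw [L1.norm_eq_integral_norm]
  refine integral_mono ((kr_max_int _ _ hg hC').add (kr_max_int _ _ hg hC'))
    (L1.integrable_coeFn _).norm fun u => ?_
  simp only
  rw [← add_mul, one_mul, neg_one_mul, max_zero_add_max_neg_zero_eq_abs_self, Real.norm_eq_abs]
  exact mul_le_of_le_one_right (abs_nonneg _) (hC u).2

/-- The product of two test functions. -/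
def krT {f g : ℝ → ℝ} (hf : Continuous f) (hg : Continuous g) (hf' : HasCompactSupport f)
    (hg' : HasCompactSupport g) : C_c(ℝ × ℝ, ℝ) where
  toFun p := f p.1 * g p.2
  hasCompactSupport' := HasCompactSupport.intro (hf'.isCompact.prod hg'.isCompact) fun p hp => by
    rcases not_and_or.1 hp with h | h <;> simp [image_eq_zero_of_notMem_tsupport h]

theorem kr_limit : ∃ Λ₁ Λ₂ : Measure (ℝ × ℝ), (Λ₁ + Λ₂).fst ≤ ENNReal.ofReal ‖D‖ • μ ∧
    ∀ f g : ℝ → ℝ, Continuous f → Continuous g → HasCompactSupport f → HasCompactSupport g →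
      ∀ hi : Integrable f μ, ∫ p, f p.1 * g p.2 ∂Λ₁ - ∫ p, f p.1 * g p.2 ∂Λ₂ =
        ∫ u, g u * D (hi.toL1 f) u ∂μ := by
  have hb : ∀ n, (krP D 1 n).real univ + (krP D (-1) n).real univ ≤ ‖D‖ * μ.real univ := fun n => by
    have h := krP_add D n (f := fun _ => 1) (g := fun _ => 1) continuous_const continuous_const
      (fun _ => by simp) fun _ => by simp
    simp only [mul_one, integral_const, smul_eq_mul] at h
    refine h.trans (mul_le_mul_of_nonneg_left ?_ (norm_nonneg _))
    rw [integral_congr_ae (krL_ae μ _ n)]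
    exact (le_abs_self _).trans ((norm_integral_le_of_norm_le_const (C := 1) (μ := μ)
      (f := krS (fun _ => 1) n)
      (ae_of_all _ fun s => krS_bd (f := fun _ => 1) (by simp) n s)).trans_eq (one_mul _))
  obtain ⟨Λ₁, r1, h1⟩ := kr_vague (krP D 1) (C := ‖D‖ * μ.real univ) fun n =>
    le_trans (le_add_of_nonneg_right measureReal_nonneg) (hb n)
  obtain ⟨Λ₂, r2, h2⟩ := kr_vague (krP D (-1)) (C := ‖D‖ * μ.real univ) fun n =>
    le_trans (le_add_of_nonneg_left measureReal_nonneg) (hb n)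
  refine ⟨Λ₁, Λ₂, ?_, fun f g hf hg hf' hg' hi => ?_⟩
  · have : IsFiniteMeasureOnCompacts (Λ₁ + Λ₂) :=
      ⟨fun K hK => ENNReal.add_lt_top.2 ⟨hK.measure_lt_top, hK.measure_lt_top⟩⟩
    have : IsLocallyFiniteMeasure (Λ₁ + Λ₂) := isLocallyFiniteMeasure_of_isFiniteMeasureOnCompacts
    have : (Λ₁ + Λ₂).Regular := Measure.Regular.of_sigmaCompactSpace_of_isLocallyFiniteMeasure _
    have key : ∀ U : Set ℝ, IsOpen U → (Λ₁ + Λ₂).fst U ≤ ENNReal.ofReal ‖D‖ * μ U := by
      intro U hU
      rw [Measure.fst_apply hU.measurableSet,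
        (hU.preimage continuous_fst).measure_eq_iSup_isCompact]
      refine iSup_le fun K => iSup_le fun hKU => iSup_le fun hK => ?_
      obtain ⟨f, f1, f0, fc, fb⟩ := exists_continuous_one_zero_of_isCompact
        (hK.image continuous_fst) hU.isClosed_compl
        (disjoint_compl_right_iff_subset.2 (image_subset_iff.2 hKU))
      obtain ⟨g, g1, -, gc, gb⟩ := exists_continuous_one_zero_of_isCompact
        (hK.image continuous_snd) isClosed_empty (disjoint_empty _)
      let φ := krT f.continuous g.continuous fc gc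
      have fi : Integrable f μ := f.continuous.integrable_of_hasCompactSupport fc
      have a1 := (L1.integralCLM.continuous.tendsto _).comp (krL_lim μ f.continuous (M := 1)
        (fun s => abs_le.2 ⟨by linarith [(fb s).1], (fb s).2⟩) fi)
      simp only [Function.comp_def, ← L1.integral_eq, L1.integral_eq_integral] at a1
      have a2 := le_of_tendsto_of_tendsto' ((h1 φ).add (h2 φ))
        ((a1.const_mul ‖D‖).mono_left Nat.hyperfilter_le_atTop) fun n =>
          krP_add D n f.continuous g.continuous fb gb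
      rw [integral_congr_ae fi.coeFn_toL1, ← integral_add_measure (f := φ)
        (φ.continuous.integrable_of_hasCompactSupport φ.hasCompactSupport)
        (φ.continuous.integrable_of_hasCompactSupport φ.hasCompactSupport)] at a2
      have a3 : (Λ₁ + Λ₂).real K ≤ ∫ p, φ p ∂(Λ₁ + Λ₂) := by
        rw [← integral_indicator_one hK.measurableSet]
        refine integral_mono_of_nonneg (ae_of_all _ fun p => indicator_nonneg (by simp) p)
          (φ.continuous.integrable_of_hasCompactSupport φ.hasCompactSupport)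
          (ae_of_all _ fun p => indicator_apply_le' (fun hp => ?_) fun _ =>
            mul_nonneg (fb _).1 (gb _).1)
        change (1 : ℝ) ≤ f p.1 * g p.2
        rw [f1 (mem_image_of_mem _ hp), g1 (mem_image_of_mem _ hp)]
        simp
      have a4 : ∫ s, f s ∂μ ≤ μ.real U := by
        rw [← integral_indicator_one hU.measurableSet]
        refine integral_mono fi ((integrable_const _).indicator hU.measurableSet) fun s =>
          le_indicator_apply (fun _ => (fb s).2) fun hs => (f0 hs).le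
      rw [← ofReal_measureReal hK.measure_ne_top, ← ofReal_measureReal (measure_ne_top μ U),
        ← ENNReal.ofReal_mul (norm_nonneg _)]
      exact ENNReal.ofReal_le_ofReal (a3.trans (a2.trans
        (mul_le_mul_of_nonneg_left a4 (norm_nonneg _))))
    have : IsFiniteMeasure (ENNReal.ofReal ‖D‖ • μ) := μ.smul_finite ENNReal.ofReal_ne_top
    refine Measure.le_iff'.2 fun A => ?_
    rw [A.measure_eq_iInf_isOpen (ENNReal.ofReal ‖D‖ • μ)]
    exact le_iInf fun U => le_iInf fun hAU => le_iInf fun hU => (measure_mono hAU).trans (key U hU)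
  · obtain ⟨M, hM⟩ := hf.bounded_above_of_compact_support hf'
    obtain ⟨C, hC⟩ := hg.bounded_above_of_compact_support hg'
    obtain ⟨T, hT⟩ := kr_fun (μ := μ) hg.measurable hC
    have a1 := ((T.comp D).continuous.tendsto _).comp (krL_lim μ hf hM hi)
    simp only [Function.comp_def, ContinuousLinearMap.comp_apply, hT] at a1
    exact tendsto_nhds_unique (((h1 (krT hf hg hf' hg')).sub (h2 (krT hf hg hf' hg'))).congr
      fun n => krP_sub D n hf hg hM hC) (a1.mono_left Nat.hyperfilter_le_atTop)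

end Pool.Agent.Lib.MP_f99ede_an
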